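import Pool.Agent.P.MP_8b2bd9_co.Basic

/-! Shift averaging and decay of the archimedean oscillatory sums. -/

set_option autoImplicit false

open Complex Finset

noncomputable section

namespace Pool.Agent.P.MP_8b2bd9_co

lemma norm_sum_range_le (F : ℕ → ℂ) (hF : ∀ s, ‖F s‖ ≤ 1) (n : ℕ) :
    ‖∑ s ∈ range n, F s‖ ≤ n := by
  refine (norm_sum_le _ _).trans ?_
  calc ∑ s ∈ range n, ‖F s‖ ≤ ∑ s ∈ range n, (1 : ℝ) := sum_le_sum fun s _ => hF s
    _ = n := by simp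

lemma shift_sum (F : ℕ → ℂ) (hF : ∀ s, ‖F s‖ ≤ 1) (S j : ℕ) :
    ‖∑ s ∈ range S, F s - ∑ s ∈ range S, F (s + j)‖ ≤ 2 * j := by
  have h1 := sum_range_add F S j
  have h2 := sum_range_add F j S
  rw [add_comm j S] at h2
  have h3 : ∑ s ∈ range S, F (s + j) = ∑ s ∈ range S, F (j + s) := by
    simp only [add_comm]
  have : ∑ s ∈ range S, F s - ∑ s ∈ range S, F (s + j) =
      ∑ s ∈ range j, F s - ∑ s ∈ range j, F (S + s) := by
    rw [h3]; linear_combination h2 - h1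
  rw [this]
  refine (norm_sub_le _ _).trans ?_
  have a := norm_sum_range_le F hF j
  have b := norm_sum_range_le (fun s => F (S + s)) (fun s => hF _) j
  linarith

/-- The shift-averaging inequality. -/
lemma avg_shift (F : ℕ → ℂ) (hF : ∀ s, ‖F s‖ ≤ 1) (S h n : ℕ) :
    ‖(n : ℂ) * ∑ s ∈ range S, F s - ∑ s ∈ range S, ∑ σ ∈ range n, F (s + h * σ)‖
      ≤ 2 * h * n ^ 2 := by
  rw [sum_comm]
  have : (n : ℂ) * ∑ s ∈ range S, F s = ∑ _σ ∈ range n, ∑ s ∈ range S, F s := by simp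
  rw [this, ← sum_sub_distrib]
  refine (norm_sum_le _ _).trans ?_
  calc ∑ σ ∈ range n, ‖∑ s ∈ range S, F s - ∑ s ∈ range S, F (s + h * σ)‖
      ≤ ∑ _σ ∈ range n, (2 * h * n : ℝ) := by
        refine sum_le_sum fun σ hσ => (shift_sum F hF S (h * σ)).trans ?_
        have : (σ : ℝ) ≤ n := by exact_mod_cast (mem_range.1 hσ).le
        push_cast
        have h0 : (0 : ℝ) ≤ h := Nat.cast_nonneg _
        nlinarith
    _ = 2 * h * n ^ 2 := by simp; ring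

lemma avg_shift_le (F : ℕ → ℂ) (hF : ∀ s, ‖F s‖ ≤ 1) (S h n : ℕ) :
    n * ‖∑ s ∈ range S, F s‖ ≤
      ∑ s ∈ range S, ‖∑ σ ∈ range n, F (s + h * σ)‖ + 2 * h * n ^ 2 := by
  have h1 := avg_shift F hF S h n
  have h2 := norm_sum_le (range S) (fun s => ∑ σ ∈ range n, F (s + h * σ))
  have h3 : (n : ℝ) * ‖∑ s ∈ range S, F s‖ = ‖(n : ℂ) * ∑ s ∈ range S, F s‖ := by
    rw [norm_mul, Complex.norm_natCast]
  have h4 := norm_le_norm_add_norm_sub' ((n : ℂ) * ∑ s ∈ range S, F s)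
    (∑ s ∈ range S, ∑ σ ∈ range n, F (s + h * σ))
  linarith

/-- The point `(τ + i) / (τ - i)` of the unit circle. -/
def ur (τ : ℝ) : ℂ := (τ + I) / (τ - I)

lemma one_le_norm_sub_I (τ : ℝ) : 1 ≤ ‖(τ : ℂ) - I‖ := by
  have := Complex.abs_im_le_norm ((τ : ℂ) - I)
  simpa using this

lemma sub_I_ne_zero (τ : ℝ) : (τ : ℂ) - I ≠ 0 := by
  intro h; have := one_le_norm_sub_I τ; rw [h] at this; simp at this; linarith

lemma ur_sub (τ δ : ℝ) :
    ur (τ + δ) - ur τ = δ * (-2 * I / ((τ - I) * (((τ + δ : ℝ) : ℂ) - I))) := by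
  unfold ur
  have h1 := sub_I_ne_zero τ
  have h2 := sub_I_ne_zero (τ + δ)
  field_simp
  push_cast
  ring

lemma norm_ur_sub_le (τ δ : ℝ) : ‖ur (τ + δ) - ur τ‖ ≤ 2 * |δ| := by
  rw [ur_sub, norm_mul, norm_div, norm_mul, norm_mul]
  have h1 := one_le_norm_sub_I τ
  have h2 := one_le_norm_sub_I (τ + δ)
  simp only [norm_neg, Complex.norm_ofNat, Complex.norm_I, mul_one, Complex.norm_real,
    Real.norm_eq_abs]
  have : 2 / (‖(τ : ℂ) - I‖ * ‖((τ + δ : ℝ) : ℂ) - I‖) ≤ 2 :=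
    div_le_self (by norm_num) (by nlinarith)
  have h0 := abs_nonneg δ
  nlinarith

lemma norm_ur_taylor (τ δ : ℝ) :
    ‖ur (τ + δ) - ur τ - δ * (-2 * I / (τ - I) ^ 2)‖ ≤ 2 * δ ^ 2 := by
  have h1 := sub_I_ne_zero τ
  have h2 := sub_I_ne_zero (τ + δ)
  have : ur (τ + δ) - ur τ - δ * (-2 * I / (τ - I) ^ 2) =
      (δ : ℂ) ^ 2 * (2 * I / ((τ - I) ^ 2 * (((τ + δ : ℝ) : ℂ) - I))) := by
    rw [ur_sub]
    field_simp
    push_cast
    ring
  rw [this, norm_mul, norm_div, norm_mul, norm_mul, norm_pow, norm_pow]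
  have h3 := one_le_norm_sub_I τ
  have h4 := one_le_norm_sub_I (τ + δ)
  simp only [Complex.norm_ofNat, Complex.norm_I, mul_one, Complex.norm_real,
    Real.norm_eq_abs, sq_abs]
  have : 2 / (‖(τ : ℂ) - I‖ ^ 2 * ‖((τ + δ : ℝ) : ℂ) - I‖) ≤ 2 :=
    div_le_self (by norm_num) (by nlinarith)
  have h0 := sq_nonneg δ
  nlinarith

lemma pair_slope (τ : ℝ) (ζ : ℂ) :
    pair (-2 * I / (τ - I) ^ 2) ζ = (4 * τ * ζ.re + 2 * (1 - τ ^ 2) * ζ.im) / (1 + τ ^ 2) ^ 2 := by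
  have h1 := sub_I_ne_zero τ
  have h2 : (1 + τ ^ 2 : ℝ) ≠ 0 := by positivity
  have h3 : (((1 + τ ^ 2 : ℝ) : ℂ)) ≠ 0 := by exact_mod_cast h2
  have : (-2 * I / (τ - I) ^ 2 : ℂ) =
      ((1 / (1 + τ ^ 2) ^ 2 : ℝ) : ℂ) * (((4 * τ : ℝ) : ℂ) + ((2 * (1 - τ ^ 2) : ℝ) : ℂ) * I) := by
    have e : ((1 + τ ^ 2 : ℝ) : ℂ) = (τ - I) * (τ + I) := by
      push_cast; linear_combination (1 : ℂ) * I_sq
    have h4 : (τ + I : ℂ) ≠ 0 := by
      intro h; rw [e, h, mul_zero] at h3; exact h3 rfl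
    rw [Complex.ofReal_div, Complex.ofReal_pow, e]
    field_simp
    push_cast
    linear_combination (-2 * I - 4 * (τ : ℂ)) * I_sq
  rw [this, pair_real_mul_left, pair_eq]
  simp only [add_re, ofReal_re, mul_re, I_re, mul_zero, ofReal_im, I_im, mul_one, sub_self,
    add_zero, add_im, mul_im, zero_add]
  field_simp

lemma norm_geom_le (x : ℝ) (hx : |x| ≤ 1 / 2) (hx0 : x ≠ 0) (n : ℕ) :
    ‖∑ σ ∈ range n, ee x ^ σ‖ ≤ 1 / (2 * |x|) := by
  have h1 := le_norm_ee_sub_one x hx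
  have hpos : 0 < |x| := abs_pos.2 hx0
  have h2 : ee x ≠ 1 := by
    intro h; rw [h, sub_self, norm_zero] at h1; linarith
  rw [geom_sum_eq h2, norm_div]
  have h3 : ‖ee x ^ n - 1‖ ≤ 2 := by
    refine (norm_sub_le _ _).trans ?_
    rw [norm_pow, norm_ee]; norm_num
  rw [div_le_div_iff₀ (by linarith) (by positivity)]
  nlinarith

lemma arch_inner (τ h : ℝ) (ζ : ℂ) (n : ℕ) (hh : 0 ≤ h) :
    ‖∑ σ ∈ range n, ee (pair (ur (τ + h * σ)) ζ)‖ ≤
      ‖∑ σ ∈ range n, ee (h * pair (-2 * I / (τ - I) ^ 2) ζ) ^ σ‖ + n * (14 * (h * n) ^ 2 * ‖ζ‖) := by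
  set κ := pair (-2 * I / (τ - I) ^ 2) ζ with hκ
  have key : ∀ σ ∈ range n, ‖ee (pair (ur (τ + h * σ)) ζ) - ee (pair (ur τ) ζ) * ee (h * κ) ^ σ‖
      ≤ 14 * (h * n) ^ 2 * ‖ζ‖ := by
    intro σ hσ
    rw [← ee_nat_mul, ← ee_add]
    refine (norm_ee_sub_ee_le _ _).trans ?_
    have e : pair (ur (τ + h * σ)) ζ - (pair (ur τ) ζ + σ * (h * κ)) =
        pair (ur (τ + h * σ) - ur τ - ((h * σ : ℝ) : ℂ) * (-2 * I / (τ - I) ^ 2)) ζ := by
      rw [pair_sub_left, pair_sub_left, pair_real_mul_left]; ring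
    rw [e]
    have h1 := abs_pair_le (ur (τ + h * σ) - ur τ - ((h * σ : ℝ) : ℂ) * (-2 * I / (τ - I) ^ 2)) ζ
    have h2 := norm_ur_taylor τ (h * σ)
    have h3 : (σ : ℝ) ≤ n := by exact_mod_cast (mem_range.1 hσ).le
    have h4 : (h * σ) ^ 2 ≤ (h * n) ^ 2 := by
      apply pow_le_pow_left₀ (by positivity); exact mul_le_mul_of_nonneg_left h3 hh
    have h5 := norm_nonneg ζ
    have h6 := mul_le_mul_of_nonneg_right (h2.trans (by linarith : 2 * (h * σ) ^ 2 ≤ 2 * (h * n) ^ 2)) h5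
    linarith
  have h1 : ‖∑ σ ∈ range n, ee (pair (ur (τ + h * σ)) ζ) -
      ee (pair (ur τ) ζ) * ∑ σ ∈ range n, ee (h * κ) ^ σ‖ ≤ n * (14 * (h * n) ^ 2 * ‖ζ‖) := by
    rw [mul_sum, ← sum_sub_distrib]
    refine (norm_sum_le _ _).trans ((sum_le_sum key).trans ?_)
    simp
  have h2 := norm_le_norm_add_norm_sub' (∑ σ ∈ range n, ee (pair (ur (τ + h * σ)) ζ))
    (ee (pair (ur τ) ζ) * ∑ σ ∈ range n, ee (h * κ) ^ σ)
  rw [norm_mul, norm_ee, one_mul] at h2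
  linarith

lemma bad_close (τ τ' lam : ℝ) (ζ : ℂ) (hζ : 0 < ‖ζ‖) (h0 : 0 ≤ τ) (h2 : τ ≤ 2) (h0' : 0 ≤ τ')
    (h2' : τ' ≤ 2) (hb : |4 * τ * ζ.re + 2 * (1 - τ ^ 2) * ζ.im| ≤ lam * ‖ζ‖)
    (hb' : |4 * τ' * ζ.re + 2 * (1 - τ' ^ 2) * ζ.im| ≤ lam * ‖ζ‖) : |τ - τ'| ≤ 4 * lam := by
  set G := 4 * τ * ζ.re + 2 * (1 - τ ^ 2) * ζ.im
  set G' := 4 * τ' * ζ.re + 2 * (1 - τ' ^ 2) * ζ.im
  set D := 8 * (τ - τ') * (1 + τ * τ')
  have e1 : D * ζ.re = G * (2 * (1 - τ' ^ 2)) - G' * (2 * (1 - τ ^ 2)) := by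
    simp only [D, G, G']; ring
  have e2 : D * ζ.im = G' * (4 * τ) - G * (4 * τ') := by
    simp only [D, G, G']; ring
  have hl : 0 ≤ lam * ‖ζ‖ := (abs_nonneg _).trans hb
  have b1 : |2 * (1 - τ' ^ 2)| ≤ 6 := by rw [abs_le]; constructor <;> nlinarith
  have b2 : |2 * (1 - τ ^ 2)| ≤ 6 := by rw [abs_le]; constructor <;> nlinarith
  have b3 : |4 * τ| ≤ 8 := by rw [abs_le]; constructor <;> nlinarith
  have b4 : |4 * τ'| ≤ 8 := by rw [abs_le]; constructor <;> nlinarith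
  have c1 : |D| * |ζ.re| ≤ 12 * (lam * ‖ζ‖) := by
    rw [← abs_mul, e1]
    refine (abs_sub _ _).trans ?_
    rw [abs_mul, abs_mul G']
    have := mul_le_mul hb b1 (abs_nonneg _) hl
    have := mul_le_mul hb' b2 (abs_nonneg _) hl
    linarith
  have c2 : |D| * |ζ.im| ≤ 16 * (lam * ‖ζ‖) := by
    rw [← abs_mul, e2]
    refine (abs_sub _ _).trans ?_
    rw [abs_mul, abs_mul G]
    have := mul_le_mul hb b4 (abs_nonneg _) hl
    have := mul_le_mul hb' b3 (abs_nonneg _) hl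
    linarith
  have c3 := Complex.norm_le_abs_re_add_abs_im ζ
  have c4 : |D| * ‖ζ‖ ≤ 28 * lam * ‖ζ‖ := by
    have := mul_le_mul_of_nonneg_left c3 (abs_nonneg D)
    nlinarith
  have c5 : |D| ≤ 28 * lam := le_of_mul_le_mul_right c4 hζ
  have c6 : 8 * |τ - τ'| ≤ |D| := by
    simp only [D]
    rw [abs_mul, abs_mul, abs_of_pos (by norm_num : (0 : ℝ) < 8),
      abs_of_pos (by positivity : 0 < 1 + τ * τ')]
    have := abs_nonneg (τ - τ')
    have := mul_nonneg h0 h0'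
    nlinarith
  have := abs_nonneg (τ - τ')
  linarith

lemma card_le_of_diam (B : Finset ℕ) (R : ℝ) (hR : 0 ≤ R)
    (h : ∀ a ∈ B, ∀ b ∈ B, |(a : ℝ) - b| ≤ R) : (B.card : ℝ) ≤ R + 1 := by
  rcases B.eq_empty_or_nonempty with rfl | hB
  · simp; linarith
  have hsub : B ⊆ Icc (B.min' hB) (B.min' hB + ⌊R⌋₊) := by
    intro a ha
    rw [mem_Icc]
    refine ⟨B.min'_le a ha, ?_⟩
    have h1 := (abs_le.1 (h a ha _ (B.min'_mem hB))).2
    have h2 : a - B.min' hB ≤ ⌊R⌋₊ := by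
      apply Nat.le_floor
      rw [Nat.cast_sub (B.min'_le a ha)]
      exact h1
    omega
  have h3 := card_le_card hsub
  rw [Nat.card_Icc] at h3
  have h4 : B.card ≤ ⌊R⌋₊ + 1 := by omega
  have h5 := Nat.floor_le hR
  have h6 : (B.card : ℝ) ≤ ⌊R⌋₊ + 1 := by exact_mod_cast h4
  linarith

/-- Decay of the archimedean sums along an arithmetic progression. -/
theorem arch (η : ℝ) (hη : 0 < η) : ∃ A : ℝ, 0 < A ∧ ∀ (τ0 step : ℝ) (S : ℕ) (ζ : ℂ),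
    0 ≤ τ0 → 0 < step → A ≤ ‖ζ‖ → step * ‖ζ‖ ≤ 1 / 8 → 1 / 4 ≤ S * step → τ0 + S * step ≤ 2 →
    ‖∑ s ∈ range S, ee (pair (ur (τ0 + step * s)) ζ)‖ ≤ η * S := by
  set lam : ℝ := η / 64 with hlam
  have hlam0 : 0 < lam := by positivity
  obtain ⟨n, hn⟩ := exists_nat_ge (400 / (lam * η))
  have hn0 : (0 : ℝ) < n := lt_of_lt_of_le (by positivity) hn
  refine ⟨((n : ℝ) ^ 2 + 2 * n + 1) * 2 / η, by positivity, ?_⟩
  intro τ0 step S ζ hτ0 hstep hA hsz hS hS2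
  set A : ℝ := ((n : ℝ) ^ 2 + 2 * n + 1) * 2 / η with hAdef
  have hA0 : 0 < A := by positivity
  have hζ : 0 < ‖ζ‖ := lt_of_lt_of_le hA0 hA
  have hS0 : (0 : ℝ) ≤ S := Nat.cast_nonneg _
  set x : ℝ := 1 / (4 * step * ‖ζ‖) with hx
  have hx2 : 2 ≤ x := by
    rw [hx, le_div_iff₀ (by positivity)]; nlinarith
  set H : ℕ := ⌊x⌋₊ with hH
  have hH1 : (H : ℝ) ≤ x := Nat.floor_le (by linarith)
  have hH2 : x / 2 ≤ H := by
    have := Nat.lt_floor_add_one x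
    linarith
  set h : ℝ := step * H with hh
  have hh0 : 0 ≤ h := by positivity
  have hh1 : h * ‖ζ‖ ≤ 1 / 4 := by
    have : step * x * ‖ζ‖ = 1 / 4 := by rw [hx]; field_simp
    have h2 : step * H * ‖ζ‖ ≤ step * x * ‖ζ‖ := by gcongr
    linarith
  have hh2 : 1 / 8 ≤ h * ‖ζ‖ := by
    have : step * (x / 2) * ‖ζ‖ = 1 / 8 := by rw [hx]; field_simp; norm_num
    have h2 : step * (x / 2) * ‖ζ‖ ≤ step * H * ‖ζ‖ := by gcongr
    linarith
  have hHS : H * ‖ζ‖ ≤ S := by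
    have h1 : step * (H * ‖ζ‖) ≤ step * S := by nlinarith
    exact le_of_mul_le_mul_left h1 hstep
  have hS1 : 2 * ‖ζ‖ ≤ S := by
    have h1 : step * (2 * ‖ζ‖) ≤ step * S := by nlinarith
    exact le_of_mul_le_mul_left h1 hstep
  set F : ℕ → ℂ := fun s => ee (pair (ur (τ0 + step * s)) ζ) with hF
  have hF1 : ∀ s, ‖F s‖ ≤ 1 := fun s => (norm_ee _).le
  have main := avg_shift_le F hF1 S H n
  set bad : ℕ → Prop := fun s =>
    |4 * (τ0 + step * s) * ζ.re + 2 * (1 - (τ0 + step * s) ^ 2) * ζ.im| ≤ lam * ‖ζ‖ with hbad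
  have hτ : ∀ s ∈ range S, 0 ≤ τ0 + step * s ∧ τ0 + step * s ≤ 2 := by
    intro s hs
    have : (s : ℝ) ≤ S := by exact_mod_cast (mem_range.1 hs).le
    constructor
    · positivity
    · nlinarith
  have inner : ∀ s ∈ range S, ‖∑ σ ∈ range n, F (s + H * σ)‖ ≤
      (100 / lam + n ^ 3 / ‖ζ‖) + (if bad s then (n : ℝ) else 0) := by
    intro s hs
    split_ifs with hb
    · have := norm_sum_range_le (fun σ => F (s + H * σ)) (fun σ => hF1 _) n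
      have h1 : 0 ≤ 100 / lam + n ^ 3 / ‖ζ‖ := by positivity
      linarith
    · set τ := τ0 + step * s with hτdef
      have e : ∀ σ : ℕ, F (s + H * σ) = ee (pair (ur (τ + h * σ)) ζ) := by
        intro σ; simp only [hF, hτdef, hh]; congr 3; push_cast; ring
      simp only [e]
      refine (arch_inner τ h ζ n hh0).trans ?_
      obtain ⟨t0, t2⟩ := hτ s hs
      have hκ1 : |pair (-2 * I / (τ - I) ^ 2) ζ| ≤ 2 * ‖ζ‖ := by
        refine (abs_pair_le _ _).trans ?_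
        have h1 := one_le_norm_sub_I τ
        have : ‖-2 * I / (τ - I) ^ 2‖ ≤ 2 := by
          rw [norm_div, norm_mul, norm_pow]
          simp only [norm_neg, Complex.norm_ofNat, Complex.norm_I, mul_one]
          exact div_le_self (by norm_num) (by nlinarith)
        exact mul_le_mul_of_nonneg_right this (norm_nonneg _)
      have hκ2 : lam * ‖ζ‖ / 25 ≤ |pair (-2 * I / (τ - I) ^ 2) ζ| := by
        rw [pair_slope, abs_div, abs_of_pos (by positivity : 0 < (1 + τ ^ 2) ^ 2)]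
        have hb' : lam * ‖ζ‖ ≤ |4 * τ * ζ.re + 2 * (1 - τ ^ 2) * ζ.im| := (not_le.1 hb).le
        have h25 : (1 + τ ^ 2) ^ 2 ≤ 25 := by
          have : 1 + τ ^ 2 ≤ 5 := by nlinarith
          nlinarith [sq_nonneg τ]
        exact div_le_div₀ (abs_nonneg _) hb' (by positivity) h25
      set κ := pair (-2 * I / (τ - I) ^ 2) ζ
      have hk1 : |h * κ| ≤ 1 / 2 := by
        rw [abs_mul, abs_of_nonneg hh0]; nlinarith
      have hk2 : lam / 200 ≤ |h * κ| := by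
        rw [abs_mul, abs_of_nonneg hh0]
        have := mul_le_mul_of_nonneg_left hκ2 hh0
        nlinarith
      have hk3 : h * κ ≠ 0 := by
        intro h0; rw [h0, abs_zero] at hk2; linarith [div_pos hlam0 (by norm_num : (0 : ℝ) < 200)]
      have g1 := norm_geom_le (h * κ) hk1 hk3 n
      have g2 : 1 / (2 * |h * κ|) ≤ 100 / lam := by
        rw [div_le_div_iff₀ (by positivity) hlam0]; linarith
      have g3 : n * (14 * (h * n) ^ 2 * ‖ζ‖) ≤ n ^ 3 / ‖ζ‖ := by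
        rw [le_div_iff₀ hζ]
        have : n * (14 * (h * n) ^ 2 * ‖ζ‖) * ‖ζ‖ = n ^ 3 * (14 * (h * ‖ζ‖) ^ 2) := by ring
        rw [this]
        have h1 : (h * ‖ζ‖) ^ 2 ≤ (1 / 4) ^ 2 := pow_le_pow_left₀ (by positivity) hh1 2
        have h2 : 14 * (h * ‖ζ‖) ^ 2 ≤ 1 := by linarith
        exact mul_le_of_le_one_right (by positivity) h2
      linarith
  have hcard : (((range S).filter bad).card : ℝ) ≤ 4 * lam / step + 1 := by
    apply card_le_of_diam _ _ (by positivity)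
    intro a ha b hb
    rw [mem_filter] at ha hb
    have := bad_close _ _ lam ζ hζ (hτ a ha.1).1 (hτ a ha.1).2 (hτ b hb.1).1 (hτ b hb.1).2 ha.2 hb.2
    have e : τ0 + step * a - (τ0 + step * b) = step * (a - b) := by ring
    rw [e, abs_mul, abs_of_pos hstep] at this
    rw [le_div_iff₀ hstep]; linarith
  have hsum : ∑ s ∈ range S, ‖∑ σ ∈ range n, F (s + H * σ)‖ ≤
      S * (100 / lam + n ^ 3 / ‖ζ‖) + n * (4 * lam / step + 1) := by
    refine (sum_le_sum inner).trans ?_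
    rw [sum_add_distrib, ← sum_filter, sum_const, sum_const, card_range, nsmul_eq_mul,
      nsmul_eq_mul]
    have := mul_le_mul_of_nonneg_left hcard hn0.le
    linarith
  have t1 : 100 / lam ≤ n * (η / 4) := by
    rw [div_le_iff₀ (by positivity)] at hn
    rw [div_le_iff₀ hlam0]; nlinarith
  have t2 : 4 * lam / step ≤ S * (η / 4) := by
    rw [div_le_iff₀ hstep, hlam]; nlinarith
  have hAz : ((n : ℝ) ^ 2 + 2 * n + 1) ≤ η / 2 * ‖ζ‖ := by
    have : A * η = ((n : ℝ) ^ 2 + 2 * n + 1) * 2 := by rw [hAdef]; field_simp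
    nlinarith
  have t3 : S * (n ^ 3 / ‖ζ‖) + n + 2 * H * n ^ 2 ≤ n * (S * (η / 2)) := by
    have a1 : (1 : ℝ) ≤ S / ‖ζ‖ := by rw [le_div_iff₀ hζ]; linarith
    have a2 : (H : ℝ) ≤ S / ‖ζ‖ := by rw [le_div_iff₀ hζ]; linarith
    have a3 : S / ‖ζ‖ * ((n : ℝ) ^ 2 + 2 * n + 1) ≤ S * (η / 2) := by
      calc S / ‖ζ‖ * ((n : ℝ) ^ 2 + 2 * n + 1) ≤ S / ‖ζ‖ * (η / 2 * ‖ζ‖) := by gcongr
        _ = S * (η / 2) := by field_simp
    have a4 : S * (n ^ 3 / ‖ζ‖) = n * (S / ‖ζ‖ * n ^ 2) := by field_simp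
    have a5 : 2 * H * (n : ℝ) ^ 2 ≤ n * (S / ‖ζ‖ * (2 * n)) := by
      have : 2 * H * (n : ℝ) ^ 2 = (2 * n ^ 2) * H := by ring
      rw [this]
      have : (n : ℝ) * (S / ‖ζ‖ * (2 * n)) = (2 * n ^ 2) * (S / ‖ζ‖) := by ring
      rw [this]; gcongr
    have a6 : (n : ℝ) ≤ n * (S / ‖ζ‖) := le_mul_of_one_le_right hn0.le a1
    have a7 := mul_le_mul_of_nonneg_left a3 hn0.le
    rw [a4]
    nlinarith
  have fin : n * ‖∑ s ∈ range S, F s‖ ≤ n * (η * S) := by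
    have b1 := mul_le_mul_of_nonneg_left t1 hS0
    have b2 := mul_le_mul_of_nonneg_left t2 hn0.le
    nlinarith
  exact le_of_mul_le_mul_left fin hn0

end Pool.Agent.P.MP_8b2bd9_co
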