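import Mathlib

/-! Basic objects: the field of Gaussian rationals, its character group, the valuation ring at `2 - i`. -/

set_option autoImplicit false

open Complex MeasureTheory

noncomputable section

namespace Pool.Agent.P.MP_8b2bd9_co

/-- `ee t = exp (2 π i t)`. -/
def ee (t : ℝ) : ℂ := Complex.exp (2 * Real.pi * I * t)

/-- The Euclidean inner product on `ℂ`. -/
def pair (x y : ℂ) : ℝ := (x * (starRingEnd ℂ) y).re

lemma ee_add (s t : ℝ) : ee (s + t) = ee s * ee t := by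
  unfold ee; rw [← Complex.exp_add]; congr 1; push_cast; ring

lemma ee_zero : ee 0 = 1 := by simp [ee]

lemma norm_ee (t : ℝ) : ‖ee t‖ = 1 := by
  unfold ee
  have : (2 * Real.pi * I * t : ℂ) = ((2 * Real.pi * t : ℝ) : ℂ) * I := by push_cast; ring
  rw [this, Complex.norm_exp_ofReal_mul_I]

lemma ee_ne_zero (t : ℝ) : ee t ≠ 0 := Complex.exp_ne_zero _

lemma ee_neg (t : ℝ) : ee (-t) = (ee t)⁻¹ := by
  have h := ee_add t (-t)
  rw [add_neg_cancel, ee_zero] at h
  exact (eq_inv_of_mul_eq_one_right h.symm)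

lemma ee_sub (s t : ℝ) : ee (s - t) = ee s / ee t := by
  rw [sub_eq_add_neg, ee_add, ee_neg, div_eq_mul_inv]

lemma ee_nat_mul (n : ℕ) (t : ℝ) : ee (n * t) = ee t ^ n := by
  induction n with
  | zero => simp [ee_zero]
  | succ n ih => rw [Nat.cast_succ, add_mul, one_mul, ee_add, ih, pow_succ]

lemma ee_eq_one_iff (t : ℝ) : ee t = 1 ↔ ∃ n : ℤ, t = n := by
  unfold ee
  rw [Complex.exp_eq_one_iff]
  constructor
  · rintro ⟨n, hn⟩
    refine ⟨n, ?_⟩
    have h2 : (2 * Real.pi * I : ℂ) ≠ 0 := Complex.two_pi_I_ne_zero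
    have : (t : ℂ) = n := by
      apply mul_left_cancel₀ h2
      rw [hn]; ring
    exact_mod_cast this
  · rintro ⟨n, rfl⟩
    exact ⟨n, by push_cast; ring⟩

lemma ee_int (n : ℤ) : ee n = 1 := (ee_eq_one_iff _).2 ⟨n, rfl⟩

lemma re_ee (t : ℝ) : (ee t).re = Real.cos (2 * Real.pi * t) := by
  unfold ee
  have : (2 * Real.pi * I * t : ℂ) = ((2 * Real.pi * t : ℝ) : ℂ) * I := by push_cast; ring
  rw [this, Complex.exp_ofReal_mul_I_re]

lemma norm_ee_sub_one_le (t : ℝ) : ‖ee t - 1‖ ≤ 7 * |t| := by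
  unfold ee
  have : (2 * Real.pi * I * t : ℂ) = I * ((2 * Real.pi * t : ℝ) : ℂ) := by push_cast; ring
  rw [this]
  have h := Real.norm_exp_I_mul_ofReal_sub_one_le (x := 2 * Real.pi * t)
  refine h.trans ?_
  rw [Real.norm_eq_abs, abs_mul, abs_of_pos (by positivity : (0 : ℝ) < 2 * Real.pi)]
  have := Real.pi_lt_d2
  have h0 := abs_nonneg t
  nlinarith

lemma norm_ee_sub_ee_le (s t : ℝ) : ‖ee s - ee t‖ ≤ 7 * |s - t| := by
  have : ee s - ee t = ee t * (ee (s - t) - 1) := by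
    rw [mul_sub, ← ee_add]; simp
  rw [this, norm_mul, norm_ee, one_mul]
  exact norm_ee_sub_one_le _

lemma le_norm_ee_sub_one (t : ℝ) (ht : |t| ≤ 1 / 2) : 4 * |t| ≤ ‖ee t - 1‖ := by
  unfold ee
  have : (2 * Real.pi * I * t : ℂ) = I * ((2 * Real.pi * t : ℝ) : ℂ) := by push_cast; ring
  rw [this, Complex.norm_exp_I_mul_ofReal_sub_one]
  have h1 : 2 * Real.pi * t / 2 = Real.pi * t := by ring
  rw [h1, Real.norm_eq_abs, abs_mul, abs_two]
  have hpi := Real.pi_pos
  have h2 : |Real.pi * t| ≤ Real.pi / 2 := by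
    rw [abs_mul, abs_of_pos hpi]; nlinarith
  have h3 := Real.mul_abs_le_abs_sin h2
  rw [abs_mul, abs_of_pos hpi] at h3
  have : 2 / Real.pi * (Real.pi * |t|) = 2 * |t| := by field_simp
  linarith

lemma continuous_ee : Continuous ee := by
  unfold ee; fun_prop

lemma pair_add_left (x x' y : ℂ) : pair (x + x') y = pair x y + pair x' y := by
  simp [pair, add_mul]

lemma pair_sub_left (x x' y : ℂ) : pair (x - x') y = pair x y - pair x' y := by
  simp [pair, sub_mul]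

lemma pair_sub_right (x y y' : ℂ) : pair x (y - y') = pair x y - pair x y' := by
  simp [pair, mul_sub]

lemma pair_mul_left (a x y : ℂ) : pair (a * x) y = pair x ((starRingEnd ℂ) a * y) := by
  unfold pair; congr 1; simp only [map_mul, Complex.conj_conj]; ring

lemma pair_real_mul_left (a : ℝ) (x y : ℂ) : pair (a * x) y = a * pair x y := by
  simp [pair, mul_assoc]

lemma pair_real_mul_right (a : ℝ) (x y : ℂ) : pair x (a * y) = a * pair x y := by
  simp [pair]; ring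

lemma pair_eq (x y : ℂ) : pair x y = x.re * y.re + x.im * y.im := by
  simp [pair]

lemma abs_pair_le (x y : ℂ) : |pair x y| ≤ ‖x‖ * ‖y‖ := by
  unfold pair
  refine (Complex.abs_re_le_norm _).trans ?_
  rw [norm_mul, Complex.norm_conj]

/-- The field `ℚ(i)` inside `ℂ`. -/
def KK : Subfield ℂ where
  carrier := {x | ∃ g h : GaussianInt, h ≠ 0 ∧ (h : ℂ) * x = (g : ℂ)}
  mul_mem' := by
    rintro x y ⟨g, h, hh, hx⟩ ⟨g', h', hh', hy⟩
    refine ⟨g * g', h * h', mul_ne_zero hh hh', ?_⟩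
    simp only [map_mul]; rw [← hx, ← hy]; ring
  one_mem' := ⟨1, 1, one_ne_zero, by simp⟩
  add_mem' := by
    rintro x y ⟨g, h, hh, hx⟩ ⟨g', h', hh', hy⟩
    refine ⟨g * h' + g' * h, h * h', mul_ne_zero hh hh', ?_⟩
    simp only [map_mul, map_add]; rw [← hx, ← hy]; ring
  zero_mem' := ⟨0, 1, one_ne_zero, by simp⟩
  neg_mem' := by
    rintro x ⟨g, h, hh, hx⟩
    refine ⟨-g, h, hh, ?_⟩
    simp only [map_neg]; rw [← hx]; ring
  inv_mem' := by
    rintro x ⟨g, h, hh, hx⟩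
    by_cases hx0 : x = 0
    · exact ⟨0, 1, one_ne_zero, by simp [hx0]⟩
    · have hg : g ≠ 0 := by
        rintro rfl
        have : (h : ℂ) = 0 := by simpa [hx0] using hx
        exact hh (GaussianInt.toComplex_eq_zero.1 this)
      refine ⟨h, g, hg, ?_⟩
      rw [← hx]; field_simp

/-- The field `ℚ(i)` as a type. -/
abbrev K : Type := ↥KK

/-- The Gaussian integers inside `K`. -/
def gi : GaussianInt →+* K :=
  RingHom.codRestrict GaussianInt.toComplex KK (fun g => ⟨g, 1, one_ne_zero, by simp⟩)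

@[simp] lemma coe_gi (g : GaussianInt) : ((gi g : K) : ℂ) = (g : ℂ) := rfl

lemma gi_injective : Function.Injective gi := by
  intro a b h
  have : ((gi a : K) : ℂ) = gi b := by rw [h]
  exact GaussianInt.toComplex_inj.1 this

lemma gi_ne_zero {g : GaussianInt} (h : g ≠ 0) : gi g ≠ 0 := by
  intro h0; exact h (gi_injective (by rw [h0, map_zero]))

lemma K_frac (x : K) : ∃ g h : GaussianInt, h ≠ 0 ∧ gi h * x = gi g := by
  obtain ⟨g, h, hh, hx⟩ := x.2
  exact ⟨g, h, hh, Subtype.ext hx⟩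

instance : Countable GaussianInt := by
  have : Function.Injective (fun g : GaussianInt => (g.re, g.im)) := by
    intro a b h
    simp only [Prod.mk.injEq] at h
    exact Zsqrtd.ext h.1 h.2
  exact this.countable

instance : Countable K := by
  have : Function.Surjective (fun p : GaussianInt × GaussianInt => gi p.1 / gi p.2) := by
    intro x
    obtain ⟨g, h, hh, hx⟩ := K_frac x
    refine ⟨(g, h), ?_⟩
    simp only
    rw [← hx]; field_simp [gi_ne_zero hh]
  exact this.countable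

lemma coe_star (z : GaussianInt) : ((star z : GaussianInt) : ℂ) = (starRingEnd ℂ) (z : ℂ) :=
  GaussianInt.toComplex_star z

/-- The norm-one element `z / conj z`. -/
def uz (z : GaussianInt) : K := gi z / gi (star z)

lemma norm_uz {z : GaussianInt} (hz : z ≠ 0) : ‖((uz z : K) : ℂ)‖ = 1 := by
  have h : (z : ℂ) ≠ 0 := fun h => hz (GaussianInt.toComplex_eq_zero.1 h)
  simp only [uz, Subfield.coe_div, coe_gi, coe_star, norm_div, Complex.norm_conj]
  exact div_self (norm_ne_zero_iff.2 h)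

/-- Characters of the discrete additive group `K`, as a set of functions. -/
def OmS : Set (K → ℂ) := {χ | (∀ x, ‖χ x‖ = 1) ∧ ∀ x y, χ (x + y) = χ x * χ y}

/-- The compact dual group of `K`. -/
abbrev Om : Type := ↥OmS

instance : CompactSpace Om := by
  apply isCompact_iff_compactSpace.1
  have h1 : IsCompact (Set.pi Set.univ (fun _ : K => Metric.sphere (0 : ℂ) 1)) :=
    isCompact_univ_pi (fun _ => isCompact_sphere 0 1)
  refine h1.of_isClosed_subset ?_ ?_
  · have : OmS = (⋂ x : K, {χ : K → ℂ | ‖χ x‖ = 1}) ∩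
        (⋂ x : K, ⋂ y : K, {χ : K → ℂ | χ (x + y) = χ x * χ y}) := by
      ext χ; simp [OmS]
    rw [this]
    refine IsClosed.inter (isClosed_iInter fun x => ?_)
      (isClosed_iInter fun x => isClosed_iInter fun y => ?_)
    · exact isClosed_eq (by fun_prop) continuous_const
    · exact isClosed_eq (by fun_prop) (by fun_prop)
  · intro χ hχ x _
    simpa using hχ.1 x

lemma Om.norm (χ : Om) (x : K) : ‖χ.1 x‖ = 1 := χ.2.1 x

lemma Om.add (χ : Om) (x y : K) : χ.1 (x + y) = χ.1 x * χ.1 y := χ.2.2 x y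

lemma Om.ne_zero (χ : Om) (x : K) : χ.1 x ≠ 0 := by
  intro h; have := Om.norm χ x; rw [h] at this; simp at this

lemma Om.zero (χ : Om) : χ.1 0 = 1 := by
  have h := Om.add χ 0 0
  rw [add_zero] at h
  exact (mul_left_cancel₀ (Om.ne_zero χ 0) (by rw [← h, mul_one])).symm

lemma Om.sub (χ : Om) (x y : K) : χ.1 (x - y) = χ.1 x / χ.1 y := by
  rw [eq_div_iff (Om.ne_zero χ y), ← Om.add, sub_add_cancel]

lemma Om.nat_mul (χ : Om) (n : ℕ) (x : K) : χ.1 (n * x) = χ.1 x ^ n := by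
  induction n with
  | zero => simp [Om.zero]
  | succ n ih => rw [Nat.cast_succ, add_mul, one_mul, Om.add, ih, pow_succ]

lemma continuous_ev (x : K) : Continuous (fun χ : Om => χ.1 x) :=
  (continuous_apply x).comp continuous_subtype_val

lemma measurable_ev (x : K) : Measurable (fun χ : Om => χ.1 x) := (continuous_ev x).measurable

/-- Precomposition of a character with multiplication by `w`. -/
def act (w : K) (χ : Om) : Om :=
  ⟨fun x => χ.1 (w * x), fun x => Om.norm χ _, fun x y => by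
    show χ.1 (w * (x + y)) = χ.1 (w * x) * χ.1 (w * y)
    rw [mul_add, Om.add]⟩

@[simp] lemma act_apply (w : K) (χ : Om) (x : K) : (act w χ).1 x = χ.1 (w * x) := rfl

lemma act_act (w w' : K) (χ : Om) : act w (act w' χ) = act (w' * w) χ := by
  apply Subtype.ext; funext x; simp [mul_assoc]

lemma act_one (χ : Om) : act 1 χ = χ := by
  apply Subtype.ext; funext x; simp

lemma continuous_act (w : K) : Continuous (act w) :=
  Continuous.subtype_mk (continuous_pi fun x => continuous_ev (w * x)) _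

lemma measurable_act (w : K) : Measurable (act w) := (continuous_act w).measurable

/-- Invariance of a measure under the norm-one group. -/
def UInv (μ : Measure Om) : Prop := ∀ w : K, ‖(w : ℂ)‖ = 1 → MeasurePreserving (act w) μ μ

/-- The Gaussian prime `2 - i`. -/
def PP : GaussianInt := ⟨2, -1⟩

/-- The Gaussian prime `2 + i`. -/
def PQ : GaussianInt := ⟨2, 1⟩

lemma PP_mul_PQ : PP * PQ = 5 := by decide

lemma star_PP : star PP = PQ := by decide

lemma star_PQ : star PQ = PP := by decide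

lemma PP_ne_zero : PP ≠ 0 := by decide

lemma PQ_ne_zero : PQ ≠ 0 := by decide

lemma PP_dvd_iff (g : GaussianInt) : PP ∣ g ↔ (5 : ℤ) ∣ g.re + 2 * g.im := by
  constructor
  · rintro ⟨h, rfl⟩
    simp only [PP, Zsqrtd.re_mul, Zsqrtd.im_mul]
    exact ⟨h.im, by ring⟩
  · rintro ⟨c, hc⟩
    refine ⟨⟨2 * c - g.im, c⟩, ?_⟩
    apply Zsqrtd.ext <;> simp only [PP, Zsqrtd.re_mul, Zsqrtd.im_mul] <;> linarith

lemma PP_prime : Prime PP := by
  refine ⟨PP_ne_zero, ?_, ?_⟩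
  · intro h
    have := (PP_dvd_iff 1).1 h.dvd
    simp at this
  · intro a b hab
    rw [PP_dvd_iff] at hab ⊢
    rw [PP_dvd_iff]
    have h5 : Prime (5 : ℤ) := Int.prime_iff_natAbs_prime.2 (by norm_num)
    apply h5.dvd_or_dvd
    simp only [Zsqrtd.re_mul, Zsqrtd.im_mul] at hab
    obtain ⟨c, hc⟩ := hab
    exact ⟨c + a.im * b.im, by linarith⟩

lemma not_PP_dvd_PQ : ¬ PP ∣ PQ := by
  rw [PP_dvd_iff]; decide

lemma exists_nat_mod_PP (g h : GaussianInt) (hh : ¬ PP ∣ h) : ∃ c : ℕ, PP ∣ g - c * h := by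
  rw [PP_dvd_iff] at hh
  have : ∃ c : ℕ, (5 : ℤ) ∣ (g.re + 2 * g.im) - c * (h.re + 2 * h.im) := by
    generalize g.re + 2 * g.im = a
    generalize h.re + 2 * h.im = b at hh
    have h1 : b % 5 = 1 ∨ b % 5 = 2 ∨ b % 5 = 3 ∨ b % 5 = 4 := by omega
    have key : ∀ k : ℕ, (5 : ℤ) ∣ 1 - k * b → ∃ c : ℕ, (5 : ℤ) ∣ a - c * b := by
      intro k hk
      refine ⟨k * (a % 5).toNat, ?_⟩
      have h0 : (((a % 5).toNat : ℕ) : ℤ) = a % 5 := Int.toNat_of_nonneg (by omega)
      push_cast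
      rw [h0]
      have e : a - k * (a % 5) * b = (a - a % 5) + (a % 5) * (1 - k * b) := by ring
      rw [e]
      exact dvd_add (by omega) (Dvd.dvd.mul_left hk _)
    rcases h1 with h1 | h1 | h1 | h1
    · exact key 1 (by push_cast; omega)
    · exact key 3 (by push_cast; omega)
    · exact key 2 (by push_cast; omega)
    · exact key 4 (by push_cast; omega)
  obtain ⟨c, hc⟩ := this
  refine ⟨c, ?_⟩
  rw [PP_dvd_iff]
  simp only [Zsqrtd.re_sub, Zsqrtd.im_sub, Zsqrtd.re_mul, Zsqrtd.im_mul, Zsqrtd.re_natCast,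
    Zsqrtd.im_natCast]
  convert hc using 1
  ring

/-- The valuation ring of `K` at the prime `2 - i`. -/
def A0 : Subring K where
  carrier := {x | ∃ g h : GaussianInt, ¬ PP ∣ h ∧ gi h * x = gi g}
  mul_mem' := by
    rintro x y ⟨g, h, hh, hx⟩ ⟨g', h', hh', hy⟩
    refine ⟨g * g', h * h', fun hd => (PP_prime.dvd_or_dvd hd).elim hh hh', ?_⟩
    simp only [map_mul]; rw [← hx, ← hy]; ring
  one_mem' := ⟨1, 1, PP_prime.not_dvd_one, by simp⟩
  add_mem' := by
    rintro x y ⟨g, h, hh, hx⟩ ⟨g', h', hh', hy⟩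
    refine ⟨g * h' + g' * h, h * h', fun hd => (PP_prime.dvd_or_dvd hd).elim hh hh', ?_⟩
    simp only [map_mul, map_add]; rw [← hx, ← hy]; ring
  zero_mem' := ⟨0, 1, PP_prime.not_dvd_one, by simp⟩
  neg_mem' := by
    rintro x ⟨g, h, hh, hx⟩
    refine ⟨-g, h, hh, ?_⟩
    simp only [map_neg]; rw [← hx]; ring

lemma gi_mem_A0 (g : GaussianInt) : gi g ∈ A0 := ⟨g, 1, PP_prime.not_dvd_one, by simp⟩

lemma inv_gi_mem_A0 {h : GaussianInt} (hh : ¬ PP ∣ h) : (gi h)⁻¹ ∈ A0 := by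
  have h0 : h ≠ 0 := by rintro rfl; exact hh (dvd_zero _)
  exact ⟨1, h, hh, by rw [mul_inv_cancel₀ (gi_ne_zero h0), map_one]⟩

/-- The norm-one element `(2 + i) / (2 - i)`. -/
def uu : K := uz PQ

lemma uu_eq : uu = gi PQ / gi PP := by rw [uu, uz, star_PQ]

lemma norm_uu : ‖((uu : K) : ℂ)‖ = 1 := norm_uz PQ_ne_zero

lemma uu_ne_zero : uu ≠ 0 := by
  rw [uu_eq]; exact div_ne_zero (gi_ne_zero PQ_ne_zero) (gi_ne_zero PP_ne_zero)

lemma gi_five : gi PP * gi PQ = 5 := by rw [← map_mul, PP_mul_PQ]; simp [map_ofNat]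

lemma five_mul_uu : 5 * uu = gi PQ ^ 2 := by
  rw [uu_eq, ← gi_five]; field_simp [gi_ne_zero PP_ne_zero]

lemma inv_uu_mem_A0 : uu⁻¹ ∈ A0 := by
  rw [uu_eq, inv_div, div_eq_mul_inv]
  exact A0.mul_mem (gi_mem_A0 _) (inv_gi_mem_A0 not_PP_dvd_PQ)

lemma A0_mod_five (y : K) (hy : y ∈ A0) : ∃ c : ℕ, ∃ y' ∈ A0, y = c + 5 * y' := by
  obtain ⟨g, h, hh, hx⟩ := hy
  obtain ⟨c, g', hg'⟩ := exists_nat_mod_PP g h hh
  have h0 : h ≠ 0 := by rintro rfl; exact hh (dvd_zero _)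
  refine ⟨c, gi g' * (gi h)⁻¹ * (gi PQ)⁻¹, A0.mul_mem (A0.mul_mem (gi_mem_A0 _)
    (inv_gi_mem_A0 hh)) (inv_gi_mem_A0 not_PP_dvd_PQ), ?_⟩
  have e : gi g - c * gi h = gi PP * gi g' := by
    have := congrArg gi hg'
    simpa using this
  have h1 := gi_ne_zero h0
  have h2 := gi_ne_zero PQ_ne_zero
  rw [← gi_five]
  field_simp
  rw [mul_comm y, hx]
  linear_combination e

lemma A0_mod_five_pow (s : ℕ) (y : K) (hy : y ∈ A0) :
    ∃ c : ℕ, ∃ y' ∈ A0, y = c + 5 ^ s * y' := by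
  induction s generalizing y with
  | zero => exact ⟨0, y, hy, by simp⟩
  | succ s ih =>
    obtain ⟨c, y1, hy1, rfl⟩ := A0_mod_five y hy
    obtain ⟨c', y2, hy2, rfl⟩ := ih y1 hy1
    exact ⟨c + 5 * c', y2, hy2, by push_cast; ring⟩

lemma five_pow_mul_uu_pow_mem (s : ℕ) : (5 : K) ^ s * uu ^ s ∈ A0 := by
  rw [← mul_pow, five_mul_uu]
  exact A0.pow_mem (A0.pow_mem (gi_mem_A0 _) _) _

/-- `A_s = A_0 + ℕ u ^ s`. -/
lemma exists_nat_sub_mem (s : ℕ) (x : K) (hx : (uu⁻¹) ^ s * x ∈ A0) :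
    ∃ c : ℕ, ∃ f ∈ A0, x = c * uu ^ s + f := by
  obtain ⟨c, y', hy', h⟩ := A0_mod_five_pow s _ hx
  refine ⟨c, 5 ^ s * uu ^ s * y', A0.mul_mem (five_pow_mul_uu_pow_mem s) hy', ?_⟩
  have hu : uu ^ s * (uu⁻¹) ^ s = 1 := by rw [← mul_pow, mul_inv_cancel₀ uu_ne_zero, one_pow]
  calc x = uu ^ s * ((uu⁻¹) ^ s * x) := by rw [← mul_assoc, hu, one_mul]
    _ = _ := by rw [h]; ring

/-- Every nonzero element is a power of `u` times a unit of `A0`. -/
lemma exists_zpow_mul_unit (x : K) (hx : x ≠ 0) :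
    ∃ j : ℤ, ∃ y : K, y ∈ A0 ∧ y⁻¹ ∈ A0 ∧ y ≠ 0 ∧ x = uu ^ j * y := by
  obtain ⟨g, h, hh, hgh⟩ := K_frac x
  have hg : g ≠ 0 := by
    rintro rfl
    rw [map_zero] at hgh
    exact (mul_ne_zero (gi_ne_zero hh) hx) hgh
  obtain ⟨a, g', hg', rfl⟩ := WfDvdMonoid.max_power_factor hg PP_prime.irreducible
  obtain ⟨b, h', hh', rfl⟩ := WfDvdMonoid.max_power_factor hh PP_prime.irreducible
  have hg0 : g' ≠ 0 := by rintro rfl; exact hg' (dvd_zero _)
  have hh0 : h' ≠ 0 := by rintro rfl; exact hh' (dvd_zero _)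
  have hP := gi_ne_zero PP_ne_zero
  have hQ := gi_ne_zero PQ_ne_zero
  have hg1 := gi_ne_zero hg0
  have hh1 := gi_ne_zero hh0
  have hQa : ∀ n : ℕ, ¬ PP ∣ PQ ^ n := fun n hd => not_PP_dvd_PQ (PP_prime.dvd_of_dvd_pow hd)
  refine ⟨(b : ℤ) - a, gi g' * gi (PQ ^ a) * (gi h')⁻¹ * (gi (PQ ^ b))⁻¹, ?_, ?_, ?_, ?_⟩
  · exact A0.mul_mem (A0.mul_mem (A0.mul_mem (gi_mem_A0 _) (gi_mem_A0 _)) (inv_gi_mem_A0 hh'))
      (inv_gi_mem_A0 (hQa b))
  · simp only [mul_inv, inv_inv]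
    exact A0.mul_mem (A0.mul_mem (A0.mul_mem (inv_gi_mem_A0 hg') (inv_gi_mem_A0 (hQa a)))
      (gi_mem_A0 _)) (gi_mem_A0 _)
  · simp only [map_pow]
    exact mul_ne_zero (mul_ne_zero (mul_ne_zero hg1 (pow_ne_zero _ hQ)) (inv_ne_zero hh1))
      (inv_ne_zero (pow_ne_zero _ hQ))
  · simp only [map_mul, map_pow] at hgh ⊢
    rw [zpow_sub₀ uu_ne_zero, zpow_natCast, zpow_natCast, uu_eq]
    have : x = gi PP ^ a * gi g' / (gi PP ^ b * gi h') := by
      rw [← hgh]; field_simp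
    rw [this, div_pow, div_pow]
    field_simp

lemma mem_A0_or_inv (x : K) : x ∈ A0 ∨ x⁻¹ ∈ A0 := by
  by_cases hx : x = 0
  · left; rw [hx]; exact A0.zero_mem
  obtain ⟨j, y, hy, hy', hy0, rfl⟩ := exists_zpow_mul_unit x hx
  obtain ⟨n, rfl | rfl⟩ := j.eq_nat_or_neg
  · right
    rw [mul_inv, zpow_natCast, ← inv_pow]
    exact A0.mul_mem (A0.pow_mem inv_uu_mem_A0 _) hy'
  · left
    rw [zpow_neg, zpow_natCast, ← inv_pow]
    exact A0.mul_mem (A0.pow_mem inv_uu_mem_A0 _) hy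

lemma exists_level (x : K) : ∃ s : ℕ, (uu⁻¹) ^ s * x ∈ A0 := by
  by_cases hx : x = 0
  · exact ⟨0, by rw [hx, mul_zero]; exact A0.zero_mem⟩
  obtain ⟨j, y, hy, hy', hy0, rfl⟩ := exists_zpow_mul_unit x hx
  obtain ⟨n, rfl | rfl⟩ := j.eq_nat_or_neg
  · refine ⟨n, ?_⟩
    rw [zpow_natCast, ← mul_assoc, ← mul_pow, inv_mul_cancel₀ uu_ne_zero, one_pow, one_mul]
    exact hy
  · refine ⟨0, ?_⟩
    rw [zpow_neg, zpow_natCast, ← inv_pow, pow_zero, one_mul]
    exact A0.mul_mem (A0.pow_mem inv_uu_mem_A0 _) hy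

lemma isCoprime_PQ_PP : IsCoprime PQ PP := by
  refine ⟨⟨2, 1⟩, ⟨0, -2⟩, ?_⟩
  decide

/-- Every residue class of `A_s / A_0` meets the orbit of a nonzero element under the norm-one
group. -/
lemma exists_rot (a : K) (ha : a ≠ 0) (s : ℕ) (hs : 1 ≤ s) (c : ℕ) :
    ∃ w : K, ‖(w : ℂ)‖ = 1 ∧ ∃ f ∈ A0, w * a = c * uu ^ s + f := by
  obtain ⟨j, y, hy, hy', hy0, rfl⟩ := exists_zpow_mul_unit a ha
  obtain ⟨c', y', hy'', hc'⟩ := A0_mod_five_pow s (c * y⁻¹)
    (A0.mul_mem (natCast_mem A0 c) hy')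
  obtain ⟨α, β, hαβ⟩ : IsCoprime (PQ ^ s) (PP ^ s) := isCoprime_PQ_PP.pow
  have hst : star α * PP ^ s + star β * PQ ^ s = 1 := by
    have := congrArg star hαβ
    simpa [star_PP, star_PQ, mul_comm] using this
  set z : GaussianInt := c' * (α * PQ ^ s) + β * PP ^ s with hz
  have hsz : star z = 1 + (c' * star α - star α) * PP ^ s := by
    have : star z = c' * (star α * PP ^ s) + star β * PQ ^ s := by
      simp [hz, star_PP, star_PQ, mul_comm]
    rw [this]; linear_combination hst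
  have hnd : ¬ PP ∣ star z := by
    intro hd
    rw [hsz] at hd
    have h1 : PP ∣ (c' * star α - star α) * PP ^ s :=
      Dvd.dvd.mul_left (dvd_pow_self _ (by omega)) _
    exact PP_prime.not_dvd_one ((dvd_add_left h1).1 hd)
  have hz0 : z ≠ 0 := by
    intro h0; apply hnd; rw [h0]; simp
  have hsz0 : star z ≠ 0 := by intro h0; apply hnd; rw [h0]; simp
  have hdiff : z - c' * star z = (β - c' * β - c' * (c' * star α - star α)) * PP ^ s := by
    rw [hsz, hz]; linear_combination (c' : GaussianInt) * hαβ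
  refine ⟨uu ^ ((s : ℤ) - j) * uz z, ?_, ?_⟩
  · simp only [Subfield.coe_mul, norm_mul, norm_uz hz0, mul_one]
    have : ((uu ^ ((s : ℤ) - j) : K) : ℂ) = (uu : ℂ) ^ ((s : ℤ) - j) :=
      map_zpow₀ KK.subtype uu _
    rw [this, norm_zpow, norm_uu, one_zpow]
  · refine ⟨y * (gi (β - c' * β - c' * (c' * star α - star α)) * gi PQ ^ s * (gi (star z))⁻¹
      - 5 ^ s * uu ^ s * y'), ?_, ?_⟩
    · refine A0.mul_mem hy (A0.sub_mem ?_ (A0.mul_mem (five_pow_mul_uu_pow_mem s) hy''))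
      exact A0.mul_mem (A0.mul_mem (gi_mem_A0 _) (A0.pow_mem (gi_mem_A0 _) _)) (inv_gi_mem_A0 hnd)
    · have h1 : uu ^ ((s : ℤ) - j) * uz z * (uu ^ j * y) = uu ^ s * (uz z * y) := by
        rw [zpow_sub₀ uu_ne_zero, zpow_natCast]
        field_simp [zpow_ne_zero j uu_ne_zero]
      have h2 : (c : K) = (c' + 5 ^ s * y') * y := by
        rw [← hc']; field_simp
      have h3 : gi z - c' * gi (star z) =
          gi (β - c' * β - c' * (c' * star α - star α)) * gi PP ^ s := by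
        have := congrArg gi hdiff
        simpa only [map_sub, map_mul, map_natCast, map_pow] using this
      have h4 : uu ^ s * gi PP ^ s = gi PQ ^ s := by
        rw [← mul_pow, uu_eq, div_mul_cancel₀ _ (gi_ne_zero PP_ne_zero)]
      have h5 := gi_ne_zero hsz0
      rw [h1, h2, uz, ← h4]
      generalize gi (β - c' * β - c' * (c' * star α - star α)) = G at h3 ⊢
      field_simp
      linear_combination (uu ^ s) * h3

end Pool.Agent.P.MP_8b2bd9_co
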