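import Pool.Agent.P.MP_8b2bd9_co.Model

/-! The pointwise inequality for nearly torsion characters. -/

set_option autoImplicit false

open Complex Finset

noncomputable section

namespace Pool.Agent.P.MP_8b2bd9_co

/-- The inequality for the model sums. -/
lemma model_core {η A : ℝ} {L : ℕ} (hη : 0 < η) (hη1 : η ≤ 1) (hA : ArchProp η A)
    (hL : LocProp η L) (r j b m q T : ℕ) (hMN : L.factorial ≤ 5 ^ j)
    (hAN : A * L.factorial ≤ η * 5 ^ j) (hq0 : 0 < q) (hm0 : 0 < m) (hq5 : q.Coprime 5)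
    (hb : b.Coprime q) {ρ : AddChar GaussianInt ℂ} (hρ : ∀ g, ‖ρ g‖ = 1) (hq : Kills ρ q)
    (c : ℕ → ℤ) (hc : ∀ t, (Nt b t).Coprime q → (q : ℤ) ∣ c t * Nt b t - 1) (ξ : ℂ)
    (h14 : 14 * (m * q) * ((5 ^ j) ^ r * ‖ξ‖) ≤ η * b) (h4 : 4 * (m * q) ≤ b) (hT : T ≤ b)
    (hT2 : b ≤ 2 * T) (hW : (m * q : ℝ) ≤ η * cnt b m T)
    (hsieve : (cnt b m T : ℝ) ≤ cnt b (m * q) T + η * cnt b m T) :
    -(2 ^ r * (20 * η * cnt b m T)) ≤ cnt b m T + ∑ i ∈ range r, 2 ^ i *
      (∑ t ∈ range T, Fm b (m * q) (ρ.mulShift (((5 ^ j) ^ i * L.factorial ^ (r - i) : ℕ) :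
        GaussianInt)) c ((((5 ^ j) ^ i * L.factorial ^ (r - i) : ℕ) : ℂ) * ξ) t).re := by
  set M := L.factorial with hM
  set N := 5 ^ j with hN
  have hM0 : 0 < M := Nat.factorial_pos L
  have hN0 : 0 < N := by positivity
  have hb0 : 0 < b := by
    have := Nat.mul_pos hm0 hq0
    omega
  set d : ℕ → ℕ := fun i => N ^ i * M ^ (r - i) with hd
  have hρi : ∀ i g, ‖ρ.mulShift ((d i : ℕ) : GaussianInt) g‖ = 1 := by
    intro i g; rw [AddChar.mulShift_apply, hρ]
  have hqi : ∀ i, Kills (ρ.mulShift ((d i : ℕ) : GaussianInt)) q := by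
    intro i g; rw [AddChar.mulShift_apply, ← hq (d i * g)]; congr 1; ring
  have hdle : ∀ i < r, (d i : ℝ) ≤ (5 ^ j) ^ r := by
    intro i hi
    have : d i ≤ N ^ r := by
      calc d i = N ^ i * M ^ (r - i) := rfl
        _ ≤ N ^ i * N ^ (r - i) := Nat.mul_le_mul_left _ (Nat.pow_le_pow_left hMN _)
        _ = N ^ r := by rw [← pow_add]; congr 1; omega
    exact_mod_cast this
  have hζ : ∀ i < r, 14 * (m * q) * ‖(d i : ℂ) * ξ‖ ≤ η * b := by
    intro i hi
    refine le_trans ?_ h14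
    rw [norm_mul, Complex.norm_natCast]
    have := hdle i hi
    gcongr
  have hW0 : (0 : ℝ) ≤ cnt b m T := Nat.cast_nonneg _
  have hWq : (cnt b (m * q) T : ℝ) ≤ cnt b m T := by
    exact_mod_cast cnt_dvd b T (Dvd.intro _ rfl)
  have hre : ∀ z : ℂ, -‖z‖ ≤ z.re := fun z => (abs_le.1 (Complex.abs_re_le_norm z)).1
  have hηW : η * cnt b m T ≤ cnt b m T := mul_le_of_le_one_left hW0 hη1
  have hηW0 : 0 ≤ η * cnt b m T := mul_nonneg hη.le hW0
  have hηWq : η * cnt b (m * q) T ≤ η * cnt b m T := mul_le_mul_of_nonneg_left hWq hη.le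
  refine comb r (fun i => (∑ t ∈ range T, Fm b (m * q) (ρ.mulShift ((d i : ℕ) : GaussianInt)) c
    ((d i : ℂ) * ξ) t).re) _ (20 * η) hW0 (by positivity)
    (fun i => Kills (ρ.mulShift ((d i : ℕ) : GaussianInt)) M ∧ ‖(d i : ℂ) * ξ‖ < A) ?_ ?_ ?_
  · intro i _
    have := norm_sum_Fm_le b (m * q) T (hρi i) c ((d i : ℂ) * ξ)
    have := hre (∑ t ∈ range T, Fm b (m * q) (ρ.mulShift ((d i : ℕ) : GaussianInt)) c
      ((d i : ℂ) * ξ) t)
    linarith
  · intro i hi hp
    refine le_trans ?_ (hre _)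
    rw [neg_le_neg_iff]
    by_cases hK : Kills (ρ.mulShift ((d i : ℕ) : GaussianInt)) M
    · have hAi : A ≤ ‖(d i : ℂ) * ξ‖ := not_lt.1 fun h => hp ⟨hK, h⟩
      have h8 : 8 * ((m * q : ℕ) : ℝ) * ‖(d i : ℂ) * ξ‖ ≤ b := by
        have h1 := hζ i hi
        have h2 : η * b ≤ b := mul_le_of_le_one_left (Nat.cast_nonneg _) hη1
        have h3 : (0 : ℝ) ≤ (m * q) * ‖(d i : ℂ) * ξ‖ := by positivity
        push_cast
        linarith
      have := arch_sum hη.le hA b (m * q) q T (hρi i) (hqi i) (Dvd.intro_left _ rfl)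
        (Nat.mul_pos hm0 hq0) c hc _ hAi h8 h4 hT hT2
      push_cast at this
      linarith
    · have := fin_sum hη.le hL b m q T (hρi i) (hqi i) hq0 hm0 hK hb hb0 c hc _ η (hζ i hi)
      have h1 : (cnt b (m * q) T : ℝ) + 2 * (m * q) ≤ 3 * cnt b m T := by linarith
      have h2 := mul_le_mul_of_nonneg_left h1 (by positivity : 0 ≤ 3 * (η + η))
      linarith
  · intro i hi hp i' hi'
    obtain ⟨s, rfl⟩ := Nat.exists_eq_add_of_lt hi'
    have hdd : d i' * N ^ (s + 1) = d (i' + s + 1) * M ^ (s + 1) := by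
      simp only [hd]
      rw [show r - i' = r - (i' + s + 1) + (s + 1) by omega]
      ring
    have hK : Kills (ρ.mulShift ((d i' : ℕ) : GaussianInt)) (N ^ (s + 1)) := by
      intro g
      have := hp.1 (M ^ s * g)
      rw [AddChar.mulShift_apply] at this ⊢
      rw [← this]
      congr 1
      have := congrArg (fun x : ℕ => (x : GaussianInt)) hdd
      push_cast at this ⊢
      linear_combination g * this
    have htriv := (hqi i').of_coprime hK
      (Nat.Coprime.pow_left _ (Nat.Coprime.pow_left _ hq5.symm))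
    have hsmall : ‖(d i' : ℂ) * ξ‖ ≤ η := by
      have h1 := hp.2
      rw [norm_mul, Complex.norm_natCast] at h1 ⊢
      have h2 : (d i' : ℝ) * N ^ (s + 1) = d (i' + s + 1) * M ^ (s + 1) := by exact_mod_cast hdd
      have h3 : (M : ℝ) ^ s ≤ N ^ s := by
        exact_mod_cast Nat.pow_le_pow_left hMN s
      have hM0' : (0 : ℝ) < M := by exact_mod_cast hM0
      have hN0' : (0 : ℝ) < N := by exact_mod_cast hN0
      have hAN' : A * M ≤ η * N := by rw [hN]; push_cast; exact hAN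
      have h5 : (d i' : ℝ) * ‖ξ‖ * N ^ (s + 1) ≤ η * N ^ (s + 1) := by
        calc (d i' : ℝ) * ‖ξ‖ * N ^ (s + 1) = (d (i' + s + 1) * ‖ξ‖) * M * M ^ s := by
              linear_combination ‖ξ‖ * h2
          _ ≤ A * M * M ^ s := by gcongr
          _ ≤ η * N * N ^ s := by gcongr
          _ = η * N ^ (s + 1) := by ring
      exact le_of_mul_le_mul_right h5 (by positivity)
    have h6 := re_sum_Fm_ge b (m * q) T htriv c ((d i' : ℂ) * ξ)
    have h7 : (0 : ℝ) ≤ cnt b (m * q) T := Nat.cast_nonneg _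
    have h8 := mul_le_mul_of_nonneg_right hsmall h7
    linarith

open Classical in
/-- The pointwise inequality. -/
theorem model (r : ℕ) (η : ℝ) (hη : 0 < η) (hη1 : η ≤ 1) :
    ∃ d : ℕ → ℕ, (∀ i, 0 < d i) ∧ ∃ E C : ℕ, ∀ k Q : ℕ, 1 ≤ Q → C * Q ^ E ≤ 5 ^ k →
      ∃ (W : Finset ℕ) (b : ℕ), W.Nonempty ∧ 0 < b ∧
        (∀ q, 0 < q → q ≤ Q → q.Coprime 5 →
          ((W.filter fun t => ¬ (Nt b t).Coprime q).card : ℝ) ≤ η * W.card) ∧
        ∀ χ, GoodT k Q 1 χ →
          -(2 ^ r * (22 * η * W.card + 2 *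
            (W.filter fun t => ¬ GoodT k Q (Nt b t) (act (uz (zt b t)) χ)).card)) ≤
          ∑ t ∈ W, Psi r d (act (uz (zt b t)) χ) := by
  obtain ⟨A, hA0, hA⟩ := arch η hη
  obtain ⟨L, hL⟩ := loc η hη
  obtain ⟨E0, hE0⟩ := exists_nat_ge (1 / η)
  have hE1 : 1 ≤ η * E0 := by rwa [div_le_iff₀ hη, mul_comm] at hE0
  have hE0pos : 0 < E0 := by
    rcases Nat.eq_zero_or_pos E0 with h | h
    · rw [h] at hE1; norm_num at hE1
    · exact h
  obtain ⟨j, hj⟩ := pow_unbounded_of_one_lt (L.factorial + A * L.factorial / η : ℝ)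
    (by norm_num : (1 : ℝ) < 5)
  have hM0 : (0 : ℝ) < L.factorial := by exact_mod_cast Nat.factorial_pos L
  have hMN : L.factorial ≤ 5 ^ j := by
    have : (L.factorial : ℝ) ≤ 5 ^ j := by
      have : 0 ≤ A * L.factorial / η := by positivity
      linarith
    exact_mod_cast this
  have hAN : A * L.factorial ≤ η * 5 ^ j := by
    have : A * L.factorial / η ≤ 5 ^ j := by linarith
    rwa [div_le_iff₀ hη, mul_comm _ η] at this
  refine ⟨fun i => (5 ^ j) ^ i * L.factorial ^ (r - i), fun i => by positivity,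
    16 * E0 + 5, 320 * E0 * (5 ^ j) ^ r + 1, ?_⟩
  intro k Q hQ hQk
  obtain ⟨m, hm0, hm4, hm5, hmP⟩ := exists_m (4 * E0 * Nat.log 2 Q)
  have hmQ : m ≤ Q ^ (8 * E0) := by
    refine hm4.trans ?_
    have h1 : 2 ^ Nat.log 2 Q ≤ Q := Nat.pow_log_le_self 2 (by omega)
    calc 4 ^ (4 * E0 * Nat.log 2 Q) = (2 ^ Nat.log 2 Q) ^ (8 * E0) := by
          rw [show 4 = 2 ^ 2 by norm_num, ← pow_mul, ← pow_mul]; congr 1; ring
      _ ≤ Q ^ (8 * E0) := Nat.pow_le_pow_left h1 _
  set D := (5 ^ j) ^ r with hD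
  have hD0 : 0 < D := by positivity
  set X := 16 * E0 * D * Q ^ (16 * E0 + 2) with hX
  have hX0 : 0 < X := by positivity
  set b := 5 ^ (Nat.log 5 X + 1) with hb
  have hXb : X ≤ b := (Nat.lt_pow_succ_log_self (by norm_num) X).le
  have hbX : b ≤ 5 * X := by
    rw [hb, pow_succ, mul_comm]
    exact Nat.mul_le_mul_left _ (Nat.pow_log_le_self 5 hX0.ne')
  have hb0 : 0 < b := by positivity
  have hbig : 16 * E0 * D * (m * Q) ^ 2 ≤ b := by
    refine le_trans ?_ hXb
    rw [hX, mul_pow, pow_add]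
    refine Nat.mul_le_mul_left _ (Nat.mul_le_mul_right _ ?_)
    calc m ^ 2 ≤ (Q ^ (8 * E0)) ^ 2 := Nat.pow_le_pow_left hmQ 2
      _ = Q ^ (16 * E0) := by rw [← pow_mul]; congr 1; ring
  have hsz : 20 * Q ^ 3 * X < 5 ^ k := by
    refine lt_of_lt_of_le ?_ hQk
    have : 0 < Q ^ (16 * E0 + 5) := by positivity
    rw [hX, add_mul, one_mul]
    have e : 20 * Q ^ 3 * (16 * E0 * D * Q ^ (16 * E0 + 2)) = 320 * E0 * D * Q ^ (16 * E0 + 5) := by
      ring
    omega
  have hQ5 : Q ≤ 5 ^ k := by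
    refine le_trans ?_ hsz.le
    calc Q = 1 * Q ^ 1 * 1 := by ring
      _ ≤ 20 * Q ^ 3 * X := by
        gcongr
        · norm_num
        · norm_num
        · exact hX0
  set S := b / m with hS
  have hT : m * S ≤ b := Nat.mul_div_le b m
  have hT1 : b < m * S + m := by
    have := Nat.div_add_mod b m
    have := Nat.mod_lt b hm0
    rw [hS]; omega
  have hmQ1 : m * 1 ≤ m * Q := Nat.mul_le_mul_left m hQ
  have hbig1 : 16 * E0 * (m * Q) ^ 2 ≤ b := by
    refine le_trans ?_ hbig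
    exact Nat.mul_le_mul_right _ (Nat.le_mul_of_pos_right _ hD0)
  have hbig2 : 16 * (m * Q) ≤ b := by
    refine le_trans ?_ hbig1
    have h1 : m * Q ≤ (m * Q) ^ 2 := Nat.le_self_pow (by norm_num) _
    calc 16 * (m * Q) ≤ 16 * 1 * (m * Q) ^ 2 := by omega
      _ ≤ 16 * E0 * (m * Q) ^ 2 := by gcongr; exact hE0pos
  have hT2 : b ≤ 2 * (m * S) := by omega
  have hS1 : 8 * E0 * (m * Q) ≤ S := by
    have h1 : m * (8 * E0 * (m * Q)) ≤ m * S := by
      have h2 : m * (8 * E0 * (m * Q)) * 1 ≤ m * (8 * E0 * (m * Q)) * Q :=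
        Nat.mul_le_mul_left _ hQ
      have h3 : m * (8 * E0 * (m * Q)) * Q * 2 = 16 * E0 * (m * Q) ^ 2 := by ring
      omega
    exact Nat.le_of_mul_le_mul_left h1 hm0
  have hcm : 0 < cnt b m m := by
    refine card_pos.2 ⟨0, mem_filter.2 ⟨mem_range.2 hm0, ?_⟩⟩
    simp only [Nt, ne_eq, OfNat.ofNat_ne_zero, not_false_eq_true, zero_pow, zero_add]
    exact Nat.Coprime.pow_left _ (Nat.Coprime.pow_left _ hm5.symm)
  have hWS : cnt b m (m * S) = cnt b m m * S := cnt_mul b m S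
  have hSpos : 0 < S := by
    have : 0 < 8 * E0 * (m * Q) := by positivity
    omega
  have hsieve : ∀ q, 0 < q → q ≤ Q → q.Coprime 5 →
      (cnt b m (m * S) : ℝ) ≤ cnt b (m * q) (m * S) + η * cnt b m (m * S) := by
    intro q hq0 hqQ hq5
    have h1 := sieve b m S q Q _ hq0 hqQ hq5 hmP
    have h2 : E0 * (Nat.log 2 Q * (2 * (S / (4 * E0 * Nat.log 2 Q + 1) + 1))) ≤ S := by
      have a1 := Nat.div_mul_le_self S (4 * E0 * Nat.log 2 Q + 1)
      have a2 : Nat.log 2 Q ≤ Q := Nat.log_le_self 2 Q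
      have a3 : E0 * Nat.log 2 Q ≤ E0 * (m * Q) :=
        Nat.mul_le_mul_left _ (a2.trans (Nat.le_mul_of_pos_left _ hm0))
      generalize S / (4 * E0 * Nat.log 2 Q + 1) = y at *
      generalize Nat.log 2 Q = lam at *
      nlinarith
    have h3 : ((Nat.log 2 Q * (cnt b m m * (2 * (S / (4 * E0 * Nat.log 2 Q + 1) + 1))) : ℕ) : ℝ)
        ≤ η * cnt b m (m * S) := by
      rw [hWS]
      have a1 : (E0 : ℝ) * ((Nat.log 2 Q * (2 * (S / (4 * E0 * Nat.log 2 Q + 1) + 1)) : ℕ) : ℝ)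
          ≤ S := by exact_mod_cast h2
      have e : Nat.log 2 Q * (cnt b m m * (2 * (S / (4 * E0 * Nat.log 2 Q + 1) + 1))) =
          cnt b m m * (Nat.log 2 Q * (2 * (S / (4 * E0 * Nat.log 2 Q + 1) + 1))) := by ring
      rw [e, Nat.cast_mul, Nat.cast_mul (cnt b m m) S]
      generalize ((Nat.log 2 Q * (2 * (S / (4 * E0 * Nat.log 2 Q + 1) + 1)) : ℕ) : ℝ) = y at *
      have a2 : (0 : ℝ) ≤ cnt b m m := Nat.cast_nonneg _
      have a3 : y ≤ η * S := by
        by_cases hy : 0 ≤ y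
        · calc y ≤ η * E0 * y := le_mul_of_one_le_left hy hE1
            _ = η * (E0 * y) := by ring
            _ ≤ η * S := by gcongr
        · have : 0 ≤ η * S := by positivity
          linarith
      calc (cnt b m m : ℝ) * y ≤ cnt b m m * (η * S) := by gcongr
        _ = _ := by ring
    have h4 : (cnt b m (m * S) : ℝ) ≤ cnt b (m * q) (m * S) +
        ((Nat.log 2 Q * (cnt b m m * (2 * (S / (4 * E0 * Nat.log 2 Q + 1) + 1))) : ℕ) : ℝ) := by
      exact_mod_cast h1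
    linarith
  set W := (range (m * S)).filter fun t => (Nt b t).Coprime m with hW
  have hWc : W.card = cnt b m (m * S) := rfl
  have hfilt : ∀ q, 0 < q → q ≤ Q → q.Coprime 5 →
      ((W.filter fun t => ¬ (Nt b t).Coprime q).card : ℝ) ≤ η * W.card := by
    intro q hq0 hqQ hq5
    have h1 := hsieve q hq0 hqQ hq5
    have h2 := card_filter_add_card_filter_not (s := W) (fun t => (Nt b t).Coprime q)
    have h3 : (W.filter fun t => (Nt b t).Coprime q).card = cnt b (m * q) (m * S) := by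
      rw [hW, filter_filter, cnt]
      congr 1
      ext t
      simp only [mem_filter, Nat.coprime_mul_iff_right]
    rw [h3, hWc] at h2
    have h4 : (cnt b (m * q) (m * S) : ℝ) + (W.filter fun t => ¬ (Nt b t).Coprime q).card =
        cnt b m (m * S) := by exact_mod_cast h2
    rw [hWc]; linarith
  refine ⟨W, b, ?_, hb0, hfilt, ?_⟩
  · rw [← card_pos, hWc, hWS]; positivity
  rintro χ ⟨q, a, ξ, hG, -⟩
  have hq0 := hG.1
  have hq5 := hG.2.1
  have hqQ : q ≤ Q := le_trans (Nat.le_mul_of_pos_right _ (by positivity)) hG.2.2.1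
  have hξ := hG.2.2.2.1
  have hex : ∀ t, ∃ c : ℤ, (Nt b t).Coprime q → (q : ℤ) ∣ c * Nt b t - 1 := by
    intro t
    by_cases h : (Nt b t).Coprime q
    · obtain ⟨c, hc⟩ := exists_inv_int h
      exact ⟨c, fun _ => hc⟩
    · exact ⟨0, fun h' => absurd h' h⟩
  choose c hc using hex
  have hmq : m * q ≤ m * Q := Nat.mul_le_mul_left m hqQ
  have hqR : (q : ℝ) ≤ Q := by exact_mod_cast hqQ
  have core := model_core hη hη1 hA hL r j b m q (m * S) hMN hAN hq0 hm0 hq5
    (Nat.Coprime.pow_left _ hq5.symm) (norm_rho χ ξ) (hG.kills hQ5) c hc ξ (by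
      have a1 : (16 * E0 * D * (m * Q) ^ 2 : ℝ) ≤ b := by exact_mod_cast hbig
      have a2 : ((5 : ℝ) ^ j) ^ r = D := by rw [hD]; push_cast; rfl
      have a3 : (1 : ℝ) ≤ m := by exact_mod_cast hm0
      rw [a2]
      calc 14 * ((m : ℝ) * q) * (D * ‖ξ‖) ≤ 16 * (m * Q) * (D * Q) := by gcongr; norm_num
        _ = 1 * (16 * D * (m * Q) * (1 * Q)) := by ring
        _ ≤ (η * E0) * (16 * D * (m * Q) * (m * Q)) := by gcongr
        _ = η * (16 * E0 * D * (m * Q) ^ 2) := by ring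
        _ ≤ η * b := by gcongr) (by omega) hT hT2 (by
      have a1 : (8 * E0 * (m * Q) : ℝ) ≤ S := by exact_mod_cast hS1
      have a2 : (S : ℝ) ≤ cnt b m (m * S) := by
        rw [hWS]; exact_mod_cast Nat.le_mul_of_pos_left S hcm
      calc (m : ℝ) * q ≤ 1 * (8 * (m * Q)) := by
            have : (0 : ℝ) ≤ m * Q := by positivity
            have : (m : ℝ) * q ≤ m * Q := by gcongr
            linarith
        _ ≤ (η * E0) * (8 * (m * Q)) := by gcongr
        _ = η * (8 * E0 * (m * Q)) := by ring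
        _ ≤ η * cnt b m (m * S) := by gcongr; linarith) (hsieve q hq0 hqQ hq5)
  set d : ℕ → ℕ := fun i => (5 ^ j) ^ i * L.factorial ^ (r - i) with hd
  set Bad := W.filter fun t => ¬ GoodT k Q (Nt b t) (act (uz (zt b t)) χ) with hBad
  have hcmp : ∀ i, (∑ t ∈ range (m * S), Fm b (m * q) ((rho χ ξ).mulShift ((d i : ℕ) : GaussianInt))
      c ((d i : ℂ) * ξ) t).re - 2 * (η * W.card + Bad.card) ≤
      ∑ t ∈ W, ((act (uz (zt b t)) χ).1 (d i)).re := by
    intro i
    set F := Fm b (m * q) ((rho χ ξ).mulShift ((d i : ℕ) : GaussianInt)) c ((d i : ℂ) * ξ) with hF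
    have hF1 : ∀ t, ‖F t‖ ≤ 1 := fun t => norm_Fm_le _ _
      (fun g => by rw [AddChar.mulShift_apply, norm_rho]) _ _ _
    have e1 : ∑ t ∈ range (m * S), F t = ∑ t ∈ W, F t := by
      rw [hW, sum_filter]
      refine sum_congr rfl fun t _ => ?_
      split_ifs with h
      · rfl
      · rw [hF, Fm, if_neg fun h' => h (Nat.Coprime.coprime_mul_right_right h')]
    have e2 : ∀ t ∈ W, (F t).re - (2 * (if ¬ (Nt b t).Coprime q then (1 : ℝ) else 0) +
        2 * (if ¬ GoodT k Q (Nt b t) (act (uz (zt b t)) χ) then (1 : ℝ) else 0)) ≤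
        ((act (uz (zt b t)) χ).1 (d i)).re := by
      intro t ht
      have b1 := (abs_le.1 ((Complex.abs_re_le_norm (F t)).trans (hF1 t))).2
      have b2 := (abs_le.1 ((Complex.abs_re_le_norm ((act (uz (zt b t)) χ).1 (d i))).trans
        (Om.norm _ _).le)).1
      by_cases h1 : (Nt b t).Coprime q
      · by_cases h2 : GoodT k Q (Nt b t) (act (uz (zt b t)) χ)
        · obtain ⟨q', a', ξ', hG', hq'⟩ := h2
          have ht' := mem_filter.1 ht
          have hsize : 2 * (Q : ℝ) ^ 3 * ‖((zt b t : GaussianInt) : ℂ)‖ < 5 ^ k := by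
            have a1 : ‖((zt b t : GaussianInt) : ℂ)‖ ≤ t + b := by
              rw [coe_zt]
              refine (norm_add_le _ _).trans ?_
              simp
            have a2 : t + b ≤ 10 * X := by have := mem_range.1 ht'.1; omega
            have a3 : (t : ℝ) + b ≤ 10 * X := by exact_mod_cast a2
            have a4 : (20 * Q ^ 3 * X : ℝ) < 5 ^ k := by exact_mod_cast hsz
            have a5 : 2 * (Q : ℝ) ^ 3 * ‖((zt b t : GaussianInt) : ℂ)‖ ≤ 2 * Q ^ 3 * (10 * X) := by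
              gcongr; linarith
            linarith
          have := transfer (zt_ne_zero hb0 t) (star_zt_mul b t) hG hG' hsize hQ5 h1 hq' (hc t h1)
            (d i)
          rw [this, hF, Fm, if_pos (Nat.Coprime.mul_right ht'.2 h1), AddChar.mulShift_apply,
            coe_uz_zt hb0, if_neg (not_not.2 h1), if_neg (not_not.2 ⟨q', a', ξ', hG', hq'⟩)]
          simp
        · rw [if_neg (not_not.2 h1), if_pos h2]; linarith
      · rw [if_pos h1]
        split_ifs <;> linarith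
    have e3 := sum_le_sum e2
    rw [sum_sub_distrib, sum_add_distrib, ← mul_sum, ← mul_sum, sum_boole, sum_boole] at e3
    have e4 := hfilt q hq0 hqQ hq5
    rw [e1, re_sum]
    linarith
  have e5 : ∑ t ∈ W, Psi r d (act (uz (zt b t)) χ) =
      W.card + ∑ i ∈ range r, 2 ^ i * ∑ t ∈ W, ((act (uz (zt b t)) χ).1 (d i)).re := by
    simp only [Psi, sum_add_distrib, sum_const, nsmul_eq_mul, mul_one, mul_sum]
    rw [sum_comm]
  have e6 := sum_le_sum fun i (_ : i ∈ range r) =>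
    mul_le_mul_of_nonneg_left (hcmp i) (by positivity : (0 : ℝ) ≤ 2 ^ i)
  simp only [mul_sub, sum_sub_distrib, ← sum_mul] at e6
  have a2 : ∑ i ∈ range r, (2 : ℝ) ^ i = 2 ^ r - 1 := by
    rw [geom_sum_eq (by norm_num)]; norm_num
  rw [a2] at e6
  rw [e5, ← hWc] at *
  have a3 : (0 : ℝ) ≤ η * W.card + Bad.card := by positivity
  linarith

end Pool.Agent.P.MP_8b2bd9_co
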