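import Pool.Agent.P.MP_8b2bd9_co.Host3
import Pool.Agent.P.MP_8b2bd9_co.Model2

/-! Propagation of closeness of two characters along the chain of lattices. -/

set_option autoImplicit false

open Complex Finset MeasureTheory Filter Topology

noncomputable section

namespace Pool.Agent.P.MP_8b2bd9_co

lemma exists_ee {z : ℂ} (hz : ‖z‖ = 1) : ∃ α : ℝ, |α| ≤ 1 / 2 ∧ z = ee α := by
  refine ⟨z.arg / (2 * Real.pi), ?_, ?_⟩
  · have := Real.pi_pos
    rw [abs_div, abs_of_pos (by positivity : 0 < 2 * Real.pi), div_le_iff₀ (by positivity)]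
    have := Complex.abs_arg_le_pi z
    linarith
  · have h2 := Complex.norm_mul_exp_arg_mul_I z
    rw [hz, Complex.ofReal_one, one_mul] at h2
    conv_lhs => rw [← h2]
    rw [ee]
    congr 1
    have : (Real.pi : ℂ) ≠ 0 := by exact_mod_cast Real.pi_ne_zero
    push_cast
    field_simp

lemma exists_cell (N : ℕ) (hN : 0 < N) : ∃ cell : ℂ → Fin (N + 1), ∀ z z' : ℂ, ‖z‖ = 1 →
    ‖z'‖ = 1 → cell z = cell z' → ∃ α : ℝ, |α| ≤ 1 / N ∧ z = z' * ee α := by
  classical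
  have hN' : (0 : ℝ) < N := by exact_mod_cast hN
  have h : ∀ z : ℂ, ∃ α : ℝ, |α| ≤ 1 / 2 ∧ (‖z‖ = 1 → z = ee α) := by
    intro z
    by_cases hz : ‖z‖ = 1
    · obtain ⟨α, h1, h2⟩ := exists_ee hz
      exact ⟨α, h1, fun _ => h2⟩
    · exact ⟨0, by simp, fun h => absurd h hz⟩
  choose τ h1 h2 using h
  have h3 : ∀ z, ⌊N * (τ z + 1 / 2)⌋₊ < N + 1 := by
    intro z
    have := abs_le.1 (h1 z)
    rw [Nat.floor_lt (by nlinarith)]
    push_cast
    nlinarith
  refine ⟨fun z => ⟨_, h3 z⟩, fun z z' hz hz' h => ⟨τ z - τ z', ?_, ?_⟩⟩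
  · simp only [Fin.mk.injEq] at h
    have a1 := abs_le.1 (h1 z)
    have a2 := abs_le.1 (h1 z')
    have b1 := Nat.floor_le (a := N * (τ z + 1 / 2)) (by nlinarith)
    have b2 := Nat.floor_le (a := N * (τ z' + 1 / 2)) (by nlinarith)
    have c1 := Nat.lt_floor_add_one (N * (τ z + 1 / 2))
    have c2 := Nat.lt_floor_add_one (N * (τ z' + 1 / 2))
    rw [h] at b1 c1
    rw [le_div_iff₀ hN', ← abs_of_pos hN', ← abs_mul, abs_le]
    constructor <;> nlinarith
  · conv_lhs => rw [h2 z hz]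
    conv_rhs => rw [h2 z' hz', ← ee_add]
    congr 1
    rw [← h2 z' hz']
    ring

lemma eq_one_of_pow_five {ω : ℂ} (h1 : ‖ω‖ = 1) (h5 : ω ^ 5 = 1) (h : ‖ω - 1‖ ≤ 2 / 5) : ω = 1 := by
  obtain ⟨α, ha, rfl⟩ := exists_ee h1
  have a1 := le_norm_ee_sub_one α ha
  rw [← ee_nat_mul] at h5
  have := eq_zero_of_ee h5 (by
    rw [abs_mul]; norm_num; linarith)
  have : α = 0 := by simpa using this
  rw [this, ee_zero]

/-- The set where two characters differ by the continuous character of frequency `η`. -/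
def Ker (η : ℂ) (χ χ' : Om) : AddSubgroup K where
  carrier := {x | χ.1 x = χ'.1 x * ee (pair x η)}
  zero_mem' := by simp [Om.zero, pair, ee_zero]
  add_mem' := by
    intro a b ha hb
    simp only [Set.mem_ofPred_eq] at ha hb ⊢
    rw [Om.add, Om.add, ha, hb]
    push_cast
    rw [pair_add_left, ee_add]; ring
  neg_mem' := by
    intro a ha
    simp only [Set.mem_ofPred_eq] at ha ⊢
    have e : pair ((-a : K) : ℂ) η = -pair a η := by simp [pair]
    rw [e, ee_neg, ← zero_sub a, Om.sub, Om.sub, Om.zero, Om.zero, ha]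
    have := ee_ne_zero (pair a η)
    have := Om.ne_zero χ' a
    field_simp

lemma mem_Ker {η : ℂ} {χ χ' : Om} {x : K} :
    x ∈ Ker η χ χ' ↔ χ.1 x = χ'.1 x * ee (pair x η) := Iff.rfl

/-- Two characters differ by a continuous character on the lattice `D⁻¹ P ^ (-s) ℤ[i]`. -/
def Close (D : GaussianInt) (s : ℕ) (η : ℂ) (χ χ' : Om) : Prop :=
  ∀ (x : K) (g : GaussianInt), gi D * gi PP ^ s * x = gi g → x ∈ Ker η χ χ'

lemma close_init {D : GaussianInt} (hD : D ≠ 0) {χ χ' : Om} {α β : ℝ}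
    (h1 : χ.1 (gi D)⁻¹ = χ'.1 (gi D)⁻¹ * ee α)
    (h2 : χ.1 (gi ⟨0, 1⟩ * (gi D)⁻¹) = χ'.1 (gi ⟨0, 1⟩ * (gi D)⁻¹) * ee β) :
    Close D 0 ((starRingEnd ℂ) (D : ℂ) * (α + β * I)) χ χ' := by
  intro x g h
  have hD0 := gi_ne_zero hD
  have hD1 : (D : ℂ) ≠ 0 := by
    rw [← coe_gi]; exact_mod_cast hD0
  have e : x = g.re • (gi D)⁻¹ + g.im • (gi ⟨0, 1⟩ * (gi D)⁻¹) := by
    have e1 : g = g.re • (1 : GaussianInt) + g.im • (⟨0, 1⟩ : GaussianInt) := by
      apply Zsqrtd.ext <;> simp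
    have e2 : gi g = g.re + g.im * gi ⟨0, 1⟩ := by
      conv_lhs => rw [e1]
      rw [map_add, map_zsmul, map_zsmul, map_one, zsmul_eq_mul, zsmul_eq_mul, mul_one]
    rw [pow_zero, mul_one, e2] at h
    simp only [zsmul_eq_mul]
    field_simp
    linear_combination h
  rw [e]
  refine AddSubgroup.add_mem _ (AddSubgroup.zsmul_mem _ ?_ _) (AddSubgroup.zsmul_mem _ ?_ _)
  · rw [mem_Ker, h1, ← pair_mul_left]
    push_cast
    rw [coe_gi, mul_inv_cancel₀ hD1]
    simp [pair]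
  · rw [mem_Ker, h2, ← pair_mul_left]
    push_cast
    rw [coe_gi, coe_gi, mul_left_comm, mul_inv_cancel₀ hD1, GaussianInt.toComplex_def']
    simp [pair]

lemma close_step {D : GaussianInt} (hD : ¬PP ∣ D) {s : ℕ} {η : ℂ} {χ χ' : Om}
    (h : Close D s η χ χ') (hη : ‖η‖ ≤ 1 / 70)
    (h1 : ‖χ.1 (uu ^ (s + 1)) - χ'.1 (uu ^ (s + 1))‖ ≤ 3 / 10) : Close D (s + 1) η χ χ' := by
  have hP := gi_ne_zero PP_ne_zero
  have hu : gi PP ^ (s + 1) * uu ^ (s + 1) = gi PQ ^ (s + 1) := by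
    rw [← mul_pow, uu_eq, mul_div_cancel₀ _ hP]
  have k5 : (5 : ℕ) • uu ^ (s + 1) ∈ Ker η χ χ' := by
    refine h _ (D * PQ ^ (s + 2)) ?_
    simp only [map_mul, map_pow, nsmul_eq_mul]
    push_cast
    rw [← gi_five]
    linear_combination gi D * gi PQ * hu
  have k1 : uu ^ (s + 1) ∈ Ker η χ χ' := by
    rw [mem_Ker, nsmul_eq_mul, Om.nat_mul, Om.nat_mul] at k5
    have e : pair (((5 : ℕ) * uu ^ (s + 1) : K) : ℂ) η =
        (5 : ℕ) * pair ((uu ^ (s + 1) : K) : ℂ) η := by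
      rw [← pair_real_mul_left]; push_cast; rfl
    rw [e, ee_nat_mul, ← mul_pow] at k5
    set y := χ'.1 (uu ^ (s + 1)) * ee (pair ((uu ^ (s + 1) : K) : ℂ) η) with hy
    have hy1 : ‖y‖ = 1 := by rw [hy, norm_mul, Om.norm, norm_ee, one_mul]
    have hy0 : y ≠ 0 := fun h => by simp [h] at hy1
    rw [mem_Ker, ← hy, ← div_eq_one_iff_eq hy0]
    refine eq_one_of_pow_five (by rw [norm_div, Om.norm, hy1, div_one])
      (by rw [div_pow, k5, div_self (pow_ne_zero _ hy0)]) ?_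
    rw [div_sub_one hy0, norm_div, hy1, div_one]
    have a1 : ‖χ'.1 (uu ^ (s + 1)) - y‖ ≤ 1 / 10 := by
      rw [hy, ← mul_one_sub, norm_mul, Om.norm, one_mul, norm_sub_rev]
      refine (norm_ee_sub_one_le _).trans ?_
      have := abs_pair_le ((uu ^ (s + 1) : K) : ℂ) η
      have b : ‖((uu ^ (s + 1) : K) : ℂ)‖ = 1 := by simp [norm_uu]
      rw [b] at this
      linarith
    have := norm_sub_le_norm_sub_add_norm_sub (χ.1 (uu ^ (s + 1))) (χ'.1 (uu ^ (s + 1))) y
    linarith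
  intro x g hx
  have hnd : ¬PP ∣ D * PQ ^ (s + 1) := fun hd => by
    rcases PP_prime.dvd_or_dvd hd with h | h
    · exact hD h
    · exact not_PP_dvd_PQ (PP_prime.dvd_of_dvd_pow h)
  obtain ⟨c, g', hg'⟩ := exists_nat_mod_PP g _ hnd
  have k2 : x - c • uu ^ (s + 1) ∈ Ker η χ χ' := by
    refine h _ g' (mul_left_cancel₀ hP ?_)
    have := congrArg gi hg'
    simp only [map_sub, map_mul, map_pow, map_natCast] at this
    rw [← this, nsmul_eq_mul]
    linear_combination hx - c * gi D * hu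
  have := AddSubgroup.add_mem _ k2 (AddSubgroup.nsmul_mem _ k1 c)
  simpa using this

lemma close_shift {D : GaussianInt} {s : ℕ} {η : ℂ} {χ χ' : Om} (h : Close D s η χ χ') :
    Close D 0 ((starRingEnd ℂ) ((uu ^ s : K) : ℂ) * η) (act (uu ^ s) χ) (act (uu ^ s) χ') := by
  intro x g hx
  have hP := gi_ne_zero PP_ne_zero
  have hu : gi PP ^ s * uu ^ s = gi PQ ^ s := by
    rw [← mul_pow, uu_eq, mul_div_cancel₀ _ hP]
  have := h (uu ^ s * x) (PQ ^ s * g) (by
    simp only [map_mul, map_pow]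
    linear_combination gi D * x * hu + gi PQ ^ s * hx)
  rw [mem_Ker] at this ⊢
  rw [act_apply, act_apply, this, ← pair_mul_left]
  push_cast
  rfl

lemma good_of_close {D : GaussianInt} {k t t' T : ℕ} (htt : t < t') (hT : t' < T) {η : ℂ}
    (hη : ‖η‖ ≤ 1) {χ : Om}
    (h : Close D (2 * k) η (act (uz (zt 1 t) * uu⁻¹ ^ k) χ) (act (uz (zt 1 t') * uu⁻¹ ^ k) χ)) :
    GoodT k ((T + 1) ^ 2) 1 χ := by
  obtain ⟨a, q, hq, e⟩ := Nat.exists_eq_pow_mul_and_not_dvd (n := 2 * (t' - t)) (by omega) 5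
    (by norm_num)
  rw [mul_comm (5 ^ a)] at e
  have hq0 : 0 < q := by
    rcases Nat.eq_zero_or_pos q with h | h
    · simp [h] at hq
    · exact h
  have hP := gi_ne_zero PP_ne_zero
  have hQ := gi_ne_zero PQ_ne_zero
  have h5 := five_ne_zero_K
  have hs : ∀ j : ℕ, gi (star (zt 1 j)) ≠ 0 := fun j =>
    gi_ne_zero (star_ne_zero.2 (zt_ne_zero one_pos j))
  set m : GaussianInt := ⟨0, -1⟩ * star (zt 1 t) * star (zt 1 t') with hm
  have hpos : (0 : ℝ) < ((q * 5 ^ a : ℕ) : ℝ) := by positivity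
  refine ⟨q, a, (((q * 5 ^ a : ℕ) : ℝ)⁻¹ : ℝ) *
    ((starRingEnd ℂ) ((uu ^ k * gi m : K) : ℂ) * η), ⟨hq0, ?_, ?_, ?_, fun g => ?_⟩, by simp⟩
  · exact ((Nat.Prime.coprime_iff_not_dvd Nat.prime_five).2 hq).symm
  · rw [← e]; nlinarith [Nat.sub_le t' t]
  · have hz : ∀ j : ℕ, ‖((zt 1 j : GaussianInt) : ℂ)‖ ≤ j + 1 := by
      intro j
      refine (Complex.norm_le_abs_re_add_abs_im _).trans ?_
      simp [zt]
    have hm1 : ‖(m : ℂ)‖ ≤ (T + 1) ^ 2 := by
      rw [hm, map_mul, map_mul, norm_mul, norm_mul, coe_star, coe_star, Complex.norm_conj,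
        Complex.norm_conj, GaussianInt.toComplex_def']
      have a1 := hz t
      have a2 := hz t'
      have a3 : (t : ℝ) ≤ T := by exact_mod_cast (htt.trans hT).le
      have a4 : (t' : ℝ) ≤ T := by exact_mod_cast hT.le
      simp only [Int.cast_zero, Int.reduceNeg, Int.cast_neg, Int.cast_one, neg_mul, one_mul,
        zero_add, norm_neg, norm_I]
      rw [sq]
      exact mul_le_mul (by linarith) (by linarith) (norm_nonneg _) (by positivity)
    have h1 : ((q * 5 ^ a : ℕ) : ℝ)⁻¹ ≤ 1 := by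
      apply inv_le_one_of_one_le₀
      exact_mod_cast Nat.pos_of_ne_zero (by positivity)
    rw [norm_mul, norm_mul, Complex.norm_conj, Complex.norm_real, Real.norm_eq_abs,
      abs_of_pos (inv_pos.2 hpos)]
    push_cast
    rw [norm_mul, norm_pow, norm_uu, one_pow, one_mul, coe_gi]
    push_cast at h1
    calc _ ≤ 1 * (((T : ℝ) + 1) ^ 2 * 1) := by gcongr
      _ = _ := by ring
  · have hu : gi PP ^ k * uu ^ k = gi PQ ^ k := by
      rw [← mul_pow, uu_eq, mul_div_cancel₀ _ hP]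
    have h1 := h (uu ^ k * gi m * (gi g / 5 ^ k)) (D * m * g) (by
      simp only [map_mul]
      rw [← gi_five, two_mul, pow_add, mul_pow]
      field_simp
      linear_combination gi D * gi m * gi g * hu)
    rw [mem_Ker, act_apply, act_apply] at h1
    have hc : uu⁻¹ ^ k * uu ^ k = 1 := by
      rw [← mul_pow, inv_mul_cancel₀ uu_ne_zero, one_pow]
    have e1 : ((q * 5 ^ a : ℕ) : K) * (gi g / 5 ^ k) =
        uz (zt 1 t) * uu⁻¹ ^ k * (uu ^ k * gi m * (gi g / 5 ^ k)) -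
        uz (zt 1 t') * uu⁻¹ ^ k * (uu ^ k * gi m * (gi g / 5 ^ k)) := by
      have e2 : (uz (zt 1 t) - uz (zt 1 t')) * gi m = ((q * 5 ^ a : ℕ) : K) := by
        have e3 : ((q * 5 ^ a : ℕ) : GaussianInt) =
            ⟨0, -1⟩ * (zt 1 t * star (zt 1 t') - zt 1 t' * star (zt 1 t)) := by
          rw [← e]
          apply Zsqrtd.ext
          · simp [zt, Nat.cast_sub htt.le]; ring
          · simp [zt]; ring
        have e4 := congrArg gi e3
        simp only [map_natCast, map_mul, map_sub] at e4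
        rw [e4, hm, uz, uz]
        simp only [map_mul]
        have := hs t
        have := hs t'
        field_simp
      rw [← e2]
      linear_combination (-(uz (zt 1 t) - uz (zt 1 t')) * gi m * (gi g / 5 ^ k)) * hc
    rw [e1, Om.sub, h1, mul_div_cancel_left₀ _ (Om.ne_zero _ _), pair_real_mul_right,
      mul_inv_cancel_left₀ hpos.ne', ← pair_mul_left]
    push_cast
    rw [coe_gi g]
    rfl

end Pool.Agent.P.MP_8b2bd9_co
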