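import Pool.Agent.P.MP_8b2bd9_co.Cx1

/-! Deterministic invariant measures live on nearly torsion characters. -/

set_option autoImplicit false

open Complex Finset MeasureTheory Filter Topology

noncomputable section

namespace Pool.Agent.P.MP_8b2bd9_co

lemma exists_common_den (F : Finset A0) :
    ∃ D : GaussianInt, ¬PP ∣ D ∧ ∀ x ∈ F, ∃ g, gi D * (x : K) = gi g := by
  classical
  induction F using Finset.induction_on with
  | empty => exact ⟨1, PP_prime.not_dvd_one, by simp⟩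
  | insert y F _ ih =>
    obtain ⟨D, hD, h⟩ := ih
    obtain ⟨g, d, hd, e⟩ := y.2
    refine ⟨D * d, fun hc => (PP_prime.dvd_or_dvd hc).elim hD hd, fun x hx => ?_⟩
    rcases mem_insert.1 hx with rfl | hx
    · exact ⟨D * g, by rw [map_mul, map_mul, mul_assoc, e]⟩
    · obtain ⟨g', e'⟩ := h x hx
      exact ⟨d * g', by rw [map_mul, map_mul, ← e']; ring⟩

lemma unif_cont (g : (A0 → ℂ) → ℂ) (hg : Continuous g) :
    ∃ D : GaussianInt, ¬PP ∣ D ∧ ∃ δ : ℝ, 0 < δ ∧ ∀ (χ χ' : Om) (η : ℂ), ‖η‖ ≤ δ →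
      Close D 0 η χ χ' → ‖g (res χ) - g (res χ')‖ ≤ 1 / 10 := by
  classical
  have hc : Continuous fun p : Om × Om => ‖g (res p.1) - g (res p.2)‖ :=
    ((hg.comp (continuous_res.comp continuous_fst)).sub
      (hg.comp (continuous_res.comp continuous_snd))).norm
  have hZ : IsCompact {p : Om × Om | 1 / 10 ≤ ‖g (res p.1) - g (res p.2)‖} :=
    (isClosed_le continuous_const hc).isCompact
  obtain ⟨u, hu⟩ := hZ.elim_finite_subfamily_closed
    (fun i : A0 × ℕ => {p : Om × Om | ‖p.1.1 i.1 - p.2.1 i.1‖ ≤ 1 / (i.2 + 1 : ℝ)})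
    (fun i => isClosed_le (((continuous_ev _).comp continuous_fst).sub
      ((continuous_ev _).comp continuous_snd)).norm continuous_const) (by
      rw [Set.eq_empty_iff_forall_notMem]
      rintro p ⟨h1, h2⟩
      have : res p.1 = res p.2 := by
        funext x
        rw [← sub_eq_zero, ← norm_le_zero_iff]
        refine le_of_forall_pos_le_add fun ε hε => ?_
        obtain ⟨n, hn⟩ := exists_nat_one_div_lt hε
        have := Set.mem_iInter.1 h2 (x, n)
        simp only [Set.mem_ofPred_eq] at this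
        simp only [res]
        linarith
      simp only [Set.mem_ofPred_eq, this, sub_self, norm_zero] at h1
      linarith)
  obtain ⟨D, hD, hF⟩ := exists_common_den (u.image Prod.fst)
  set R : ℝ := ∑ i ∈ u, (i.2 + 1 : ℝ) * ‖((i.1 : K) : ℂ)‖ with hR
  have hR0 : 0 ≤ R := sum_nonneg fun i _ => by positivity
  refine ⟨D, hD, 1 / (7 * (R + 1)), by positivity, fun χ χ' η hη hcl => ?_⟩
  by_contra hlt
  rw [not_le] at hlt
  refine Set.eq_empty_iff_forall_notMem.1 hu (χ, χ') ⟨hlt.le, ?_⟩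
  simp only [Set.mem_iInter, Set.mem_ofPred_eq]
  intro i hi
  obtain ⟨g', e⟩ := hF i.1 (mem_image_of_mem _ hi)
  have h1 := hcl i.1 g' (by simpa using e)
  rw [mem_Ker] at h1
  rw [h1, ← mul_sub_one, norm_mul, Om.norm, one_mul]
  refine (norm_ee_sub_one_le _).trans ?_
  have a1 := abs_pair_le ((i.1 : K) : ℂ) η
  have a2 : (i.2 + 1 : ℝ) * ‖((i.1 : K) : ℂ)‖ ≤ R :=
    single_le_sum (f := fun i : A0 × ℕ => (i.2 + 1 : ℝ) * ‖((i.1 : K) : ℂ)‖)
      (fun i _ => by positivity) hi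
  rw [le_div_iff₀ (by positivity)] at hη ⊢
  have a3 : (0 : ℝ) < i.2 + 1 := by positivity
  have a4 := mul_le_mul_of_nonneg_left a1 a3.le
  have a5 := mul_le_mul_of_nonneg_right a2 (norm_nonneg η)
  nlinarith [norm_nonneg η]

lemma approx (μ : Measure Om) [IsFiniteMeasure μ] {G : Om → ℂ} (hG : IsPred G)
    (hdet : ∀ᵐ χ ∂μ, χ.1 uu = G χ) (ε : ℝ) (hε : 0 < ε) :
    ∃ D : GaussianInt, ¬PP ∣ D ∧ ∃ δ : ℝ, 0 < δ ∧ ∃ B : Set Om, MeasurableSet B ∧
      μ.real B ≤ ε ∧ ∀ χ ∉ B, ∀ χ' ∉ B, ∀ η : ℂ, ‖η‖ ≤ δ → Close D 0 η χ χ' →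
        ‖χ.1 uu - χ'.1 uu‖ ≤ 3 / 10 := by
  obtain ⟨g, hg, rfl⟩ := hG.meas.exists_eq_measurable_comp
  have hres := continuous_res.measurable
  have hi : Integrable g (μ.map res) := by
    rw [integrable_map_measure hg.aestronglyMeasurable hres.aemeasurable]
    exact Integrable.of_bound hG.measurable.aestronglyMeasurable 1 (Eventually.of_forall hG.bound)
  obtain ⟨g', h1, h2⟩ := hi.exists_boundedContinuous_integral_sub_le (ε := ε / 10) (by positivity)
  rw [integral_map (f := fun x => ‖g x - g' x‖) hres.aemeasurable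
    (hi.sub h2).norm.aestronglyMeasurable] at h1
  obtain ⟨D, hD, δ, hδ, h⟩ := unif_cont g' g'.continuous
  have hm : Measurable fun χ : Om => ‖χ.1 uu - g' (res χ)‖ :=
    ((measurable_ev _).sub (g'.continuous.comp continuous_res).measurable).norm
  have hi2 : Integrable (fun χ : Om => ‖χ.1 uu - g' (res χ)‖) μ :=
    ((integrable_ev μ uu).sub ((integrable_map_measure h2.aestronglyMeasurable
      hres.aemeasurable).1 h2)).norm
  refine ⟨D, hD, δ, hδ, {χ | 1 / 10 ≤ ‖χ.1 uu - g' (res χ)‖},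
    measurableSet_le measurable_const hm, ?_, fun χ hχ χ' hχ' η hη hc => ?_⟩
  · have a1 := mul_meas_ge_le_integral_of_nonneg (μ := μ)
      (f := fun χ : Om => ‖χ.1 uu - g' (res χ)‖)
      (Eventually.of_forall fun _ => norm_nonneg _) hi2 (1 / 10)
    have a2 : ∫ χ, ‖χ.1 uu - g' (res χ)‖ ∂μ = ∫ χ, ‖g (res χ) - g' (res χ)‖ ∂μ := by
      refine integral_congr_ae ?_
      filter_upwards [hdet] with χ hχ
      rw [hχ]; rfl
    linarith
  · have a1 := h χ χ' η hη hc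
    simp only [Set.mem_ofPred_eq, not_le] at hχ hχ'
    have a2 := norm_sub_le_norm_sub_add_norm_sub (χ.1 uu) (g' (res χ)) (χ'.1 uu)
    have a3 := norm_sub_le_norm_sub_add_norm_sub (g' (res χ)) (g' (res χ')) (χ'.1 uu)
    rw [norm_sub_rev] at hχ'
    linarith

lemma codes {D : GaussianInt} (hD : ¬PP ∣ D) {δ : ℝ} (hδ : 0 < δ) (B : Set Om)
    [DecidablePred (· ∈ B)]
    (hB : ∀ χ ∉ B, ∀ χ' ∉ B, ∀ η : ℂ, ‖η‖ ≤ δ → Close D 0 η χ χ' → ‖χ.1 uu - χ'.1 uu‖ ≤ 3 / 10) :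
    ∃ N : ℕ, ∀ (k : ℕ) (θ : ℝ), 0 ≤ θ → ∀ (T : Finset ℕ) (f : ℕ → Om),
      (∀ t ∈ T, ∀ t' ∈ T, t < t' → ∀ η : ℂ, ‖η‖ ≤ 1 → ¬Close D k η (f t) (f t')) →
      ∑ t ∈ T, θ ^ ((range k).filter fun s => act (uu ^ s) (f t) ∈ B).card ≤
        N * (1 + 25 * θ) ^ k := by
  classical
  have hD0 : D ≠ 0 := by rintro rfl; exact hD (dvd_zero _)
  set δ' := min δ (1 / 70) with hδ'
  have hδ0 : 0 < δ' := lt_min hδ (by norm_num)
  obtain ⟨N, hN⟩ := exists_nat_gt (2 * ‖(D : ℂ)‖ / δ')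
  have hN0 : (0 : ℝ) < N := lt_of_le_of_lt (by positivity) hN
  obtain ⟨c1, hc1⟩ := exists_cell N (by exact_mod_cast hN0)
  obtain ⟨c2, hc2⟩ := exists_cell 24 (by norm_num)
  refine ⟨(N + 1) ^ 2, fun k θ hθ T f hf => ?_⟩
  set code : Om → (Fin (N + 1) × Fin (N + 1)) × (Fin k → Option (Fin 25)) := fun χ =>
    ((c1 (χ.1 (gi D)⁻¹), c1 (χ.1 (gi ⟨0, 1⟩ * (gi D)⁻¹))),
      fun s => if act (uu ^ (s : ℕ)) χ ∈ B then some (c2 (χ.1 (uu ^ ((s : ℕ) + 1)))) else none)
    with hcode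
  have key : ∀ χ χ', code χ = code χ' → ∃ η : ℂ, ‖η‖ ≤ 1 ∧ Close D k η χ χ' := by
    intro χ χ' h
    simp only [hcode, Prod.mk.injEq] at h
    obtain ⟨⟨h1, h2⟩, h3⟩ := h
    obtain ⟨α, hα, e1⟩ := hc1 _ _ (Om.norm _ _) (Om.norm _ _) h1
    obtain ⟨β, hβ, e2⟩ := hc1 _ _ (Om.norm _ _) (Om.norm _ _) h2
    have h0 := close_init hD0 e1 e2
    set η := (starRingEnd ℂ) (D : ℂ) * (α + β * I) with hη
    have hη1 : ‖η‖ ≤ δ' := by
      rw [hη, norm_mul, Complex.norm_conj]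
      have a1 : ‖(α + β * I : ℂ)‖ ≤ 2 / N := by
        refine (norm_add_le _ _).trans ?_
        rw [norm_mul, norm_I, mul_one, Complex.norm_real, Complex.norm_real, Real.norm_eq_abs,
          Real.norm_eq_abs]
        linarith [show (2 : ℝ) / N = 1 / N + 1 / N by ring]
      refine (mul_le_mul_of_nonneg_left a1 (norm_nonneg _)).trans ?_
      rw [div_lt_iff₀ hδ0] at hN
      rw [mul_div_assoc', div_le_iff₀ hN0]
      linarith
    have hη2 : ‖η‖ ≤ 1 / 70 := hη1.trans (min_le_right _ _)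
    refine ⟨η, by linarith, ?_⟩
    have : ∀ s ≤ k, Close D s η χ χ' := by
      intro s
      induction s with
      | zero => exact fun _ => h0
      | succ s ih =>
        intro hs
        have ih := ih (by omega)
        refine close_step hD ih hη2 ?_
        have h4 := congrFun h3 ⟨s, hs⟩
        simp only at h4
        by_cases b1 : act (uu ^ s) χ ∈ B <;> by_cases b2 : act (uu ^ s) χ' ∈ B
        · rw [if_pos b1, if_pos b2, Option.some.injEq] at h4
          obtain ⟨γ, hγ, e3⟩ := hc2 _ _ (Om.norm _ _) (Om.norm _ _) h4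
          rw [e3, ← mul_sub_one, norm_mul, Om.norm, one_mul]
          refine (norm_ee_sub_one_le _).trans ?_
          push_cast at hγ
          linarith
        · simp [b1, b2] at h4
        · simp [b1, b2] at h4
        · have := hB _ b1 _ b2 _ (by
            rw [norm_mul, Complex.norm_conj]
            simpa [norm_uu] using hη1.trans (min_le_left _ _)) (close_shift ih)
          simpa only [act_apply, ← pow_succ] using this
    exact this k le_rfl
  have hinj : Set.InjOn (fun t => code (f t)) T := by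
    intro t ht t' ht' h
    by_contra hne
    rcases lt_or_gt_of_ne hne with hlt | hlt
    · obtain ⟨η, h1, h2⟩ := key _ _ h
      exact hf t ht t' ht' hlt η h1 h2
    · obtain ⟨η, h1, h2⟩ := key _ _ h.symm
      exact hf t' ht' t ht hlt η h1 h2
  set wt : Option (Fin 25) → ℝ := fun o => if o = none then 1 else θ with hwt
  set W : (Fin (N + 1) × Fin (N + 1)) × (Fin k → Option (Fin 25)) → ℝ :=
    fun c => ∏ s, wt (c.2 s) with hW
  have h1 : ∀ χ, θ ^ ((range k).filter fun s => act (uu ^ s) χ ∈ B).card = W (code χ) := by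
    intro χ
    simp only [hW, hcode, hwt]
    rw [Fin.prod_univ_eq_prod_range (fun s => if (if act (uu ^ s) χ ∈ B then
      some (c2 (χ.1 (uu ^ (s + 1)))) else none) = none then 1 else θ) k, ← prod_const,
      prod_filter]
    refine prod_congr rfl fun s _ => ?_
    by_cases b : act (uu ^ s) χ ∈ B <;> simp [b]
  simp only [h1]
  rw [← sum_image (f := W) hinj]
  refine (sum_le_sum_of_subset_of_nonneg (subset_univ _) fun c _ _ =>
    prod_nonneg fun s _ => by simp only [hwt]; split_ifs <;> positivity).trans (le_of_eq ?_)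
  rw [Fintype.sum_prod_type]
  simp only [hW, sum_const, card_univ, Fintype.card_prod, Fintype.card_fin, nsmul_eq_mul]
  rw [← Fintype.piFinset_univ, ← prod_univ_sum (fun _ : Fin k => univ) fun _ o => wt o]
  simp [hwt, Fintype.sum_option, sq]

lemma params (E : ℕ) : ∃ θ : ℝ, 0 < θ ∧ θ ≤ 1 ∧ ∃ Γ : ℕ, 0 < Γ ∧ ∀ C N : ℕ, ∃ j : ℕ, 0 < j ∧
    ∃ T : ℕ, 0 < T ∧ 2 * (N * (1 + 25 * θ) ^ (2 * (Γ * j))) ≤ T * θ ^ (2 * j) ∧
      C * ((T + 1) ^ 2) ^ E ≤ 5 ^ (Γ * j) := by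
  have hc : Continuous fun θ : ℝ => (1 + 25 * θ) ^ (4 * E) := by fun_prop
  have h1 : ∀ᶠ θ : ℝ in 𝓝[>] 0, (1 + 25 * θ) ^ (4 * E) < 3 / 2 :=
    mem_nhdsWithin_of_mem_nhds (hc.continuousAt.eventually (gt_mem_nhds (by norm_num)))
  obtain ⟨θ, hθ, hθ0, hθ1⟩ := (h1.and (Ioc_mem_nhdsGT (zero_lt_one' ℝ))).exists
  obtain ⟨Γ, hΓ⟩ := pow_unbounded_of_one_lt (θ⁻¹ ^ (4 * E)) (by norm_num : (1 : ℝ) < 4 / 3)
  have hΓ' : θ⁻¹ ^ (4 * E) ≤ (4 / 3) ^ (Γ + 1) :=
    hΓ.le.trans (pow_le_pow_right₀ (by norm_num) (by omega))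
  refine ⟨θ, hθ0, hθ1, Γ + 1, by omega, fun C N => ?_⟩
  obtain ⟨j, hj⟩ := pow_unbounded_of_one_lt ((C : ℝ) * (2 * N + 3) ^ (2 * E))
    (by norm_num : (1 : ℝ) < 5 / 2)
  set k := (Γ + 1) * (j + 1) with hk
  have hj' : (C : ℝ) * (2 * N + 3) ^ (2 * E) ≤ (5 / 2) ^ k :=
    hj.le.trans (pow_le_pow_right₀ (by norm_num) (by rw [hk]; nlinarith))
  set M : ℝ := θ⁻¹ ^ (2 * (j + 1)) * (1 + 25 * θ) ^ (2 * k) with hM
  have hM1 : 1 ≤ M := one_le_mul_of_one_le_of_one_le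
    (one_le_pow₀ ((one_le_inv₀ hθ0).2 hθ1)) (one_le_pow₀ (by linarith))
  have hM2 : M ^ (2 * E) ≤ 2 ^ k := by
    have e : M ^ (2 * E) = (θ⁻¹ ^ (4 * E)) ^ (j + 1) * ((1 + 25 * θ) ^ (4 * E)) ^ k := by
      rw [hM, mul_pow]
      simp only [← pow_mul]
      congr 2 <;> ring
    rw [e]
    calc (θ⁻¹ ^ (4 * E)) ^ (j + 1) * ((1 + 25 * θ) ^ (4 * E)) ^ k
        ≤ ((4 / 3) ^ (Γ + 1)) ^ (j + 1) * (3 / 2) ^ k := by gcongr
      _ = 2 ^ k := by rw [← pow_mul, ← hk, ← mul_pow]; norm_num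
  refine ⟨j + 1, by omega, ⌈2 * N * M⌉₊ + 1, by omega, ?_, ?_⟩
  · have a1 := Nat.le_ceil (2 * N * M)
    have a2 : M * θ ^ (2 * (j + 1)) = (1 + 25 * θ) ^ (2 * k) := by
      rw [hM, mul_right_comm, ← mul_pow, inv_mul_cancel₀ hθ0.ne', one_pow, one_mul]
    rw [← a2]
    have a3 : 0 < θ ^ (2 * (j + 1)) := by positivity
    push_cast
    nlinarith
  · have a1 := Nat.ceil_lt_add_one (a := 2 * N * M) (by positivity)
    have a2 : ((⌈2 * N * M⌉₊ + 1 + 1 : ℕ) : ℝ) ≤ (2 * N + 3) * M := by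
      push_cast; nlinarith
    rw [← Nat.cast_le (α := ℝ), ← pow_mul, Nat.cast_mul, Nat.cast_pow, Nat.cast_pow]
    calc (C : ℝ) * ((⌈2 * N * M⌉₊ + 1 + 1 : ℕ) : ℝ) ^ (2 * E)
        ≤ C * ((2 * N + 3) * M) ^ (2 * E) := by gcongr
      _ = C * (2 * N + 3) ^ (2 * E) * M ^ (2 * E) := by rw [mul_pow]; ring
      _ ≤ (5 / 2) ^ k * 2 ^ k := by gcongr
      _ = _ := by rw [← mul_pow, ← hk]; norm_num

theorem complexity (μ : Measure Om) [IsFiniteMeasure μ] (hμ : UInv μ) {G : Om → ℂ}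
    (hG : IsPred G) (hdet : ∀ᵐ χ ∂μ, χ.1 uu = G χ) (ε : ℝ) (hε : 0 < ε) (E C : ℕ) :
    ∃ k Q : ℕ, 1 ≤ Q ∧ C * Q ^ E ≤ 5 ^ k ∧ μ.real {χ | ¬GoodT k Q 1 χ} ≤ ε := by
  classical
  obtain ⟨θ, hθ0, hθ1, Γ, hΓ, hpar⟩ := params E
  have hΓ' : (0 : ℝ) < Γ := by exact_mod_cast hΓ
  obtain ⟨D, hD, δ, hδ, B, mB, hB, hB'⟩ := approx μ hG hdet (ε / (2 * Γ)) (by positivity)
  obtain ⟨N, hN⟩ := codes hD hδ B hB'
  obtain ⟨j, hj, T, hT, h1, h2⟩ := hpar C N
  set k := Γ * j with hk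
  refine ⟨k, (T + 1) ^ 2, Nat.one_le_pow _ _ (by omega), h2, ?_⟩
  set w : ℕ → K := fun t => uz (zt 1 t) * uu⁻¹ ^ k with hw
  have hw1 : ∀ t s, ‖((w t * uu ^ s : K) : ℂ)‖ = 1 := by
    intro t s
    have := norm_uz (zt_ne_zero one_pos t)
    simp [hw, norm_uu, this]
  set X : Om → ℝ := fun χ => ∑ t ∈ range T, ∑ s ∈ range (2 * k),
    (act (w t * uu ^ s) ⁻¹' B).indicator (fun _ => (1 : ℝ)) χ with hX
  have iB : ∀ t s, Integrable ((act (w t * uu ^ s) ⁻¹' B).indicator (fun _ => (1 : ℝ))) μ :=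
    fun t s => (integrable_const _).indicator (measurable_act _ mB)
  have iX : Integrable X μ :=
    integrable_finsetSum _ fun t _ => integrable_finsetSum _ fun s _ => iB t s
  have eX : ∫ χ, X χ ∂μ = T * (2 * k * μ.real B) := by
    simp only [hX]
    rw [integral_finsetSum _ fun t _ => integrable_finsetSum _ fun s _ => iB t s]
    have : ∀ t ∈ range T, ∫ χ, ∑ s ∈ range (2 * k),
        (act (w t * uu ^ s) ⁻¹' B).indicator (fun _ => (1 : ℝ)) χ ∂μ = 2 * k * μ.real B := by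
      intro t _
      rw [integral_finsetSum _ fun s _ => iB t s]
      have : ∀ s ∈ range (2 * k), ∫ χ, (act (w t * uu ^ s) ⁻¹' B).indicator
          (fun _ => (1 : ℝ)) χ ∂μ = μ.real B := by
        intro s _
        rw [integral_indicator_const _ (measurable_act _ mB),
          (hμ _ (hw1 t s)).measureReal_preimage mB.nullMeasurableSet]
        simp
      rw [sum_congr rfl this]
      simp
    rw [sum_congr rfl this]
    simp
  have hX0 : 0 ≤ᵐ[μ] X := Eventually.of_forall fun χ =>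
    sum_nonneg fun t _ => sum_nonneg fun s _ => Set.indicator_nonneg (fun _ _ => zero_le_one) _
  have a1 := mul_meas_ge_le_integral_of_nonneg hX0 iX (T * j)
  have hsub : {χ | ¬GoodT k ((T + 1) ^ 2) 1 χ} ⊆ {χ | (T * j : ℝ) ≤ X χ} := by
    intro χ hχ
    have b1 := hN (2 * k) θ hθ0.le (range T) (fun t => act (w t) χ)
      fun t _ t' ht' htt η hη hc => hχ (good_of_close htt (mem_range.1 ht') hη hc)
    set e : ℕ → ℕ := fun t =>
      ((range (2 * k)).filter fun s => act (uu ^ s) (act (w t) χ) ∈ B).card with he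
    have b2 : X χ = ∑ t ∈ range T, (e t : ℝ) := by
      simp only [hX, he, act_act]
      refine sum_congr rfl fun t _ => ?_
      rw [card_filter]
      push_cast
      refine sum_congr rfl fun s _ => ?_
      simp [Set.indicator_apply]
    have p0 : 0 < θ ^ (2 * j) := by positivity
    have b3 : ∀ t, 2 * j * (θ ^ (2 * j) - θ ^ e t) ≤ e t * θ ^ (2 * j) := by
      intro t
      rcases le_total (e t) (2 * j) with h | h
      · have := pow_le_pow_of_le_one hθ0.le hθ1 h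
        have c1 : (0 : ℝ) ≤ e t * θ ^ (2 * j) := by positivity
        have c2 : (0 : ℝ) ≤ 2 * j := by positivity
        nlinarith
      · have c1 : (2 * j : ℝ) ≤ e t := by exact_mod_cast h
        have c2 : (0 : ℝ) ≤ 2 * j * θ ^ e t := by positivity
        nlinarith
    have b4 := sum_le_sum fun t (_ : t ∈ range T) => b3 t
    rw [← mul_sum, sum_sub_distrib, ← sum_mul, ← b2] at b4
    simp only [sum_const, card_range, nsmul_eq_mul] at b4
    have c2 : (0 : ℝ) ≤ j := by positivity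
    refine le_of_mul_le_mul_right (a := θ ^ (2 * j)) ?_ p0
    change ∑ t ∈ range T, θ ^ e t ≤ _ at b1
    nlinarith
  have a2 := measureReal_mono (μ := μ) hsub
  rw [eX] at a1
  have p1 : (0 : ℝ) < T * j := by positivity
  refine a2.trans (le_of_mul_le_mul_left (a1.trans ?_) p1)
  rw [le_div_iff₀ (by positivity)] at hB
  rw [hk]
  push_cast
  nlinarith

end Pool.Agent.P.MP_8b2bd9_co
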