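import Pool.Agent.P.MP_8b2bd9_co.Main

/-! From invariant measures to a finite family of rotations. -/

set_option autoImplicit false

open Complex Finset MeasureTheory Filter Topology BoundedContinuousFunction

noncomputable section

namespace Pool.Agent.P.MP_8b2bd9_co

lemma folner (F : Finset K) (ε : ℝ) (hε : 0 < ε) :
    ∃ (ι : Type) (_ : Fintype ι) (_ : Nonempty ι) (v : ι → K),
      ((∀ w ∈ F, ‖(w : ℂ)‖ = 1) → ∀ j, ‖(v j : ℂ)‖ = 1) ∧
      ∀ w ∈ F, ∀ g : K → ℝ, (∀ x, |g x| ≤ 1) →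
        |∑ j, g (v j * w) - ∑ j, g (v j)| ≤ ε * Fintype.card ι := by
  classical
  induction F using Finset.induction_on with
  | empty => exact ⟨Unit, inferInstance, inferInstance, fun _ => 1, by simp, by simp⟩
  | insert w F _ ih =>
    obtain ⟨ι, _, _, v, h1, h2⟩ := ih
    obtain ⟨n, hn⟩ := exists_nat_gt (2 / ε)
    have hn0 : (0 : ℝ) < n := lt_trans (by positivity) hn
    have : NeZero n := ⟨by rintro rfl; simp at hn0⟩
    refine ⟨ι × Fin n, inferInstance, inferInstance, fun p => v p.1 * w ^ (p.2 : ℕ),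
      fun h p => ?_, fun w' hw' g hg => ?_⟩
    · have a1 := h1 (fun x hx => h x (mem_insert_of_mem hx)) p.1
      have a2 := h w (mem_insert_self _ _)
      simp [a1, a2]
    · rw [Fintype.card_prod, Fintype.card_fin]
      push_cast
      rcases mem_insert.1 hw' with rfl | hw'
      · rw [← sum_sub_distrib, Fintype.sum_prod_type]
        refine (abs_sum_le_sum_abs _ _).trans ?_
        have : ∀ i, |∑ j : Fin n, (g (v i * w' ^ (j : ℕ) * w') - g (v i * w' ^ (j : ℕ)))| ≤
            ε * n := by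
          intro i
          simp only [mul_assoc, ← pow_succ]
          rw [Fin.sum_univ_eq_sum_range (fun j => g (v i * w' ^ (j + 1)) - g (v i * w' ^ j)),
            sum_range_sub (fun j => g (v i * w' ^ j))]
          refine (abs_sub _ _).trans ?_
          rw [div_lt_iff₀ hε] at hn
          linarith [hg (v i * w' ^ n), hg (v i * w' ^ 0)]
        refine (sum_le_sum fun i _ => this i).trans (le_of_eq ?_)
        simp; ring
      · rw [← sum_sub_distrib, Fintype.sum_prod_type_right]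
        refine (abs_sum_le_sum_abs _ _).trans ?_
        have : ∀ j : Fin n, |∑ i, (g (v i * w ^ (j : ℕ) * w') - g (v i * w ^ (j : ℕ)))| ≤
            ε * Fintype.card ι := by
          intro j
          rw [sum_sub_distrib]
          simpa only [mul_right_comm _ w'] using h2 w' hw' (fun x => g (x * w ^ (j : ℕ)))
            fun x => hg _
        refine (sum_le_sum fun j _ => this j).trans (le_of_eq ?_)
        simp; ring

lemma exists_unif {ι : Type} [Fintype ι] [Nonempty ι] (p : ι → Om) :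
    ∃ μ : ProbabilityMeasure Om, ∀ g : Om →ᵇ ℝ,
      ∫ χ, g χ ∂(μ : Measure Om) = (∑ j, g (p j)) / Fintype.card ι := by
  have h0 : (Fintype.card ι : ENNReal) ≠ 0 := by simp
  refine ⟨⟨(Fintype.card ι : ENNReal)⁻¹ • ∑ j, Measure.dirac (p j), ⟨?_⟩⟩, fun g => ?_⟩
  · simp [ENNReal.inv_mul_cancel h0]
  · simp only [ProbabilityMeasure.coe_mk]
    rw [integral_smul_measure, integral_finsetSum_measure fun j _ => g.integrable _]
    simp [div_eq_inv_mul]

theorem finite_family (r : ℕ) : ∃ d : ℕ → ℕ, (∀ i, 0 < d i) ∧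
    ∃ (ι : Type) (_ : Fintype ι) (_ : Nonempty ι) (v : ι → K), (∀ j, ‖(v j : ℂ)‖ = 1) ∧
      ∀ χ : Om, -(Fintype.card ι : ℝ) ≤ ∑ j, Psi r d (act (v j) χ) := by
  classical
  obtain ⟨d, hd, h⟩ := spectral r
  refine ⟨d, hd, ?_⟩
  by_contra hcon
  push Not at hcon
  set P : Om →ᵇ ℝ := mkOfCompact ⟨Psi r d, continuous_Psi r d⟩ with hP
  set ac : K → C(Om, Om) := fun w => ⟨act w, continuous_act w⟩ with hac
  have key : ∀ i : Finset {w : K // ‖(w : ℂ)‖ = 1} × ℕ, ∃ μ : ProbabilityMeasure Om,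
      ∫ χ, P χ ∂(μ : Measure Om) ≤ -1 ∧ ∀ w ∈ i.1, ∀ g : Om →ᵇ ℝ, (∀ χ, |g χ| ≤ 1) →
        |∫ χ, g.compContinuous (ac w) χ ∂(μ : Measure Om) - ∫ χ, g χ ∂(μ : Measure Om)| ≤
          1 / (i.2 + 1 : ℝ) := by
    intro i
    obtain ⟨ι, _, _, v, h1, h2⟩ := folner (i.1.image Subtype.val) (1 / (i.2 + 1 : ℝ))
      (by positivity)
    obtain ⟨χ, hχ⟩ := hcon ι inferInstance inferInstance v (h1 (by
      intro w hw
      obtain ⟨w', -, rfl⟩ := mem_image.1 hw
      exact w'.2))
    obtain ⟨μ, hμ⟩ := exists_unif fun j => act (v j) χ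
    have hc : (0 : ℝ) < Fintype.card ι := by exact_mod_cast Fintype.card_pos
    refine ⟨μ, ?_, fun w hw g hg => ?_⟩
    · rw [hμ, div_le_iff₀ hc]
      simpa [hP] using hχ.le
    · rw [hμ, hμ, ← sub_div, abs_div, abs_of_pos hc, div_le_iff₀ hc]
      simpa [hac, act_act] using h2 w (mem_image_of_mem _ hw) (fun x => g (act x χ))
        fun x => hg _
  choose M hM1 hM2 using key
  set U := Ultrafilter.of (atTop : Filter (Finset {w : K // ‖(w : ℂ)‖ = 1} × ℕ)) with hU
  have hUle : (U : Filter (Finset {w : K // ‖(w : ℂ)‖ = 1} × ℕ)) ≤ atTop := Ultrafilter.of_le _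
  obtain ⟨μ, -, hμ⟩ := isCompact_univ.ultrafilter_le_nhds (U.map M) (by simp)
  have ht : Tendsto M U (𝓝 μ) := hμ
  rw [ProbabilityMeasure.tendsto_iff_forall_integral_tendsto] at ht
  have a1 : ∫ χ, P χ ∂(μ : Measure Om) ≤ -1 := le_of_tendsto' (ht P) hM1
  have a2 : UInv (μ : Measure Om) := by
    intro w hw
    refine ⟨measurable_act w, ?_⟩
    have key2 : ∀ g : Om →ᵇ ℝ, (∀ χ, |g χ| ≤ 1) →
        ∫ χ, g (act w χ) ∂(μ : Measure Om) = ∫ χ, g χ ∂(μ : Measure Om) := by
      intro g hg
      rw [← sub_eq_zero, ← abs_nonpos_iff]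
      refine le_of_forall_pos_le_add fun ε hε => ?_
      obtain ⟨n, hn⟩ := exists_nat_one_div_lt hε
      refine le_of_tendsto ((ht (g.compContinuous (ac w))).sub (ht g)).abs ?_
      filter_upwards [hUle (eventually_ge_atTop ({⟨w, hw⟩}, n))] with i hi
      refine (hM2 i ⟨w, hw⟩ (hi.1 (mem_singleton_self _)) g hg).trans ?_
      have : (n : ℝ) ≤ i.2 := by exact_mod_cast hi.2
      have := one_div_le_one_div_of_le (by positivity) (show (n : ℝ) + 1 ≤ i.2 + 1 by linarith)
      linarith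
    refine ext_of_forall_integral_eq_of_IsFiniteMeasure fun g => ?_
    rw [integral_map (measurable_act w).aemeasurable g.continuous.aestronglyMeasurable]
    have p : 0 < ‖g‖ + 1 := by positivity
    have := key2 ((‖g‖ + 1)⁻¹ • g) fun χ => by
      simp only [BoundedContinuousFunction.coe_smul, smul_eq_mul]
      rw [abs_mul, abs_of_pos (inv_pos.2 p), inv_mul_le_iff₀ p]
      have := g.norm_coe_le_norm χ
      rw [Real.norm_eq_abs] at this
      linarith
    simp only [BoundedContinuousFunction.coe_smul, smul_eq_mul, integral_const_mul] at this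
    exact mul_left_cancel₀ (inv_pos.2 p).ne' this
  have := h μ inferInstance a2
  simp only [hP, mkOfCompact_apply, ContinuousMap.coe_mk] at a1
  linarith

end Pool.Agent.P.MP_8b2bd9_co
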