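import Pool.Agent.P.MP_8b2bd9_co.Basic

/-! Finite Fourier analysis on `ZMod N × ZMod N`. -/

set_option autoImplicit false

open Complex Finset

noncomputable section

namespace Pool.Agent.P.MP_8b2bd9_co

variable {N : ℕ} [NeZero N]

lemma norm_std (x : ZMod N) : ‖ZMod.stdAddChar x‖ = 1 := by
  rw [ZMod.stdAddChar_apply]; exact Circle.norm_coe _

lemma std_eq_one_iff (x : ZMod N) : ZMod.stdAddChar x = 1 ↔ x = 0 := by
  rw [← (ZMod.stdAddChar (N := N)).map_zero_eq_one, ZMod.injective_stdAddChar.eq_iff]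

lemma std_intCast (j : ℤ) : ZMod.stdAddChar (j : ZMod N) = ee (j / N) := by
  rw [ZMod.stdAddChar_coe, ee]; congr 1; push_cast; ring

lemma conj_std (x : ZMod N) : (starRingEnd ℂ) (ZMod.stdAddChar x) = ZMod.stdAddChar (-x) := by
  rw [AddChar.map_neg_eq_conj]

/-- The standard pairing on `ZMod N × ZMod N`. -/
def dot (y v : ZMod N × ZMod N) : ZMod N := y.1 * v.1 + y.2 * v.2

lemma sum_std_dot (v : ZMod N × ZMod N) :
    ∑ y : ZMod N × ZMod N, ZMod.stdAddChar (dot y v) = if v = 0 then (N : ℂ) ^ 2 else 0 := by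
  simp only [dot, AddChar.map_add_eq_mul]
  rw [Fintype.sum_prod_type]
  simp only [← mul_sum, ← sum_mul]
  rw [AddChar.sum_mulShift _ (ZMod.isPrimitive_stdAddChar N),
    AddChar.sum_mulShift _ (ZMod.isPrimitive_stdAddChar N), ZMod.card]
  by_cases h1 : v.1 = 0 <;> by_cases h2 : v.2 = 0 <;> simp [h1, h2, Prod.ext_iff, sq]

lemma parseval2 {ι : Type*} (T : Finset ι) (v : ι → ZMod N × ZMod N) (a : ι → ℂ)
    (w : ZMod N × ZMod N) :
    ∑ y : ZMod N × ZMod N, ZMod.stdAddChar (dot y w) *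
        ((‖∑ i ∈ T, a i * ZMod.stdAddChar (dot y (v i))‖ ^ 2 : ℝ) : ℂ) =
      (N : ℂ) ^ 2 * ∑ i ∈ T, ∑ j ∈ T,
        if v i - v j + w = 0 then a i * (starRingEnd ℂ) (a j) else 0 := by
  have h1 : ∀ y : ZMod N × ZMod N, ZMod.stdAddChar (dot y w) *
      ((‖∑ i ∈ T, a i * ZMod.stdAddChar (dot y (v i))‖ ^ 2 : ℝ) : ℂ) =
      ∑ i ∈ T, ∑ j ∈ T, a i * (starRingEnd ℂ) (a j) *
        ZMod.stdAddChar (dot y (v i - v j + w)) := by
    intro y
    rw [Complex.ofReal_pow, ← Complex.mul_conj', map_sum, sum_mul_sum, mul_sum]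
    refine sum_congr rfl fun i _ => ?_
    rw [mul_sum]
    refine sum_congr rfl fun j _ => ?_
    rw [map_mul, conj_std]
    have : dot y (v i - v j + w) = dot y w + dot y (v i) + -dot y (v j) := by
      simp only [dot, Prod.fst_add, Prod.fst_sub, Prod.snd_add, Prod.snd_sub]; ring
    rw [this, AddChar.map_add_eq_mul, AddChar.map_add_eq_mul]
    ring
  simp only [h1]
  rw [sum_comm, mul_sum]
  refine sum_congr rfl fun i _ => ?_
  rw [sum_comm, mul_sum]
  refine sum_congr rfl fun j _ => ?_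
  rw [← mul_sum, sum_std_dot]
  split_ifs <;> ring

end Pool.Agent.P.MP_8b2bd9_co
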