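import Pool.Agent.P.MP_8b2bd9_co.Folner

/-! The Hoffman bound on `ℤ²` and the lower bound for the chromatic number. -/

set_option autoImplicit false

open Complex Finset Filter Topology

noncomputable section

namespace Pool.Agent.P.MP_8b2bd9_co

lemma parseval_re {N : ℕ} [NeZero N] {ι : Type*} (T : Finset ι) (v : ι → ZMod N × ZMod N)
    (a : ι → ℝ) (w : ZMod N × ZMod N) :
    ∑ y : ZMod N × ZMod N, (ZMod.stdAddChar (dot y w)).re *
        ‖∑ i ∈ T, (a i : ℂ) * ZMod.stdAddChar (dot y (v i))‖ ^ 2 =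
      (N : ℝ) ^ 2 * ∑ i ∈ T, ∑ j ∈ T, if v i - v j + w = 0 then a i * a j else 0 := by
  have h := parseval2 T v (fun i => (a i : ℂ)) w
  have e : ((N : ℂ) ^ 2 * ∑ i ∈ T, ∑ j ∈ T,
      if v i - v j + w = 0 then (a i : ℂ) * (starRingEnd ℂ) (a j : ℂ) else 0) =
      (((N : ℝ) ^ 2 * ∑ i ∈ T, ∑ j ∈ T, if v i - v j + w = 0 then a i * a j else 0 : ℝ) : ℂ) := by
    push_cast
    congr 1
    refine sum_congr rfl fun i _ => sum_congr rfl fun j _ => ?_
    split_ifs <;> simp
  rw [e] at h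
  have := congrArg Complex.re h
  rw [Complex.ofReal_re, Complex.re_sum] at this
  simpa only [Complex.re_mul_ofReal] using this

lemma hoffman_fin {κ : Type} [Fintype κ] (w : κ → ℤ × ℤ) (a : κ → ℝ) (ha : ∀ k, 0 ≤ a k) (A : ℝ)
    (hpos : ∀ α β : ℝ, 0 ≤ A + ∑ k, a k * (ee (α * (w k).1 + β * (w k).2)).re)
    {m : ℕ} (c : ℤ × ℤ → Fin m) (hc : ∀ p k, c p ≠ c (p + w k)) (R : ℕ)
    (hR : ∀ k, |(w k).1| ≤ R ∧ |(w k).2| ≤ R) (L : ℕ) :
    (L : ℝ) ^ 2 * ∑ k, a k ≤ A * (m - 1) * (L + 2 * R) ^ 2 := by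
  classical
  have hm : (0 : ℝ) < m := by exact_mod_cast (c 0).pos
  set N := L + 3 * R + 1 with hN
  have : NeZero N := ⟨by omega⟩
  have hN0 : (0 : ℝ) < N := by positivity
  set T : Finset (ℤ × ℤ) := Ioc (0 : ℤ) (L + 2 * R) ×ˢ Ioc (0 : ℤ) (L + 2 * R) with hT
  set v : ℤ × ℤ → ZMod N × ZMod N := fun p => (p.1, p.2) with hv
  set f : Fin m → ℤ × ℤ → ℝ := fun s p => (if c p = s then 1 else 0) - 1 / m with hf
  set F : Fin m → ZMod N × ZMod N → ℝ := fun s y =>
    ‖∑ p ∈ T, (f s p : ℂ) * ZMod.stdAddChar (dot y (v p))‖ ^ 2 with hF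
  have hff : ∀ p q, ∑ s, f s p * f s q = (if c p = c q then 1 else 0) - 1 / m := by
    intro p q
    simp only [hf, sub_mul, mul_sub, sum_sub_distrib, ← sum_mul, ← mul_sum]
    simp only [ite_mul, one_mul, zero_mul, sum_ite_eq, mem_univ, if_true, sum_const, card_univ,
      Fintype.card_fin, nsmul_eq_mul]
    simp only [eq_comm]
    field_simp
    ring
  have hz : ∀ x : ℤ, |x| < N → ((x : ZMod N) = 0 ↔ x = 0) := by
    intro x hx
    rw [ZMod.intCast_zmod_eq_zero_iff_dvd]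
    exact ⟨fun h => Int.eq_zero_of_abs_lt_dvd h hx, by rintro rfl; simp⟩
  have hcond : ∀ u : ℤ × ℤ, |u.1| ≤ R → |u.2| ≤ R → ∀ p ∈ T, ∀ q ∈ T,
      (v p - v q + v u = 0 ↔ p + u = q) := by
    intro u h1 h2 p hp q hq
    simp only [hT, mem_product, mem_Ioc] at hp hq
    have e : v p - v q + v u = (((p.1 - q.1 + u.1 : ℤ) : ZMod N), ((p.2 - q.2 + u.2 : ℤ) : ZMod N)) := by
      simp [hv]
    rw [abs_le] at h1 h2
    rw [e, Prod.mk_eq_zero, hz _ (by rw [hN, abs_lt]; push_cast; omega),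
      hz _ (by rw [hN, abs_lt]; push_cast; omega), Prod.ext_iff]
    simp only [Prod.fst_add, Prod.snd_add]
    omega
  have hsum : ∀ u : ℤ × ℤ, |u.1| ≤ R → |u.2| ≤ R →
      ∑ y, (ZMod.stdAddChar (dot y (v u))).re * ∑ s, F s y = (N : ℝ) ^ 2 * ∑ p ∈ T,
        if p + u ∈ T then (if c p = c (p + u) then 1 else 0) - 1 / (m : ℝ) else 0 := by
    intro u h1 h2
    simp only [mul_sum]
    rw [sum_comm]
    simp only [hF, parseval_re, ← mul_sum]
    congr 1
    rw [sum_comm]
    refine sum_congr rfl fun p hp => ?_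
    rw [sum_comm, ← sum_ite_eq T (p + u) (fun q => (if c p = c q then 1 else 0) - 1 / (m : ℝ))]
    refine sum_congr rfl fun q hq => ?_
    simp only [hcond u h1 h2 p hp q hq]
    split_ifs with h h'
    · rw [hff, if_pos h']
    · rw [hff, if_neg h']
    · simp
  have h0 := hsum 0 (by simp) (by simp)
  have hcard : (T.card : ℝ) = (L + 2 * R) ^ 2 := by
    rw [hT, card_product, Int.card_Ioc]
    have : ((L : ℤ) + 2 * R - 0).toNat = L + 2 * R := by omega
    rw [this]; push_cast; ring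
  have h0' : ∑ y, ∑ s, F s y = (N : ℝ) ^ 2 * ((L + 2 * R) ^ 2 * (1 - 1 / m)) := by
    rw [← hcard]
    simp only [hv, dot, Prod.fst_zero, Prod.snd_zero, Int.cast_zero, mul_zero, add_zero,
      AddChar.map_zero_eq_one, one_re, one_mul, if_true] at h0
    rw [h0, sum_congr rfl fun p hp => if_pos hp, sum_const, nsmul_eq_mul]
  have hk : ∀ k, ∑ y, (ZMod.stdAddChar (dot y (v (w k)))).re * ∑ s, F s y ≤
      (N : ℝ) ^ 2 * (-(L ^ 2 / m)) := by
    intro k
    rw [hsum _ (hR k).1 (hR k).2]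
    refine mul_le_mul_of_nonneg_left ?_ (by positivity)
    simp only [if_neg (hc _ k), zero_sub]
    rw [← sum_filter, sum_const, nsmul_eq_mul, mul_neg, neg_le_neg_iff, mul_one_div]
    refine div_le_div_of_nonneg_right ?_ hm.le
    have hsub : Ioc (R : ℤ) (L + R) ×ˢ Ioc (R : ℤ) (L + R) ⊆ T.filter fun p => p + w k ∈ T := by
      intro p hp
      have h1 := abs_le.1 (hR k).1
      have h2 := abs_le.1 (hR k).2
      simp only [hT, mem_product, mem_Ioc, mem_filter, Prod.fst_add, Prod.snd_add] at hp ⊢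
      omega
    have := card_le_card hsub
    rw [card_product, Int.card_Ioc] at this
    have e : ((L : ℤ) + R - R).toNat = L := by omega
    rw [e, ← sq] at this
    exact_mod_cast this
  have hy : ∀ y : ZMod N × ZMod N,
      0 ≤ (A + ∑ k, a k * (ZMod.stdAddChar (dot y (v (w k)))).re) * ∑ s, F s y := by
    intro y
    refine mul_nonneg ?_ (sum_nonneg fun s _ => by positivity)
    refine (hpos (y.1.val / N) (y.2.val / N)).trans (le_of_eq ?_)
    congr 1
    refine sum_congr rfl fun k _ => ?_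
    have e : dot y (v (w k)) = ((y.1.val * (w k).1 + y.2.val * (w k).2 : ℤ) : ZMod N) := by
      simp [dot, hv]
    rw [e, std_intCast]
    congr 3
    push_cast
    ring
  have h1 := sum_nonneg fun y (_ : y ∈ univ) => hy y
  simp only [add_mul, sum_add_distrib, sum_mul, mul_assoc] at h1
  rw [sum_comm, ← mul_sum, h0'] at h1
  simp only [← mul_sum] at h1
  have h2 := sum_le_sum fun k (_ : k ∈ univ) => mul_le_mul_of_nonneg_left (hk k) (ha k)
  rw [← sum_mul] at h2
  have h3 : 0 ≤ (N : ℝ) ^ 2 / m * (A * (m - 1) * (L + 2 * R) ^ 2 - L ^ 2 * ∑ k, a k) := by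
    refine (h1.trans (add_le_add le_rfl h2)).trans (le_of_eq ?_)
    field_simp
    ring
  have := (mul_nonneg_iff_of_pos_left (by positivity)).1 h3
  linarith

lemma hoffman {κ : Type} [Fintype κ] (w : κ → ℤ × ℤ) (a : κ → ℝ) (ha : ∀ k, 0 ≤ a k) (A : ℝ)
    (hpos : ∀ α β : ℝ, 0 ≤ A + ∑ k, a k * (ee (α * (w k).1 + β * (w k).2)).re)
    {m : ℕ} (c : ℤ × ℤ → Fin m) (hc : ∀ p k, c p ≠ c (p + w k)) :
    ∑ k, a k ≤ A * (m - 1) := by
  obtain ⟨R, hR⟩ : ∃ R : ℕ, ∀ k, |(w k).1| ≤ R ∧ |(w k).2| ≤ R := by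
    refine ⟨univ.sup fun k => max (w k).1.natAbs (w k).2.natAbs, fun k => ?_⟩
    have := le_sup (f := fun k => max (w k).1.natAbs (w k).2.natAbs) (mem_univ k)
    simp only [← Int.natCast_natAbs]
    constructor <;> exact_mod_cast le_trans (by simp) this
  have h1 : Tendsto (fun L : ℕ => A * (m - 1) * (1 + 2 * R / (L : ℝ)) ^ 2) atTop
      (𝓝 (A * (m - 1) * (1 + 0) ^ 2)) :=
    ((tendsto_const_nhds.add (tendsto_const_div_atTop_nhds_zero_nat _)).pow 2).const_mul _
  rw [add_zero, one_pow, mul_one] at h1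
  refine ge_of_tendsto h1 ?_
  filter_upwards [eventually_gt_atTop 0] with L hL
  have hL' : (0 : ℝ) < L := by exact_mod_cast hL
  have := hoffman_fin w a ha A hpos c hc R hR L
  refine le_of_mul_le_mul_left (this.trans (le_of_eq ?_)) (by positivity : (0 : ℝ) < L ^ 2)
  field_simp

/-- The continuous characters. -/
def cch (y : ℂ) : Om :=
  ⟨fun x => ee (pair x y), fun _ => norm_ee _, fun x x' => by
    push_cast
    rw [pair_add_left, ee_add]⟩

theorem colour_bound (r : ℕ) : ∃ d : ℕ → ℕ, (∀ i, 0 < d i) ∧ ∀ (m : ℕ) (c : ℂ → Fin m),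
    (∀ x y : ℂ, ∀ i < r, ‖x - y‖ = d i → c x ≠ c y) → 2 ^ r + 1 ≤ 2 * m := by
  classical
  obtain ⟨d, hd, ι, _, _, v, hv, h⟩ := finite_family r
  refine ⟨d, hd, fun m c hc => ?_⟩
  choose g D hD e using fun j => K_frac (v j)
  set P : GaussianInt := ∏ j, D j with hP
  have hP0 : P ≠ 0 := prod_ne_zero_iff.2 fun j _ => hD j
  have hP1 : (P : ℂ) ≠ 0 := by
    rw [← coe_gi]; exact_mod_cast gi_ne_zero hP0
  have hG : ∀ j, ∃ G : GaussianInt, (P : ℂ) * v j = G := by
    intro j
    obtain ⟨t, ht⟩ : D j ∣ P := dvd_prod_of_mem _ (mem_univ j)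
    refine ⟨t * g j, ?_⟩
    have := congrArg (fun x : K => (x : ℂ)) (e j)
    simp only [Subfield.coe_mul, coe_gi] at this
    rw [ht, map_mul, map_mul, ← this]
    ring
  choose G hG using hG
  have hι : (0 : ℝ) < Fintype.card ι := by exact_mod_cast Fintype.card_pos
  have key := hoffman (κ := ι × Fin r) (fun k => ((G k.1).re * d k.2, (G k.1).im * d k.2))
    (fun k => 2 ^ (k.2 : ℕ)) (fun _ => by positivity) (2 * Fintype.card ι) (fun α β => by
      have h1 := h (cch ((starRingEnd ℂ) (P : ℂ) * (α + β * I)))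
      simp only [Psi, sum_add_distrib, sum_const, card_univ, nsmul_eq_mul, mul_one] at h1
      rw [Fintype.sum_prod_type]
      have : ∀ j, ∑ i ∈ range r, 2 ^ i * ((act (v j)
          (cch ((starRingEnd ℂ) (P : ℂ) * (α + β * I)))).1 (d i)).re =
          ∑ i : Fin r, 2 ^ (i : ℕ) *
            (ee (α * ((G j).re * d i : ℤ) + β * ((G j).im * d i : ℤ))).re := by
        intro j
        rw [Finset.sum_range]
        refine sum_congr rfl fun i _ => ?_
        rw [act_apply]
        simp only [cch]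
        rw [← pair_mul_left]
        push_cast
        rw [← mul_assoc, hG, pair_eq]
        congr 3
        simp
        ring
      simp only [this] at h1
      linarith)
    (fun p => c ((p.1 + p.2 * I) / P)) (fun p k => hc _ _ k.2 k.2.2 (by
      have e1 : ((p.1 : ℂ) + p.2 * I) / P - (((p + ((G k.1).re * d k.2, (G k.1).im * d k.2)).1 : ℂ) +
          ((p + ((G k.1).re * d k.2, (G k.1).im * d k.2)).2 : ℂ) * I) / P = -(v k.1 * d k.2) := by
        have := hG k.1
        rw [GaussianInt.toComplex_def (G k.1)] at this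
        simp only [Prod.fst_add, Prod.snd_add]
        push_cast
        field_simp
        linear_combination (d k.2 : ℂ) * this
      rw [e1, norm_neg, norm_mul, hv]
      simp))
  rw [Fintype.sum_prod_type] at key
  simp only [sum_const, card_univ, nsmul_eq_mul] at key
  rw [← Finset.sum_range (fun i => (2 : ℝ) ^ i), sum_two_pow] at key
  have : (2 : ℝ) ^ r + 1 ≤ 2 * m := by nlinarith
  exact_mod_cast this

end Pool.Agent.P.MP_8b2bd9_co
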