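import Pool.Agent.P.MP_8b2bd9_co.Four

/-! The deterministic part of an invariant measure. -/

set_option autoImplicit false

open Complex Finset MeasureTheory

noncomputable section

namespace Pool.Agent.P.MP_8b2bd9_co

/-- Restriction of a character to the valuation ring. -/
def res (χ : Om) : A0 → ℂ := fun f => χ.1 f

/-- The sigma-algebra generated by the values on the valuation ring. -/
@[reducible] def m0 : MeasurableSpace Om := MeasurableSpace.comap res inferInstance

lemma continuous_res : Continuous res := continuous_pi fun f => continuous_ev f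

lemma m0_le : m0 ≤ (Subtype.instMeasurableSpace : MeasurableSpace Om) :=
  continuous_res.measurable.comap_le

lemma meas0_ev {f : K} (hf : f ∈ A0) : Measurable[m0] (fun χ : Om => χ.1 f) :=
  (measurable_pi_apply (⟨f, hf⟩ : A0)).comp (comap_measurable res)

lemma meas0_act {w : K} (hw : w ∈ A0) : @Measurable Om Om m0 m0 (act w) := by
  rw [measurable_comap_iff]
  exact @measurable_pi_lambda Om _ _ m0 _ _ fun f => meas0_ev (A0.mul_mem hw f.2)

/-- A predictor: a function of the restriction to `A0`, bounded by one. -/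
structure IsPred (G : Om → ℂ) : Prop where
  meas : Measurable[m0] G
  bound : ∀ χ, ‖G χ‖ ≤ 1

lemma IsPred.measurable {G : Om → ℂ} (h : IsPred G) : Measurable G := h.meas.mono m0_le le_rfl

lemma IsPred.pow_mul {G : Om → ℂ} (h : IsPred G) (c : ℕ) {f : K} (hf : f ∈ A0) :
    IsPred (fun χ => G χ ^ c * χ.1 f) := by
  refine ⟨(h.meas.pow_const c).mul (meas0_ev hf), fun χ => ?_⟩
  rw [norm_mul, Om.norm, mul_one, norm_pow]
  exact pow_le_one₀ (norm_nonneg _) (h.bound χ)

lemma IsPred.comp {G : Om → ℂ} (h : IsPred G) {w : K} (hw : w ∈ A0) :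
    IsPred (fun χ => G (act w χ)) :=
  ⟨h.meas.comp (meas0_act hw), fun _ => h.bound _⟩

lemma Om.nat_mul_add (χ : Om) (c : ℕ) (x f : K) : χ.1 (c * x + f) = χ.1 x ^ c * χ.1 f := by
  rw [Om.add, Om.nat_mul]

variable (μ : Measure Om) [IsFiniteMeasure μ]

lemma integrable_ev (b : K) : Integrable (fun χ : Om => χ.1 b) μ :=
  Integrable.of_bound (measurable_ev b).aestronglyMeasurable 1
    (Filter.Eventually.of_forall fun χ => (Om.norm χ b).le)

lemma pull {h : Om → ℂ} (hh : IsPred h) {f : Om → ℂ} (hf : Integrable f μ) :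
    ∫ χ, h χ * f χ ∂μ = ∫ χ, h χ * (μ[f | m0]) χ ∂μ := by
  have hfg : Integrable (fun χ => h χ * f χ) μ :=
    hf.bdd_mul hh.measurable.aestronglyMeasurable (Filter.Eventually.of_forall hh.bound)
  have := condExp_bilin_of_aestronglyMeasurable_left (ContinuousLinearMap.mul ℝ ℂ)
    hh.meas.aestronglyMeasurable hfg hf
  simp only [ContinuousLinearMap.mul_apply'] at this
  rw [← integral_condExp m0_le, integral_congr_ae this]

lemma pullR {E : Type} [NormedAddCommGroup E] [NormedSpace ℝ E] [CompleteSpace E]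
    {h : Om → E} (hh : StronglyMeasurable[m0] h) (hb : ∀ χ, ‖h χ‖ ≤ 1) {f : Om → ℝ}
    (hf : Integrable f μ) : ∫ χ, f χ • h χ ∂μ = ∫ χ, (μ[f | m0]) χ • h χ ∂μ := by
  have hfg : Integrable (f • h) μ :=
    hf.smul_bdd 1 (hh.mono m0_le).aestronglyMeasurable (Filter.Eventually.of_forall hb)
  have := condExp_smul_of_aestronglyMeasurable_right hf hfg hh.aestronglyMeasurable
  have h2 := integral_condExp (μ := μ) (f := f • h) m0_le
  rw [integral_congr_ae this] at h2
  exact h2.symm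

/-- The conditional expectation of a coordinate. -/
def gb (b : K) : Om → ℂ := μ[fun χ : Om => χ.1 b | m0]

omit [IsFiniteMeasure μ] in
lemma gb_meas (b : K) : Measurable[m0] (gb μ b) := stronglyMeasurable_condExp.measurable

omit [IsFiniteMeasure μ] in
lemma gb_int (b : K) : Integrable (gb μ b) μ := integrable_condExp

omit [IsFiniteMeasure μ] in
lemma gb_le (b : K) : ∀ᵐ χ ∂μ, ‖gb μ b χ‖ ≤ 1 :=
  ae_bdd_norm_condExp_of_ae_bdd_norm (Filter.Eventually.of_forall fun χ => (Om.norm χ b).le)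

lemma pull_re {F : Set Om} (hF : MeasurableSet[m0] F) {G : Om → ℂ} (hG : Measurable[m0] G)
    (hb : ∀ χ ∈ F, ‖G χ‖ ≤ 1) (b : K) :
    ∫ χ in F, (1 - ((starRingEnd ℂ) (G χ) * χ.1 b).re) ∂μ =
      ∫ χ in F, (1 - ((starRingEnd ℂ) (G χ) * gb μ b χ).re) ∂μ ∧
    IntegrableOn (fun χ => 1 - ((starRingEnd ℂ) (G χ) * χ.1 b).re) F μ ∧
    IntegrableOn (fun χ => 1 - ((starRingEnd ℂ) (G χ) * gb μ b χ).re) F μ := by
  have hF' := m0_le F hF
  have hc : Measurable[m0] (fun χ => (starRingEnd ℂ) (G χ)) :=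
    Complex.continuous_conj.measurable.comp hG
  have hh : IsPred (F.indicator fun χ => (starRingEnd ℂ) (G χ)) := by
    refine ⟨hc.indicator hF, fun χ => ?_⟩
    by_cases h : χ ∈ F
    · rw [Set.indicator_of_mem h, Complex.norm_conj]; exact hb χ h
    · rw [Set.indicator_of_notMem h]; simp
  have h1 := pull μ hh (integrable_ev μ b)
  have e0 : ∀ f : Om → ℂ, ∫ χ, F.indicator (fun χ => (starRingEnd ℂ) (G χ)) χ * f χ ∂μ =
      ∫ χ in F, (starRingEnd ℂ) (G χ) * f χ ∂μ := by
    intro f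
    rw [← integral_indicator hF']
    congr 1
    funext χ
    by_cases h : χ ∈ F <;> simp [h]
  rw [e0, e0] at h1
  have key : ∀ f : Om → ℂ, Integrable f μ →
      IntegrableOn (fun χ => (starRingEnd ℂ) (G χ) * f χ) F μ := by
    intro f hf
    refine Integrable.bdd_mul (c := 1) hf.integrableOn (hc.mono m0_le le_rfl).aestronglyMeasurable ?_
    filter_upwards [ae_restrict_mem hF'] with χ hχ
    rw [Complex.norm_conj]; exact hb χ hχ
  have i1 := key _ (integrable_ev μ b)
  have i2 := key _ (gb_int μ b)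
  have r1 : IntegrableOn (fun χ => ((starRingEnd ℂ) (G χ) * χ.1 b).re) F μ := i1.re
  have r2 : IntegrableOn (fun χ => ((starRingEnd ℂ) (G χ) * gb μ b χ).re) F μ := i2.re
  refine ⟨?_, (integrable_const 1).sub r1, (integrable_const 1).sub r2⟩
  rw [integral_sub (integrable_const 1) r1, integral_sub (integrable_const 1) r2]
  have e1 := integral_re i1
  have e2 := integral_re i2
  simp only [RCLike.re_to_complex] at e1 e2
  rw [e1, e2, h1]
  rfl

lemma pinq {F : Set Om} (hF : MeasurableSet[m0] F) {G : Om → ℂ} (hG : IsPred G) (b : K) :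
    ∫ χ in F, (1 - ‖gb μ b χ‖) ∂μ ≤ 2 * μ.real (F ∩ {χ | χ.1 b ≠ G χ}) := by
  obtain ⟨h1, h2, h3⟩ := pull_re μ hF hG.meas (fun χ _ => hG.bound χ) b
  have hN : MeasurableSet {χ : Om | χ.1 b ≠ G χ} :=
    (measurableSet_eq_fun (measurable_ev b) hG.measurable).compl
  calc ∫ χ in F, (1 - ‖gb μ b χ‖) ∂μ
      ≤ ∫ χ in F, (1 - ((starRingEnd ℂ) (G χ) * gb μ b χ).re) ∂μ := by
        refine integral_mono ((integrable_const 1).sub (gb_int μ b).norm.integrableOn) h3
          fun χ => ?_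
        have a1 := Complex.re_le_norm ((starRingEnd ℂ) (G χ) * gb μ b χ)
        rw [norm_mul, Complex.norm_conj] at a1
        have a2 := mul_le_of_le_one_left (norm_nonneg (gb μ b χ)) (hG.bound χ)
        simp only
        linarith
    _ = ∫ χ in F, (1 - ((starRingEnd ℂ) (G χ) * χ.1 b).re) ∂μ := h1.symm
    _ ≤ ∫ χ in F, {χ : Om | χ.1 b ≠ G χ}.indicator (fun _ => (2 : ℝ)) χ ∂μ := by
        refine integral_mono h2 ((integrable_const 2).indicator hN) fun χ => ?_
        by_cases h : χ.1 b = G χ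
        · rw [Set.indicator_of_notMem (by simpa using h)]
          simp only
          rw [← h, Complex.conj_mul', Om.norm]
          simp
        · rw [Set.indicator_of_mem (by simpa using h)]
          have a1 := (abs_le.1 (Complex.abs_re_le_norm ((starRingEnd ℂ) (G χ) * χ.1 b))).1
          rw [norm_mul, Complex.norm_conj, Om.norm, mul_one] at a1
          have := hG.bound χ
          simp only
          linarith
    _ = 2 * μ.real (F ∩ {χ | χ.1 b ≠ G χ}) := by
        rw [integral_indicator hN, setIntegral_const, measureReal_restrict_apply hN,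
          Set.inter_comm, smul_eq_mul, mul_comm]

/-- The deterministic set. -/
def Pred : Set Om := {χ | ∀ s : ℕ, ‖gb μ (uu ^ s) χ‖ = 1}

omit [IsFiniteMeasure μ] in
lemma pred_meas0 : MeasurableSet[m0] (Pred μ) := by
  have : Pred μ = ⋂ s : ℕ, {χ | ‖gb μ (uu ^ s) χ‖ = 1} := by ext; simp [Pred]
  rw [this]
  refine MeasurableSet.iInter fun s => ?_
  have h : Measurable[m0] (fun χ => ‖gb μ (uu ^ s) χ‖) := measurable_norm.comp (gb_meas μ _)
  exact h (measurableSet_singleton 1)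

omit [IsFiniteMeasure μ] in
lemma pred_meas : MeasurableSet (Pred μ) := m0_le _ (pred_meas0 μ)

lemma det1 (s : ℕ) : ∀ᵐ χ ∂μ, χ ∈ Pred μ → χ.1 (uu ^ s) = gb μ (uu ^ s) χ := by
  obtain ⟨h1, h2, -⟩ := pull_re μ (pred_meas0 μ) (gb_meas μ (uu ^ s)) (fun χ h => (h s).le) (uu ^ s)
  have h3 : ∫ χ in Pred μ, (1 - ((starRingEnd ℂ) (gb μ (uu ^ s) χ) * gb μ (uu ^ s) χ).re) ∂μ = 0 := by
    refine setIntegral_eq_zero_of_forall_eq_zero fun χ hχ => ?_
    rw [Complex.conj_mul', hχ s]; simp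
  rw [h3, setIntegral_eq_zero_iff_of_nonneg_ae _ h2] at h1
  · rw [Filter.EventuallyEq, ae_restrict_iff' (pred_meas μ)] at h1
    filter_upwards [h1] with χ hχ hP
    have a1 := hχ hP
    have a2 := hP s
    have a3 := Om.norm χ (uu ^ s)
    generalize χ.1 (uu ^ s) = x at *
    generalize gb μ (uu ^ s) χ = y at *
    have b2 : y.re ^ 2 + y.im ^ 2 = 1 := by
      have := Complex.sq_norm_sub_sq_im y
      rw [a2] at this; linarith
    have b3 : x.re ^ 2 + x.im ^ 2 = 1 := by
      have := Complex.sq_norm_sub_sq_im x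
      rw [a3] at this; linarith
    simp at a1
    apply Complex.ext <;> nlinarith [sq_nonneg (x.re - y.re), sq_nonneg (x.im - y.im)]
  · filter_upwards [ae_restrict_mem (pred_meas μ)] with χ hχ
    have a1 := Complex.re_le_norm ((starRingEnd ℂ) (gb μ (uu ^ s) χ) * χ.1 (uu ^ s))
    rw [norm_mul, Complex.norm_conj, Om.norm, hχ s] at a1
    simp only [Pi.zero_apply]
    linarith

lemma det_all (b : K) : ∃ G, IsPred G ∧ ∀ᵐ χ ∂μ, χ ∈ Pred μ → χ.1 b = G χ := by
  obtain ⟨s, hs⟩ := exists_level b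
  obtain ⟨c, f, hf, rfl⟩ := exists_nat_sub_mem s b hs
  have h0 : IsPred ((Pred μ).indicator (gb μ (uu ^ s))) := by
    refine ⟨(gb_meas μ _).indicator (pred_meas0 μ), fun χ => ?_⟩
    by_cases h : χ ∈ Pred μ
    · rw [Set.indicator_of_mem h]; exact (h s).le
    · rw [Set.indicator_of_notMem h]; simp
  refine ⟨_, h0.pow_mul c hf, ?_⟩
  filter_upwards [det1 μ s] with χ hχ hP
  rw [Om.nat_mul_add, Set.indicator_of_mem hP, hχ hP]

lemma det2 {B : Set Om} (hB : MeasurableSet[m0] B)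
    (h : ∀ s : ℕ, ∃ G, IsPred G ∧ ∀ᵐ χ ∂μ, χ ∈ B → χ.1 (uu ^ s) = G χ) : B ≤ᵐ[μ] Pred μ := by
  have key : ∀ s : ℕ, ∀ᵐ χ ∂μ, χ ∈ B → ‖gb μ (uu ^ s) χ‖ = 1 := by
    intro s
    obtain ⟨G, hG, hae⟩ := h s
    have h1 := pinq μ hB hG (uu ^ s)
    have h2 : μ (B ∩ {χ | χ.1 (uu ^ s) ≠ G χ}) = 0 := by
      rw [measure_eq_zero_iff_ae_notMem]
      filter_upwards [hae] with χ hχ hc
      exact hc.2 (hχ hc.1)
    rw [Measure.real, h2] at h1
    simp only [ENNReal.toReal_zero, mul_zero] at h1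
    have hnn : 0 ≤ᵐ[μ.restrict B] fun χ => 1 - ‖gb μ (uu ^ s) χ‖ := by
      filter_upwards [ae_restrict_of_ae (gb_le μ (uu ^ s))] with χ hχ
      simp only [Pi.zero_apply]; linarith
    have h3 := le_antisymm h1 (integral_nonneg_of_ae hnn)
    rw [setIntegral_eq_zero_iff_of_nonneg_ae hnn
      ((integrable_const 1).sub (gb_int μ _).norm.integrableOn), Filter.EventuallyEq,
      ae_restrict_iff' (m0_le _ hB)] at h3
    filter_upwards [h3] with χ hχ hb
    have := hχ hb
    simp only [Pi.zero_apply] at this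
    linarith
  filter_upwards [ae_all_iff.2 key] with χ hχ hb s
  exact hχ s hb

lemma ne_zero_of_norm {w : K} (hw : ‖(w : ℂ)‖ = 1) : w ≠ 0 := by
  rintro rfl; simp at hw

lemma norm_inv_of_norm {w : K} (hw : ‖(w : ℂ)‖ = 1) : ‖((w⁻¹ : K) : ℂ)‖ = 1 := by
  simp [hw]

lemma pred_inv0 (hμ : UInv μ) {w : K} (hw : ‖(w : ℂ)‖ = 1) (hw0 : w ∈ A0) :
    act w ⁻¹' Pred μ =ᵐ[μ] Pred μ := by
  have hmp := hμ w hw
  refine ae_eq_of_ae_subset_of_measure_ge (det2 μ (meas0_act hw0 (pred_meas0 μ)) fun s => ?_)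
    (hmp.measure_preimage (pred_meas μ).nullMeasurableSet).ge
    (measurable_act w (pred_meas μ)).nullMeasurableSet (measure_ne_top _ _)
  obtain ⟨G, hG, hae⟩ := det_all μ (w⁻¹ * uu ^ s)
  refine ⟨_, hG.comp hw0, ?_⟩
  filter_upwards [hmp.quasiMeasurePreserving.ae hae] with χ hχ hP
  rw [← hχ hP, act_apply, mul_inv_cancel_left₀ (ne_zero_of_norm hw)]

lemma pred_inv (hμ : UInv μ) {w : K} (hw : ‖(w : ℂ)‖ = 1) : act w ⁻¹' Pred μ =ᵐ[μ] Pred μ := by
  rcases mem_A0_or_inv w with h | h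
  · exact pred_inv0 μ hμ hw h
  · have h1 := (hμ w hw).quasiMeasurePreserving.preimage_ae_eq
      (pred_inv0 μ hμ (norm_inv_of_norm hw) h)
    have h2 : act w ⁻¹' (act w⁻¹ ⁻¹' Pred μ) = Pred μ := by
      ext χ
      simp only [Set.mem_preimage, act_act, mul_inv_cancel₀ (ne_zero_of_norm hw), act_one]
    rw [h2] at h1
    exact h1.symm

omit [IsFiniteMeasure μ] in
lemma UInv.restrict {μ : Measure Om} (hμ : UInv μ) {S : Set Om} (hS : MeasurableSet S)
    (h : ∀ w : K, ‖(w : ℂ)‖ = 1 → act w ⁻¹' S =ᵐ[μ] S) : UInv (μ.restrict S) := by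
  intro w hw
  have := (hμ w hw).restrict_preimage hS
  rwa [Measure.restrict_congr_set (h w hw)] at this

lemma uinv_pred (hμ : UInv μ) : UInv (μ.restrict (Pred μ)) :=
  hμ.restrict (pred_meas μ) fun _ hw => pred_inv μ hμ hw

lemma uinv_pred_compl (hμ : UInv μ) : UInv (μ.restrict (Pred μ)ᶜ) :=
  hμ.restrict (pred_meas μ).compl fun _ hw => (pred_inv μ hμ hw).compl

end Pool.Agent.P.MP_8b2bd9_co
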