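import Pool.Agent.P.MP_8b2bd9_co.Host

/-! Off the deterministic set all Fourier coefficients vanish. -/

set_option autoImplicit false

open Complex Finset MeasureTheory Filter Topology

noncomputable section

namespace Pool.Agent.P.MP_8b2bd9_co

instance : Nonempty {G : Om → ℂ // IsPred G} :=
  ⟨⟨fun _ => 0, ⟨measurable_const, fun _ => by simp⟩⟩⟩

/-- The best success probability of a predictor of `χ (u ^ s)`. -/
def bs (ν : Measure Om) (s : ℕ) : ℝ :=
  ⨆ G : {G : Om → ℂ // IsPred G}, ν.real {χ | χ.1 (uu ^ s) = G.1 χ}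

lemma le_bs (ν : Measure Om) [IsFiniteMeasure ν] (s : ℕ) {G : Om → ℂ} (hG : IsPred G) :
    ν.real {χ | χ.1 (uu ^ s) = G χ} ≤ bs ν s := by
  refine le_ciSup (f := fun G : {G : Om → ℂ // IsPred G} => ν.real {χ | χ.1 (uu ^ s) = G.1 χ})
    ⟨ν.real Set.univ, ?_⟩ ⟨G, hG⟩
  rintro _ ⟨G, rfl⟩
  exact measureReal_mono (Set.subset_univ _)

lemma exists_down {s t : ℕ} (h : s ≤ t) : ∃ c : ℕ, ∃ f ∈ A0, uu ^ s = c * uu ^ t + f := by
  apply exists_nat_sub_mem
  obtain ⟨j, rfl⟩ := Nat.exists_eq_add_of_le h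
  have : uu⁻¹ ^ (s + j) * uu ^ s = uu⁻¹ ^ j := by
    rw [pow_add, mul_right_comm, ← mul_pow, inv_mul_cancel₀ uu_ne_zero, one_pow, one_mul]
  rw [this]
  exact A0.pow_mem inv_uu_mem_A0 _

lemma bs_anti (ν : Measure Om) [IsFiniteMeasure ν] : Antitone (bs ν) := by
  intro s t h
  obtain ⟨c, f, hf, e⟩ := exists_down h
  refine ciSup_le fun G => le_trans (measureReal_mono ?_) (le_bs ν s (G.2.pow_mul c hf))
  intro χ hχ
  simp only [Set.mem_ofPred_eq] at hχ ⊢
  rw [e, Om.nat_mul_add, hχ]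

lemma bs_nonneg (ν : Measure Om) [IsFiniteMeasure ν] (s : ℕ) : 0 ≤ bs ν s :=
  le_trans measureReal_nonneg (le_bs ν s ⟨measurable_const (a := 0), fun _ => by simp⟩)

lemma norm_inv_uu_pow (j : ℕ) : ‖((uu⁻¹ ^ j : K) : ℂ)‖ = 1 := by
  simp [norm_uu]

lemma window (ν : Measure Om) [IsFiniteMeasure ν] (hν : UInv ν) (ε : ℝ) (hε : 0 < ε) (n : ℕ) :
    ∃ F : Set Om, MeasurableSet[m0] F ∧ (⨅ s, bs ν s) - ε ≤ ν.real F ∧
      ∀ s ≤ n, ∃ G, IsPred G ∧ ν.real (F ∩ {χ | χ.1 (uu ^ s) ≠ G χ}) ≤ 2 * ε := by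
  set β := ⨅ s, bs ν s with hβ
  have hbdd : BddBelow (Set.range (bs ν)) := ⟨0, by rintro _ ⟨s, rfl⟩; exact bs_nonneg ν s⟩
  obtain ⟨j, hj⟩ : ∃ j, bs ν j < β + ε := exists_lt_of_ciInf_lt (by linarith)
  have h1 : β - ε < bs ν (j + n) := by
    have := ciInf_le hbdd (j + n)
    linarith
  obtain ⟨⟨G, hG⟩, hG1⟩ := exists_lt_of_lt_ciSup h1
  simp only at hG1
  obtain ⟨c, f, hf, e⟩ := exists_down (Nat.le_add_right j n)
  set S1 : Set Om := {χ | χ.1 (uu ^ (j + n)) = G χ} with hS1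
  set S2 : Set Om := {χ | χ.1 (uu ^ j) = G χ ^ c * χ.1 f} with hS2
  have m1 : MeasurableSet S1 := measurableSet_eq_fun (measurable_ev _) hG.measurable
  have m2 : MeasurableSet S2 :=
    measurableSet_eq_fun (measurable_ev _) (hG.pow_mul c hf).measurable
  have hsub : S1 ⊆ S2 := by
    intro χ hχ
    simp only [hS1, hS2, Set.mem_ofPred_eq] at hχ ⊢
    rw [e, Om.nat_mul_add, hχ]
  have h2 : ν.real S2 ≤ bs ν j := le_bs ν j (hG.pow_mul c hf)
  have h3 : ν.real (S2 \ S1) ≤ 2 * ε := by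
    rw [measureReal_sdiff hsub m1]; linarith
  have hw0 : uu⁻¹ ^ j ∈ A0 := A0.pow_mem inv_uu_mem_A0 _
  have hmp := hν _ (norm_inv_uu_pow j)
  have hcancel : uu⁻¹ ^ j * uu ^ j = 1 := by
    rw [← mul_pow, inv_mul_cancel₀ uu_ne_zero, one_pow]
  refine ⟨act (uu⁻¹ ^ j) ⁻¹' S2, ?_, ?_, ?_⟩
  · have : act (uu⁻¹ ^ j) ⁻¹' S2 =
        (fun χ => G (act (uu⁻¹ ^ j) χ) ^ c * (act (uu⁻¹ ^ j) χ).1 f - χ.1 1) ⁻¹' {0} := by
      ext χ
      simp only [hS2, Set.mem_preimage, Set.mem_ofPred_eq, Set.mem_singleton_iff, sub_eq_zero]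
      rw [act_apply, hcancel, eq_comm]
    rw [this]
    exact (((hG.pow_mul c hf).comp hw0).meas.sub (meas0_ev A0.one_mem)) (measurableSet_singleton 0)
  · rw [hmp.measureReal_preimage m2.nullMeasurableSet]
    have := measureReal_mono (μ := ν) hsub
    linarith
  · intro s hs
    obtain ⟨c', f', hf', e'⟩ := exists_down hs
    refine ⟨_, (hG.comp hw0).pow_mul c' hf', ?_⟩
    rw [← hmp.measureReal_preimage (m2.diff m1).nullMeasurableSet] at h3
    refine le_trans (measureReal_mono ?_) h3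
    rintro χ ⟨ha, hb⟩
    refine ⟨ha, fun hc => hb ?_⟩
    simp only [hS1, Set.mem_ofPred_eq] at hc
    rw [act_apply, pow_add, ← mul_assoc, hcancel, one_mul] at hc
    rw [e', Om.nat_mul_add, hc]

lemma bs_inf (μ : Measure Om) [IsFiniteMeasure μ] (hμ : UInv μ) :
    (⨅ s, bs (μ.restrict (Pred μ)ᶜ) s) ≤ 0 := by
  set ν := μ.restrict (Pred μ)ᶜ with hν
  set β := ⨅ s, bs ν s with hβ
  by_contra hpos
  rw [not_le] at hpos
  set B : ℕ → Set Om := fun n => {χ | ∃ s ≤ n, 1 / (n + 1 : ℝ) ≤ 1 - ‖gb μ (uu ^ s) χ‖} with hB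
  have hg : ∀ s, Measurable fun χ => 1 - ‖gb μ (uu ^ s) χ‖ := fun s =>
    measurable_const.sub ((gb_meas μ _).mono m0_le le_rfl).norm
  have mB : ∀ n, MeasurableSet (B n) := by
    intro n
    have : B n = ⋃ s ∈ range (n + 1), {χ | 1 / (n + 1 : ℝ) ≤ 1 - ‖gb μ (uu ^ s) χ‖} := by
      ext χ; simp [hB]
    rw [this]
    exact Finset.measurableSet_biUnion _ fun s _ => measurableSet_le measurable_const (hg s)
  have hanti : Antitone fun n => (B n)ᶜ := by
    intro n n' h χ hχ hc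
    obtain ⟨s, hs, hs'⟩ := hc
    refine hχ ⟨s, hs.trans h, le_trans ?_ hs'⟩
    have : (n : ℝ) ≤ n' := by exact_mod_cast h
    exact one_div_le_one_div_of_le (by positivity) (by linarith)
  have hnull : ν (⋂ n, (B n)ᶜ) = 0 := by
    rw [measure_eq_zero_iff_ae_notMem]
    filter_upwards [ae_restrict_mem (pred_meas μ).compl,
      ae_restrict_of_ae (ae_all_iff.2 fun s : ℕ => gb_le μ (uu ^ s))] with χ h1 h2 hc
    apply h1
    intro s
    by_contra hne
    have hlt : 0 < 1 - ‖gb μ (uu ^ s) χ‖ := by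
      have := lt_of_le_of_ne (h2 s) hne
      linarith
    obtain ⟨n, hn⟩ := exists_nat_one_div_lt hlt
    refine Set.mem_iInter.1 hc (max n s) ⟨s, le_max_right _ _, le_trans ?_ hn.le⟩
    have : (n : ℝ) ≤ (max n s : ℕ) := by exact_mod_cast le_max_left n s
    exact one_div_le_one_div_of_le (by positivity) (by linarith)
  have hlim := tendsto_measure_iInter_atTop (μ := ν) (fun n => (mB n).compl.nullMeasurableSet)
    hanti ⟨0, measure_ne_top _ _⟩
  rw [hnull] at hlim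
  have hlim2 : Tendsto (fun n => ν.real (B n)ᶜ) atTop (𝓝 0) :=
    (ENNReal.tendsto_toReal ENNReal.zero_ne_top).comp hlim
  obtain ⟨n, hn⟩ := (hlim2.eventually (gt_mem_nhds (by linarith : 0 < β / 4))).exists
  set ε := β / (4 * (4 * (n + 1 : ℝ) ^ 2 + 1)) with hε
  have hε0 : 0 < ε := by positivity
  obtain ⟨F, hF, hF1, hF2⟩ := window ν (uinv_pred_compl μ hμ) ε hε0 n
  have hF' := m0_le F hF
  have key : ∀ s ∈ range (n + 1),
      ν.real (F ∩ {χ | 1 / (n + 1 : ℝ) ≤ 1 - ‖gb μ (uu ^ s) χ‖}) ≤ (n + 1) * (4 * ε) := by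
    intro s hs
    obtain ⟨G, hG, hG1⟩ := hF2 s (Nat.lt_succ_iff.1 (mem_range.1 hs))
    have hFB : MeasurableSet[m0] (F ∩ (Pred μ)ᶜ) := hF.inter (pred_meas0 μ).compl
    have a1 := pinq μ hFB hG (uu ^ s)
    have hN : MeasurableSet {χ : Om | χ.1 (uu ^ s) ≠ G χ} :=
      (measurableSet_eq_fun (measurable_ev _) hG.measurable).compl
    rw [hν, measureReal_restrict_apply (hF'.inter hN), Set.inter_right_comm] at hG1
    have a2 := mul_meas_ge_le_integral_of_nonneg (μ := μ.restrict (F ∩ (Pred μ)ᶜ))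
      (f := fun χ => 1 - ‖gb μ (uu ^ s) χ‖) (by
        filter_upwards [ae_restrict_of_ae (gb_le μ (uu ^ s))] with χ hχ
        simp only [Pi.zero_apply]; linarith)
      ((integrable_const 1).sub (gb_int μ _).norm.integrableOn) (1 / (n + 1 : ℝ))
    have mS : MeasurableSet {χ | 1 / (n + 1 : ℝ) ≤ 1 - ‖gb μ (uu ^ s) χ‖} :=
      measurableSet_le measurable_const (hg s)
    rw [measureReal_restrict_apply mS] at a2
    rw [hν, measureReal_restrict_apply (hF'.inter mS), Set.inter_comm F, Set.inter_assoc]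
    rw [div_mul_eq_mul_div, one_mul, div_le_iff₀ (by positivity)] at a2
    have a3 : (0 : ℝ) < n + 1 := by positivity
    nlinarith
  have h1 : ν.real (F ∩ B n) ≤ (n + 1) * ((n + 1) * (4 * ε)) := by
    have : F ∩ B n =
        ⋃ s ∈ range (n + 1), F ∩ {χ | 1 / (n + 1 : ℝ) ≤ 1 - ‖gb μ (uu ^ s) χ‖} := by
      ext χ; simp [hB]
    rw [this]
    refine (measureReal_biUnion_finset_le _ _).trans ((sum_le_sum key).trans ?_)
    simp
  have h2 : ν.real F ≤ ν.real (F ∩ B n) + ν.real (B n)ᶜ := by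
    refine le_trans (measureReal_mono ?_) (measureReal_union_le _ _)
    intro χ hχ
    by_cases h : χ ∈ B n
    · exact Or.inl ⟨hχ, h⟩
    · exact Or.inr h
  have h3 : ε * (4 * (n + 1 : ℝ) ^ 2 + 1) = β / 4 := by rw [hε]; field_simp
  nlinarith

end Pool.Agent.P.MP_8b2bd9_co
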