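import Pool.Agent.P.MP_8b2bd9_co.Host2

/-! The decomposition of an invariant measure into a deterministic part and a part with
vanishing Fourier coefficients. -/

set_option autoImplicit false

open Complex Finset MeasureTheory Filter Topology

noncomputable section

namespace Pool.Agent.P.MP_8b2bd9_co

lemma parseval1 {N : ℕ} [NeZero N] (x : ZMod N → ℝ) :
    ∑ c : ZMod N, ‖∑ k, (x k : ℂ) * ZMod.stdAddChar (c * k)‖ ^ 2 = N * ∑ k, x k ^ 2 := by
  have h1 : ∀ c : ZMod N, ((‖∑ k, (x k : ℂ) * ZMod.stdAddChar (c * k)‖ ^ 2 : ℝ) : ℂ) =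
      ∑ k, ∑ k', (x k : ℂ) * x k' * ZMod.stdAddChar (c * (k - k')) := by
    intro c
    rw [Complex.ofReal_pow, ← Complex.mul_conj', map_sum, sum_mul_sum]
    refine sum_congr rfl fun i _ => sum_congr rfl fun j _ => ?_
    rw [map_mul (starRingEnd ℂ), conj_std, mul_sub, sub_eq_add_neg, AddChar.map_add_eq_mul,
      Complex.conj_ofReal]
    ring
  apply Complex.ofReal_injective
  rw [Complex.ofReal_sum]
  simp only [h1]
  rw [sum_comm]
  push_cast
  rw [mul_sum]
  refine sum_congr rfl fun k _ => ?_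
  rw [sum_comm]
  simp only [← mul_sum, AddChar.sum_mulShift _ (ZMod.isPrimitive_stdAddChar N), ZMod.card,
    sub_eq_zero]
  rw [sum_eq_single k]
  · simp; ring
  · intro b _ hb; simp [hb.symm]
  · simp

lemma exists_root (n : ℕ) [NeZero n] {x : K} (hmem : (n : K) * x ∈ A0) :
    ∃ ρ : Om → ℂ, Measurable[m0] ρ ∧ (∀ χ, ‖ρ χ‖ = 1) ∧
      ∀ χ : Om, ∃ k : ZMod n, χ.1 x = ρ χ * ZMod.stdAddChar k := by
  have hn0 : (n : ℂ) ≠ 0 := by exact_mod_cast NeZero.ne n
  refine ⟨fun χ => Complex.exp (((χ.1 (n * x)).arg / n : ℝ) * I), ?_,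
    fun χ => Complex.norm_exp_ofReal_mul_I _, fun χ => ?_⟩
  · have h1 : Measurable fun z : ℂ => Complex.exp (((z.arg / n : ℝ) : ℂ) * I) :=
      Complex.measurable_exp.comp ((Complex.measurable_ofReal.comp
        (Complex.measurable_arg.div_const _)).mul_const _)
    exact h1.comp (meas0_ev hmem)
  · have h1 : Complex.exp (((χ.1 (n * x)).arg / n : ℝ) * I) ^ n = χ.1 x ^ n := by
      rw [← Om.nat_mul, ← Complex.exp_nat_mul]
      have h2 := Complex.norm_mul_exp_arg_mul_I (χ.1 (n * x))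
      rw [Om.norm, Complex.ofReal_one, one_mul] at h2
      conv_rhs => rw [← h2]
      congr 1
      push_cast
      field_simp
    have h0 : Complex.exp (((χ.1 (n * x)).arg / n : ℝ) * I) ≠ 0 := Complex.exp_ne_zero _
    have h2 : (χ.1 x / Complex.exp (((χ.1 (n * x)).arg / n : ℝ) * I)) ^ n = 1 := by
      rw [div_pow, h1, div_self (pow_ne_zero _ (Om.ne_zero _ _))]
    obtain ⟨i, -, hi⟩ := (Complex.isPrimitiveRoot_exp n (NeZero.ne n)).eq_pow_of_pow_eq_one h2
    refine ⟨((i : ℤ) : ZMod n), ?_⟩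
    rw [ZMod.stdAddChar_coe, mul_comm, ← div_eq_iff h0, ← hi, ← Complex.exp_nat_mul]
    congr 1; push_cast; ring

lemma exists_argmax {n : ℕ} [NeZero n] (P : ZMod n → Om → ℝ) (hP : ∀ k, Measurable[m0] (P k)) :
    ∃ κ : Om → ZMod n, Measurable[m0] κ ∧ ∀ χ j, P j χ ≤ P (κ χ) χ := by
  classical
  have h : ∀ χ : Om, ∃ i : ℕ, ∀ j, P j χ ≤ P (i : ZMod n) χ := by
    intro χ
    obtain ⟨k, hk⟩ := Finite.exists_max (fun k => P k χ)
    exact ⟨k.val, by simpa using hk⟩
  refine ⟨fun χ => ((Nat.find (h χ) : ℕ) : ZMod n), ?_, fun χ j => Nat.find_spec (h χ) j⟩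
  refine @Measurable.find Om (ZMod n) _ m0 (fun i _ => (i : ZMod n))
    (fun i χ => ∀ j, P j χ ≤ P (i : ZMod n) χ) _ (fun _ => measurable_const) (fun i => ?_) h
  have : {χ | ∀ j, P j χ ≤ P (i : ZMod n) χ} = ⋂ j, {χ | P j χ ≤ P (i : ZMod n) χ} := by
    ext; simp
  rw [this]
  refine MeasurableSet.iInter fun j => ?_
  have h1 : Measurable[m0] fun χ => P (i : ZMod n) χ - P j χ := (hP _).sub (hP j)
  have h2 := h1 (measurableSet_Ici (a := (0 : ℝ)))
  convert h2 using 1
  ext χ; simp

lemma host_bound (ν : Measure Om) [IsFiniteMeasure ν] (hν : UInv ν) (a : K) (ha : a ≠ 0) (s : ℕ)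
    (hs : 1 ≤ s) (lam : ℝ) (hlam : 0 < lam) :
    ‖∫ χ, χ.1 a ∂ν‖ ≤ lam / 2 * ν.real Set.univ + bs ν s / (2 * lam) := by
  classical
  set n := 5 ^ s with hn
  have : NeZero n := ⟨by positivity⟩
  have hn0 : (0 : ℝ) < n := by positivity
  have hmem : (n : K) * uu ^ s ∈ A0 := by
    rw [hn]; push_cast; exact five_pow_mul_uu_pow_mem s
  obtain ⟨ρ, hρm, hρ1, hdig⟩ := exists_root n hmem
  have hρ0 : ∀ χ, ρ χ ≠ 0 := fun χ h => by simpa [h] using hρ1 χ
  choose dg hdg using hdig
  set S : ZMod n → Set Om := fun k => {χ | χ.1 (uu ^ s) = ρ χ * ZMod.stdAddChar k} with hS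
  have mS : ∀ k, MeasurableSet (S k) := fun k =>
    measurableSet_eq_fun (measurable_ev _) ((hρm.mono m0_le le_rfl).mul_const _)
  have hSd : ∀ k χ, χ ∈ S k ↔ k = dg χ := by
    intro k χ
    simp only [hS, Set.mem_ofPred_eq]
    rw [hdg χ, mul_right_inj' (hρ0 χ), ZMod.injective_stdAddChar.eq_iff, eq_comm]
  set ind : ZMod n → Om → ℝ := fun k => (S k).indicator fun _ => 1 with hind
  have hindv : ∀ k χ, ind k χ = if k = dg χ then 1 else 0 := by
    intro k χ
    simp only [hind, Set.indicator_apply, hSd]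
  have iind : ∀ k, Integrable (ind k) ν := fun k => (integrable_const 1).indicator (mS k)
  set P : ZMod n → Om → ℝ := fun k => ν[ind k | m0] with hP
  have mP : ∀ k, StronglyMeasurable[m0] (P k) := fun k => stronglyMeasurable_condExp
  have iP : ∀ k, Integrable (P k) ν := fun k => integrable_condExp
  have P0 : ∀ᵐ χ ∂ν, ∀ k, 0 ≤ P k χ := by
    rw [ae_all_iff]
    intro k
    exact condExp_nonneg (Eventually.of_forall fun χ => by
      rw [hindv]; split_ifs <;> simp)
  have P1 : ∀ᵐ χ ∂ν, ∑ k, P k χ = 1 := by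
    have h1 := condExp_finsetSum (μ := ν) (s := univ) (f := ind) (fun k _ => iind k) m0
    have h2 : ∑ k, ind k = fun _ => (1 : ℝ) := by
      funext χ
      simp [hindv]
    rw [h2, condExp_const m0_le] at h1
    filter_upwards [h1] with χ hχ
    simpa using hχ.symm
  obtain ⟨κ, hκ, hκmax⟩ := exists_argmax P fun k => (mP k).measurable
  -- the maximal conditional probability
  have iPκ : ∀ k, Integrable (fun χ => P k χ • (if κ χ = k then (1 : ℝ) else 0)) ν := by
    intro k
    refine (iP k).smul_bdd (1 : ℝ) ?_ (Eventually.of_forall fun χ => by split_ifs <;> simp)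
    exact (Measurable.ite ((hκ.mono m0_le le_rfl) (measurableSet_singleton k)) measurable_const
      measurable_const).aestronglyMeasurable
  have hmax : ∫ χ, ∑ k, P k χ • (if κ χ = k then (1 : ℝ) else 0) ∂ν ≤ bs ν s := by
    have hm : ∀ k, StronglyMeasurable[m0] (fun χ => if κ χ = k then (1 : ℝ) else 0) := fun k =>
      ((measurable_of_countable (fun j : ZMod n => if j = k then (1 : ℝ) else 0)).comp
        hκ).stronglyMeasurable
    have hb : ∀ k χ, ‖(if κ χ = k then (1 : ℝ) else 0)‖ ≤ 1 := fun k χ => by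
      split_ifs <;> simp
    have hG : IsPred fun χ => ρ χ * ZMod.stdAddChar (κ χ) := by
      refine ⟨hρm.mul ((measurable_of_countable (fun k : ZMod n => ZMod.stdAddChar k)).comp hκ),
        fun χ => ?_⟩
      rw [norm_mul, hρ1, norm_std, mul_one]
    refine le_trans (le_of_eq ?_) (le_bs ν s hG)
    rw [integral_finsetSum _ fun k _ => iPκ k]
    simp only [hP, ← pullR ν (hm _) (hb _) (iind _)]
    have j1 : ∀ k, Integrable (fun χ => ind k χ • (if κ χ = k then (1 : ℝ) else 0)) ν :=
      fun k => (iind k).smul_bdd (1 : ℝ)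
        ((hm k).mono m0_le).aestronglyMeasurable (Eventually.of_forall (hb k))
    rw [← integral_finsetSum _ fun k _ => j1 k,
      ← integral_indicator_one (measurableSet_eq_fun (measurable_ev _) hG.measurable)]
    congr 1
    funext χ
    have := hSd (κ χ) χ
    simp only [hS, Set.mem_ofPred_eq] at this
    simp only [hindv, smul_eq_mul, Set.indicator_apply, Set.mem_ofPred_eq, this]
    simp
  set Y : ZMod n → Om → ℂ := fun c χ => ∑ k, (P k χ : ℂ) * ZMod.stdAddChar (c * k) with hY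
  have iY : ∀ c, Integrable (Y c) ν := fun c =>
    integrable_finsetSum _ fun k _ => (iP k).ofReal.mul_const _
  have hc : ∀ c : ZMod n, ‖∫ χ, χ.1 a ∂ν‖ ≤ ∫ χ, ‖Y c χ‖ ∂ν := by
    intro c
    obtain ⟨w, hw, f, hf, e⟩ := exists_rot a ha s hs c.val
    have h1 : ∫ χ, χ.1 a ∂ν = ∫ χ, χ.1 (w * a) ∂ν := by
      have := integral_map (μ := ν) (φ := act w) (measurable_act w).aemeasurable
        (f := fun χ : Om => χ.1 a) (measurable_ev a).aestronglyMeasurable
      rw [(hν w hw).map_eq] at this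
      simpa only [act_apply] using this
    set H : ZMod n → Om → ℂ := fun k χ => ZMod.stdAddChar (c * k) * (ρ χ ^ c.val * χ.1 f) with hH
    have hm : ∀ k, StronglyMeasurable[m0] (H k) := fun k =>
      (((hρm.pow_const _).mul (meas0_ev hf)).const_mul _).stronglyMeasurable
    have hb : ∀ k χ, ‖H k χ‖ ≤ 1 := fun k χ => by
      simp only [hH]
      rw [norm_mul, norm_mul, norm_pow, hρ1, norm_std, Om.norm]; simp
    have h2 : ∀ χ : Om, χ.1 (w * a) = ∑ k, ind k χ • H k χ := by
      intro χ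
      rw [e, Om.nat_mul_add, hdg χ]
      simp only [hindv, ite_smul, one_smul, zero_smul, sum_ite_eq', mem_univ, if_true, hH]
      rw [mul_pow, ← AddChar.map_nsmul_eq_pow, nsmul_eq_mul, ZMod.natCast_zmod_val]
      ring
    simp only [h1, h2]
    have j1 : ∀ k, Integrable (fun χ => ind k χ • H k χ) ν := fun k => (iind k).smul_bdd (1 : ℝ)
      ((hm k).mono m0_le).aestronglyMeasurable (Eventually.of_forall (hb k))
    have j2 : ∀ k, Integrable (fun χ => P k χ • H k χ) ν := fun k => (iP k).smul_bdd (1 : ℝ)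
      ((hm k).mono m0_le).aestronglyMeasurable (Eventually.of_forall (hb k))
    rw [integral_finsetSum _ fun k _ => j1 k]
    simp only [pullR ν (hm _) (hb _) (iind _)]
    rw [← integral_finsetSum _ fun k _ => j2 k]
    refine (norm_integral_le_integral_norm _).trans (le_of_eq ?_)
    congr 1
    funext χ
    have : ∑ k, P k χ • H k χ = Y c χ * (ρ χ ^ c.val * χ.1 f) := by
      simp only [hY, hH, sum_mul, Complex.real_smul, mul_assoc]
    rw [this, norm_mul, norm_mul, norm_pow, hρ1, Om.norm]; simp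
  have hsum : ∑ c : ZMod n, ∫ χ, ‖Y c χ‖ ∂ν ≤
      n * (lam / 2 * ν.real Set.univ + bs ν s / (2 * lam)) := by
    rw [← integral_finsetSum _ fun c _ => (iY c).norm]
    have i2 := integrable_finsetSum univ fun k _ => iPκ k
    calc ∫ χ, ∑ c, ‖Y c χ‖ ∂ν
        ≤ ∫ χ, n * (lam / 2 + (∑ k, P k χ • (if κ χ = k then (1 : ℝ) else 0)) / (2 * lam)) ∂ν := by
          refine integral_mono_ae (integrable_finsetSum _ fun c _ => (iY c).norm)
            (((integrable_const _).add (i2.div_const _)).const_mul _) ?_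
          filter_upwards [P0, P1] with χ h0 h1
          have a1 : ∀ c, ‖Y c χ‖ ≤ lam / 2 + ‖Y c χ‖ ^ 2 / (2 * lam) := by
            intro c
            rw [div_add_div _ _ two_ne_zero (by positivity), le_div_iff₀ (by positivity)]
            nlinarith [sq_nonneg (‖Y c χ‖ - lam)]
          have a2 : ∑ k, P k χ ^ 2 ≤ P (κ χ) χ := by
            calc ∑ k, P k χ ^ 2 ≤ ∑ k, P k χ * P (κ χ) χ :=
                  sum_le_sum fun k _ => by
                    rw [sq]; exact mul_le_mul_of_nonneg_left (hκmax χ k) (h0 k)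
              _ = _ := by rw [← sum_mul, h1, one_mul]
          have a3 : ∑ k, P k χ • (if κ χ = k then (1 : ℝ) else 0) = P (κ χ) χ := by simp
          refine (sum_le_sum fun c _ => a1 c).trans ?_
          rw [sum_add_distrib, ← sum_div univ (fun c => ‖Y c χ‖ ^ 2), parseval1, a3]
          simp only [sum_const, card_univ, ZMod.card, nsmul_eq_mul]
          rw [mul_add, mul_div_assoc]
          gcongr
      _ ≤ _ := by
          rw [integral_const_mul, integral_add (integrable_const _) (i2.div_const _),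
            integral_const, integral_div, smul_eq_mul, mul_comm (ν.real _)]
          gcongr
  have h3 := (sum_le_sum fun c (_ : c ∈ univ) => hc c).trans hsum
  simp only [sum_const, card_univ, ZMod.card, nsmul_eq_mul] at h3
  exact le_of_mul_le_mul_left h3 hn0

theorem host (μ : Measure Om) [IsFiniteMeasure μ] (hμ : UInv μ) :
    ∃ S : Set Om, MeasurableSet S ∧ UInv (μ.restrict S) ∧
      (∀ a : K, a ≠ 0 → ∫ χ in Sᶜ, χ.1 a ∂μ = 0) ∧
      ∃ G, IsPred G ∧ ∀ᵐ χ ∂(μ.restrict S), χ.1 uu = G χ := by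
  refine ⟨Pred μ, pred_meas μ, uinv_pred μ hμ, fun a ha => ?_, ?_⟩
  · set ν := μ.restrict (Pred μ)ᶜ with hν
    rw [← norm_le_zero_iff]
    refine le_of_forall_pos_le_add fun ε hε => ?_
    have hM : 0 ≤ ν.real Set.univ := measureReal_nonneg
    set lam := ε / (ν.real Set.univ + 1) with hlam
    have hl0 : 0 < lam := by positivity
    obtain ⟨s, hs⟩ : ∃ s, bs ν s < ε * lam :=
      exists_lt_of_ciInf_lt (lt_of_le_of_lt (bs_inf μ hμ) (by positivity))
    have h1 := host_bound ν (uinv_pred_compl μ hμ) a ha (s + 1) (by omega) lam hl0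
    have h2 := bs_anti ν (Nat.le_succ s)
    have h3 : bs ν (s + 1) / (2 * lam) ≤ ε / 2 := by
      rw [div_le_iff₀ (by positivity)]; linarith
    have h4 : lam * (ν.real Set.univ + 1) = ε := by rw [hlam]; field_simp
    nlinarith
  · obtain ⟨G, hG, h⟩ := det_all μ uu
    exact ⟨G, hG, (ae_restrict_iff' (pred_meas μ)).2 h⟩

end Pool.Agent.P.MP_8b2bd9_co
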