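import Pool.Agent.P.MP_8b2bd9_co.Four

/-! The fourth-moment bound for exponential sums over the unit circle of a prime field. -/

set_option autoImplicit false

open Complex Finset

noncomputable section

namespace Pool.Agent.P.MP_8b2bd9_co

/-- The local function on `ZMod n`. -/
def Hloc {n : ℕ} [NeZero n] (b y1 y2 τ : ZMod n) : ℂ :=
  open Classical in
  if IsUnit (τ ^ 2 + b ^ 2) then
    ZMod.stdAddChar ((y1 * (τ ^ 2 - b ^ 2) + y2 * (2 * τ * b)) * (τ ^ 2 + b ^ 2)⁻¹) else 0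

section prime

variable {p : ℕ} [Fact p.Prime]

/-- The unit circle over `ZMod p`. -/
def circ (p : ℕ) [Fact p.Prime] : Finset (ZMod p × ZMod p) :=
  univ.filter fun u => u.1 ^ 2 + u.2 ^ 2 = 1

lemma mem_circ {u : ZMod p × ZMod p} : u ∈ circ p ↔ u.1 ^ 2 + u.2 ^ 2 = 1 := by simp [circ]

/-- The complete sum over the circle. -/
def Scirc (y : ZMod p × ZMod p) : ℂ := ∑ u ∈ circ p, ZMod.stdAddChar (dot y u)

/-- Complex multiplication on pairs. -/
def rot (w y : ZMod p × ZMod p) : ZMod p × ZMod p :=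
  (w.1 * y.1 - w.2 * y.2, w.2 * y.1 + w.1 * y.2)

lemma Scirc_rot (w y : ZMod p × ZMod p) (hw : w ∈ circ p) : Scirc (rot w y) = Scirc y := by
  rw [mem_circ] at hw
  unfold Scirc
  refine sum_nbij' (fun u => rot (w.1, -w.2) u) (fun u => rot w u) ?_ ?_ ?_ ?_ ?_
  · intro u hu
    simp only [mem_circ, rot] at hu ⊢
    linear_combination (u.1 ^ 2 + u.2 ^ 2) * hw + hu
  · intro u hu
    simp only [mem_circ, rot] at hu ⊢
    linear_combination (u.1 ^ 2 + u.2 ^ 2) * hw + hu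
  · intro u _
    simp only [rot]
    ext
    · simp only; linear_combination u.1 * hw
    · simp only; linear_combination u.2 * hw
  · intro u _
    simp only [rot]
    ext
    · simp only; linear_combination u.1 * hw
    · simp only; linear_combination u.2 * hw
  · intro u _
    congr 1
    simp only [rot, dot]; ring

lemma rot_injOn (h2 : (2 : ZMod p) ≠ 0) (y : ZMod p × ZMod p) (hy : y ≠ 0) :
    Set.InjOn (fun w => rot w y) (circ p) := by
  intro w hw w' hw' h
  rw [mem_coe, mem_circ] at hw hw'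
  simp only [rot, Prod.mk.injEq] at h
  obtain ⟨h1, h3⟩ := h
  have hN : (w.1 - w'.1) ^ 2 + (w.2 - w'.2) ^ 2 = 0 := by
    by_contra hN
    apply hy
    ext
    · apply mul_left_cancel₀ hN
      simp only [Prod.fst_zero]
      linear_combination (w.1 - w'.1) * h1 + (w.2 - w'.2) * h3
    · apply mul_left_cancel₀ hN
      simp only [Prod.snd_zero]
      linear_combination (w.1 - w'.1) * h3 - (w.2 - w'.2) * h1
  have hd : w.1 * (w.1 - w'.1) + w.2 * (w.2 - w'.2) = 0 := by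
    apply mul_left_cancel₀ h2
    linear_combination hN + hw - hw'
  have e1 : (w.1 - w'.1) ^ 2 = 0 := by
    linear_combination (-(w.1 - w'.1) ^ 2) * hw + w.2 ^ 2 * hN +
      (w.1 * (w.1 - w'.1) - w.2 * (w.2 - w'.2)) * hd
  have e2 : (w.2 - w'.2) ^ 2 = 0 := by linear_combination hN - e1
  ext
  · exact sub_eq_zero.1 (pow_eq_zero_iff two_ne_zero |>.1 e1)
  · exact sub_eq_zero.1 (pow_eq_zero_iff two_ne_zero |>.1 e2)

lemma card_fiber_le_two (h2 : (2 : ZMod p) ≠ 0) (s : ZMod p × ZMod p) (hs : s ≠ 0) :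
    ((circ p ×ˢ circ p).filter fun q => q.1 + q.2 = s).card ≤ 2 := by
  set T := (circ p ×ˢ circ p).filter fun q => q.1 + q.2 = s with hT
  have hmem : ∀ q ∈ T, q.1.1 ^ 2 + q.1.2 ^ 2 = 1 ∧ q.2 = s - q.1 ∧
      2 * (q.1.1 * s.1 + q.1.2 * s.2) = s.1 ^ 2 + s.2 ^ 2 := by
    intro q hq
    simp only [hT, mem_filter, mem_product, mem_circ] at hq
    obtain ⟨⟨ha, hb⟩, hc⟩ := hq
    refine ⟨ha, by rw [← hc]; simp, ?_⟩
    rw [← hc]
    simp only [Prod.fst_add, Prod.snd_add]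
    linear_combination ha - hb
  rcases T.eq_empty_or_nonempty with h | ⟨q0, hq0⟩
  · rw [h]; simp
  have hN : s.1 ^ 2 + s.2 ^ 2 ≠ 0 := by
    intro hN
    obtain ⟨ha, -, hc⟩ := hmem q0 hq0
    have c0 : q0.1.1 * s.1 + q0.1.2 * s.2 = 0 := by
      apply mul_left_cancel₀ h2; linear_combination hc + hN
    have d0 : (s.1 * q0.1.2 - s.2 * q0.1.1) ^ 2 = 0 := by
      linear_combination (q0.1.1 ^ 2 + q0.1.2 ^ 2) * hN - (q0.1.1 * s.1 + q0.1.2 * s.2) * c0
    have d1 : s.1 * q0.1.2 - s.2 * q0.1.1 = 0 := pow_eq_zero_iff two_ne_zero |>.1 d0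
    apply hs
    ext
    · simp only [Prod.fst_zero]
      linear_combination (-s.1) * ha + q0.1.1 * c0 + q0.1.2 * d1
    · simp only [Prod.snd_zero]
      linear_combination (-s.2) * ha + q0.1.2 * c0 - q0.1.1 * d1
  set d : (ZMod p × ZMod p) × (ZMod p × ZMod p) → ZMod p :=
    fun q => s.1 * q.1.2 - s.2 * q.1.1 with hd
  have hinj : Set.InjOn d T := by
    intro q hq q' hq' h
    obtain ⟨-, hb, hc⟩ := hmem q hq
    obtain ⟨-, hb', hc'⟩ := hmem q' hq'
    simp only [hd] at h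
    have c0 : q.1.1 * s.1 + q.1.2 * s.2 = q'.1.1 * s.1 + q'.1.2 * s.2 := by
      apply mul_left_cancel₀ h2; linear_combination hc - hc'
    have e1 : q.1 = q'.1 := by
      ext
      · apply mul_left_cancel₀ hN
        linear_combination s.1 * c0 - s.2 * h
      · apply mul_left_cancel₀ hN
        linear_combination s.2 * c0 + s.1 * h
    exact Prod.ext e1 (by rw [hb, hb', e1])
  have hmaps : ∀ q ∈ T, d q ∈ ({d q0, -d q0} : Finset (ZMod p)) := by
    intro q hq
    obtain ⟨ha, -, hc⟩ := hmem q hq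
    obtain ⟨ha', -, hc'⟩ := hmem q0 hq0
    have c0 : q.1.1 * s.1 + q.1.2 * s.2 = q0.1.1 * s.1 + q0.1.2 * s.2 := by
      apply mul_left_cancel₀ h2; linear_combination hc - hc'
    have : d q ^ 2 = d q0 ^ 2 := by
      simp only [hd]
      linear_combination (s.1 ^ 2 + s.2 ^ 2) * (ha - ha') -
        (q.1.1 * s.1 + q.1.2 * s.2 + (q0.1.1 * s.1 + q0.1.2 * s.2)) * c0
    simpa using sq_eq_sq_iff_eq_or_eq_neg.1 this
  exact (card_le_card_of_injOn d hmaps hinj).trans (card_le_two)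

lemma card_fiber_le (s : ZMod p × ZMod p) :
    ((circ p ×ˢ circ p).filter fun q => q.1 + q.2 = s).card ≤ (circ p).card := by
  refine card_le_card_of_injOn (fun q => q.1) ?_ ?_
  · intro q hq
    simp only [coe_filter, mem_product, Set.mem_ofPred_eq] at hq
    exact hq.1.1
  · intro q hq q' hq' h
    simp only [coe_filter, mem_product, Set.mem_ofPred_eq] at hq hq'
    simp only at h
    refine Prod.ext h ?_
    have := hq.2.trans hq'.2.symm
    rw [h] at this
    exact add_left_cancel this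

lemma fourth_moment (h2 : (2 : ZMod p) ≠ 0) :
    ∑ y : ZMod p × ZMod p, ‖Scirc y‖ ^ 4 ≤ (p : ℝ) ^ 2 * (3 * ((circ p).card : ℝ) ^ 2) := by
  have h := parseval2 (N := p) (circ p ×ˢ circ p) (fun q => q.1 + q.2) (fun _ => 1) 0
  have e1 : ∀ y : ZMod p × ZMod p, ZMod.stdAddChar (dot y 0) *
      ((‖∑ i ∈ circ p ×ˢ circ p, 1 * ZMod.stdAddChar (dot y (i.1 + i.2))‖ ^ 2 : ℝ) : ℂ) =
      ((‖Scirc y‖ ^ 4 : ℝ) : ℂ) := by
    intro y
    have : ∑ i ∈ circ p ×ˢ circ p, 1 * ZMod.stdAddChar (dot y (i.1 + i.2)) = Scirc y * Scirc y := by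
      rw [Scirc, sum_mul_sum, sum_product]
      refine sum_congr rfl fun u _ => sum_congr rfl fun v _ => ?_
      rw [one_mul, ← AddChar.map_add_eq_mul]
      congr 1
      simp only [dot, Prod.fst_add, Prod.snd_add]; ring
    rw [this, norm_mul]
    simp only [dot, Prod.fst_zero, Prod.snd_zero, mul_zero, add_zero, AddChar.map_zero_eq_one,
      one_mul]
    congr 1; ring
  simp only [e1] at h
  rw [sum_comm] at h
  have e2 : ∀ j ∈ circ p ×ˢ circ p, (∑ i ∈ circ p ×ˢ circ p,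
      if i.1 + i.2 - (j.1 + j.2) + 0 = 0 then (1 : ℂ) * (starRingEnd ℂ) 1 else 0) =
      ((((circ p ×ˢ circ p).filter fun q => q.1 + q.2 = j.1 + j.2).card : ℝ) : ℂ) := by
    intro j _
    simp only [add_zero, sub_eq_zero, map_one, mul_one]
    rw [sum_boole]; simp
  rw [sum_congr rfl e2] at h
  have h' : ∑ y : ZMod p × ZMod p, ‖Scirc y‖ ^ 4 = (p : ℝ) ^ 2 * ∑ j ∈ circ p ×ˢ circ p,
      (((circ p ×ˢ circ p).filter fun q => q.1 + q.2 = j.1 + j.2).card : ℝ) := by
    exact_mod_cast h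
  rw [h']
  refine mul_le_mul_of_nonneg_left ?_ (by positivity)
  have e3 : ∀ j ∈ circ p ×ˢ circ p,
      (((circ p ×ˢ circ p).filter fun q => q.1 + q.2 = j.1 + j.2).card : ℝ) ≤
      2 + if j.1 + j.2 = 0 then ((circ p).card : ℝ) else 0 := by
    intro j _
    split_ifs with h0
    · have := card_fiber_le (j.1 + j.2)
      have : (((circ p ×ˢ circ p).filter fun q => q.1 + q.2 = j.1 + j.2).card : ℝ) ≤
        (circ p).card := by exact_mod_cast this
      linarith
    · have := card_fiber_le_two h2 _ h0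
      rw [add_zero]
      exact_mod_cast this
  refine (sum_le_sum e3).trans ?_
  rw [sum_add_distrib, ← sum_filter, sum_const, sum_const, card_product, nsmul_eq_mul,
    nsmul_eq_mul]
  have h4 : (((circ p ×ˢ circ p).filter fun q => q.1 + q.2 = 0).card : ℝ) ≤ (circ p).card := by
    exact_mod_cast card_fiber_le 0
  have h5 : (0 : ℝ) ≤ (circ p).card := Nat.cast_nonneg _
  push_cast
  nlinarith

lemma one_zero_mem_circ : ((1, 0) : ZMod p × ZMod p) ∈ circ p := by simp [mem_circ]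

lemma Scirc_pow_four (h2 : (2 : ZMod p) ≠ 0) (y : ZMod p × ZMod p) (hy : y ≠ 0) :
    ‖Scirc y‖ ^ 4 ≤ 3 * (p : ℝ) ^ 2 * (circ p).card := by
  have h1 := fourth_moment h2
  have h3 : ∑ w ∈ circ p, ‖Scirc (rot w y)‖ ^ 4 ≤ ∑ y : ZMod p × ZMod p, ‖Scirc y‖ ^ 4 := by
    rw [← sum_image (f := fun y => ‖Scirc y‖ ^ 4) (rot_injOn h2 y hy)]
    exact sum_le_sum_of_subset_of_nonneg (subset_univ _) (fun _ _ _ => by positivity)
  rw [sum_congr rfl (fun w hw => by rw [Scirc_rot w y hw]), sum_const, nsmul_eq_mul] at h3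
  have h4 : (0 : ℝ) < (circ p).card := by
    exact_mod_cast card_pos.2 ⟨_, one_zero_mem_circ⟩
  have : ((circ p).card : ℝ) * ‖Scirc y‖ ^ 4 ≤ (circ p).card * (3 * (p : ℝ) ^ 2 * (circ p).card) := by
    nlinarith
  exact le_of_mul_le_mul_left this h4

lemma sum_param {M : Type*} [AddCommMonoid M] (h2 : (2 : ZMod p) ≠ 0) (b : ZMod p) (hb : b ≠ 0)
    (f : ZMod p × ZMod p → M) :
    ∑ τ ∈ univ.filter (fun τ : ZMod p => τ ^ 2 + b ^ 2 ≠ 0),
      f ((τ ^ 2 - b ^ 2) * (τ ^ 2 + b ^ 2)⁻¹, 2 * τ * b * (τ ^ 2 + b ^ 2)⁻¹) =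
      ∑ u ∈ (circ p).erase (1, 0), f u := by
  have key : ∀ u ∈ (circ p).erase (1, 0), u.1 ^ 2 + u.2 ^ 2 = 1 ∧ 1 - u.1 ≠ 0 := by
    intro u hu
    rw [mem_erase, mem_circ] at hu
    refine ⟨hu.2, fun h => hu.1 ?_⟩
    have e1 : u.1 = 1 := (sub_eq_zero.1 h).symm
    have e2 : u.2 ^ 2 = 0 := by
      have := hu.2; rw [e1] at this; linear_combination this
    exact Prod.ext e1 (pow_eq_zero_iff two_ne_zero |>.1 e2)
  have key2 : ∀ u ∈ (circ p).erase (1, 0),
      (b * u.2 / (1 - u.1)) ^ 2 + b ^ 2 = 2 * b ^ 2 / (1 - u.1) := by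
    intro u hu
    obtain ⟨h1, h3⟩ := key u hu
    field_simp
    linear_combination h1
  refine sum_nbij' (fun τ => ((τ ^ 2 - b ^ 2) * (τ ^ 2 + b ^ 2)⁻¹, 2 * τ * b * (τ ^ 2 + b ^ 2)⁻¹))
    (fun u => b * u.2 / (1 - u.1)) ?_ ?_ ?_ ?_ ?_
  · intro τ hτ
    simp only [mem_filter, mem_univ, true_and] at hτ
    rw [mem_erase, mem_circ]
    constructor
    · intro h
      have h1 := congrArg Prod.fst h
      simp only at h1
      field_simp at h1
      have : 2 * b ^ 2 = 0 := by linear_combination -h1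
      exact (mul_ne_zero h2 (pow_ne_zero 2 hb)) this
    · simp only
      field_simp
      ring
  · intro u hu
    simp only [mem_filter, mem_univ, true_and]
    rw [key2 u hu]
    exact div_ne_zero (mul_ne_zero h2 (pow_ne_zero 2 hb)) (key u hu).2
  · intro τ hτ
    simp only [mem_filter, mem_univ, true_and] at hτ
    have e : 1 - (τ ^ 2 - b ^ 2) * (τ ^ 2 + b ^ 2)⁻¹ = 2 * b ^ 2 / (τ ^ 2 + b ^ 2) := by
      field_simp; ring
    simp only
    rw [e]
    field_simp
  · intro u hu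
    obtain ⟨h1, h3⟩ := key u hu
    rw [key2 u hu]
    ext
    · simp only
      field_simp
      linear_combination h1
    · simp only
      field_simp
  · intro τ _
    rfl

lemma card_circ_le (h2 : (2 : ZMod p) ≠ 0) : (circ p).card ≤ p + 1 := by
  have h := sum_param h2 (1 : ZMod p) one_ne_zero (fun _ => (1 : ℕ))
  simp only [sum_const, smul_eq_mul, mul_one] at h
  have h1 := card_filter_le (univ : Finset (ZMod p)) (fun τ : ZMod p => τ ^ 2 + 1 ^ 2 ≠ 0)
  rw [card_univ, ZMod.card, h, card_erase_of_mem one_zero_mem_circ] at h1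
  omega

lemma loc_prime (η : ℝ) (hη : 0 < η) (hp : 2 + 2 / η + 96 / η ^ 4 ≤ p) (b y1 y2 : ZMod p)
    (hb : IsUnit b) (hy : IsUnit y1 ∨ IsUnit y2) :
    ‖∑ τ : ZMod p, Hloc b y1 y2 τ‖ ≤ η * p := by
  have p1 : 0 < 2 / η := by positivity
  have p2 : 0 < 96 / η ^ 4 := by positivity
  have hp2 : 2 < p := by
    have : (2 : ℝ) < p := by linarith
    exact_mod_cast this
  have h2 : (2 : ZMod p) ≠ 0 := by
    intro h
    have := (ZMod.natCast_eq_zero_iff 2 p).1 (by exact_mod_cast h)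
    exact absurd (Nat.le_of_dvd two_pos this) (by omega)
  have hy0 : ((y1, y2) : ZMod p × ZMod p) ≠ 0 := by
    intro h
    rw [Prod.ext_iff] at h
    rcases hy with hy | hy
    · exact hy.ne_zero h.1
    · exact hy.ne_zero h.2
  have e1 : ∑ τ : ZMod p, Hloc b y1 y2 τ = Scirc (y1, y2) - ZMod.stdAddChar (dot (y1, y2) (1, 0)) := by
    have := sum_param h2 b hb.ne_zero (fun u => ZMod.stdAddChar (dot (y1, y2) u))
    rw [Scirc, ← add_sum_erase _ _ one_zero_mem_circ, ← this, add_sub_cancel_left, sum_filter]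
    refine sum_congr rfl fun τ _ => ?_
    simp only [Hloc, isUnit_iff_ne_zero]
    split_ifs
    · congr 1; simp only [dot]; ring
    · rfl
  rw [e1]
  have h4 := Scirc_pow_four h2 _ hy0
  have h5 : ((circ p).card : ℝ) ≤ p + 1 := by exact_mod_cast card_circ_le h2
  have hp0 : (2 : ℝ) < p := by exact_mod_cast hp2
  have h6 : ‖Scirc (y1, y2)‖ ≤ η / 2 * p := by
    apply le_of_pow_le_pow_left₀ (by norm_num : (4 : ℕ) ≠ 0) (by positivity)
    have a1 : 96 ≤ η ^ 4 * p := by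
      have : 96 / η ^ 4 ≤ p := by linarith
      rwa [div_le_iff₀ (by positivity), mul_comm] at this
    have a2 : 3 * (p : ℝ) ^ 2 * (circ p).card ≤ 3 * (p : ℝ) ^ 2 * (2 * p) := by
      gcongr; linarith
    have a3 : (η / 2 * p) ^ 4 = (η ^ 4 * p) * p ^ 3 / 16 := by ring
    have a4 : 96 * (p : ℝ) ^ 3 ≤ (η ^ 4 * p) * p ^ 3 := by gcongr
    rw [a3]
    linarith
  have h7 : 1 ≤ η / 2 * p := by
    have : 2 / η ≤ p := by linarith
    rw [div_le_iff₀ hη] at this
    linarith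
  refine (norm_sub_le _ _).trans ?_
  rw [norm_std]
  linarith

end prime

end Pool.Agent.P.MP_8b2bd9_co
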