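import Pool.Agent.P.MP_8b2bd9_co.Kloo

/-! Stationary phase modulo prime powers, and the complete local bound. -/

set_option autoImplicit false

open Complex Finset

noncomputable section

namespace Pool.Agent.P.MP_8b2bd9_co

lemma norm_Hloc_le {n : ℕ} [NeZero n] (b y1 y2 τ : ZMod n) : ‖Hloc b y1 y2 τ‖ ≤ 1 := by
  unfold Hloc
  split_ifs
  · exact (norm_std _).le
  · simp

/-- The numerator of the derivative of the phase. -/
def Gd {R : Type*} [CommRing R] (b y1 y2 τ : R) : R :=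
  2 * b * (2 * b * τ * y1 + (b ^ 2 - τ ^ 2) * y2)

lemma isUnit_shift {R : Type*} [CommRing R] (b τ x : R) (hx : x ^ 2 = 0)
    (h : IsUnit (τ ^ 2 + b ^ 2)) : IsUnit ((τ + x) ^ 2 + b ^ 2) := by
  obtain ⟨a, ha⟩ := h.exists_right_inv
  refine IsUnit.of_mul_eq_one (a - 2 * τ * x * a ^ 2) ?_
  linear_combination (1 - 2 * τ * x * a) * ha + (a - 2 * τ * x * a ^ 2 - 4 * τ ^ 2 * a ^ 2) * hx

lemma Hloc_shift {n : ℕ} [NeZero n] (b y1 y2 τ x : ZMod n) (hx : x ^ 2 = 0) :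
    Hloc b y1 y2 (τ + x) =
      Hloc b y1 y2 τ * ZMod.stdAddChar (x * (Gd b y1 y2 τ * ((τ ^ 2 + b ^ 2)⁻¹) ^ 2)) := by
  unfold Hloc
  by_cases h : IsUnit (τ ^ 2 + b ^ 2)
  · have h' := isUnit_shift b τ x hx h
    rw [if_pos h, if_pos h', ← AddChar.map_add_eq_mul]
    congr 1
    have ha := ZMod.mul_inv_of_unit _ h
    have ha' := ZMod.mul_inv_of_unit _ h'
    generalize (τ ^ 2 + b ^ 2)⁻¹ = a at ha ⊢
    generalize ((τ + x) ^ 2 + b ^ 2)⁻¹ = a' at ha' ⊢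
    have e1 : ((τ + x) ^ 2 + b ^ 2) * (a - 2 * τ * x * a ^ 2) = 1 := by
      linear_combination (1 - 2 * τ * x * a) * ha + (a - 2 * τ * x * a ^ 2 - 4 * τ ^ 2 * a ^ 2) * hx
    have e2 : a' = a - 2 * τ * x * a ^ 2 := by
      linear_combination (a - 2 * τ * x * a ^ 2) * ha' - a' * e1
    rw [e2, Gd]
    linear_combination (-(x * (2 * τ * y1 + 2 * b * y2) * a)) * ha +
      (y1 * a - 2 * τ * (2 * τ * y1 + 2 * b * y2) * a ^ 2 - 2 * τ * x * y1 * a ^ 2) * hx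
  · have h' : ¬ IsUnit ((τ + x) ^ 2 + b ^ 2) := by
      intro h'
      have := isUnit_shift b (τ + x) (-x) (by rw [neg_sq, hx]) h'
      rw [add_neg_cancel_right] at this
      exact h this
    rw [if_neg h, if_neg h', zero_mul]

open Classical in
lemma norm_sum_Hloc_le_card {n : ℕ} [NeZero n] (b y1 y2 h : ZMod n) (M : ℕ) (hM : 0 < M)
    (hh : h ^ 2 = 0) (hMh : (M : ZMod n) * h = 0) :
    ‖∑ τ : ZMod n, Hloc b y1 y2 τ‖ ≤
      ((univ.filter fun τ : ZMod n => h * Gd b y1 y2 τ = 0).card : ℝ) := by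
  have e1 : (M : ℂ) * ∑ τ : ZMod n, Hloc b y1 y2 τ =
      ∑ τ : ZMod n, ∑ σ ∈ range M, Hloc b y1 y2 (τ + σ * h) := by
    rw [sum_comm]
    have : ∀ σ ∈ range M, ∑ τ : ZMod n, Hloc b y1 y2 (τ + σ * h) = ∑ τ : ZMod n, Hloc b y1 y2 τ :=
      fun σ _ => Equiv.sum_comp (Equiv.addRight ((σ : ZMod n) * h)) (Hloc b y1 y2)
    rw [sum_congr rfl this]; simp
  have e2 : ∀ τ : ZMod n, ‖∑ σ ∈ range M, Hloc b y1 y2 (τ + σ * h)‖ ≤
      if h * Gd b y1 y2 τ = 0 then (M : ℝ) else 0 := by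
    intro τ
    split_ifs with h0
    · refine (norm_sum_le _ _).trans ?_
      calc ∑ σ ∈ range M, ‖Hloc b y1 y2 (τ + σ * h)‖ ≤ ∑ σ ∈ range M, (1 : ℝ) :=
            sum_le_sum fun σ _ => norm_Hloc_le _ _ _ _
        _ = M := by simp
    · set κ := h * (Gd b y1 y2 τ * ((τ ^ 2 + b ^ 2)⁻¹) ^ 2) with hκ
      have e3 : ∀ σ ∈ range M, Hloc b y1 y2 (τ + σ * h) =
          Hloc b y1 y2 τ * ZMod.stdAddChar κ ^ σ := by
        intro σ _
        rw [Hloc_shift b y1 y2 τ _ (by rw [mul_pow, hh, mul_zero]), ← AddChar.map_nsmul_eq_pow,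
          nsmul_eq_mul, hκ, mul_assoc]
      rw [sum_congr rfl e3, ← mul_sum]
      by_cases hu : IsUnit (τ ^ 2 + b ^ 2)
      · have hκ0 : κ ≠ 0 := by
          intro hk
          apply h0
          have ha := ZMod.mul_inv_of_unit _ hu
          rw [hκ] at hk
          linear_combination (τ ^ 2 + b ^ 2) ^ 2 * hk -
            h * Gd b y1 y2 τ * ((τ ^ 2 + b ^ 2) * (τ ^ 2 + b ^ 2)⁻¹ + 1) * ha
        have hω : ZMod.stdAddChar κ ≠ 1 := fun h1 => hκ0 ((std_eq_one_iff κ).1 h1)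
        have hω2 : ZMod.stdAddChar κ ^ M = 1 := by
          rw [← AddChar.map_nsmul_eq_pow, nsmul_eq_mul, hκ, ← mul_assoc, hMh, zero_mul,
            AddChar.map_zero_eq_one]
        rw [geom_sum_eq hω, hω2]; simp
      · simp [Hloc, hu]
  have e4 : (M : ℝ) * ‖∑ τ : ZMod n, Hloc b y1 y2 τ‖ ≤
      M * ((univ.filter fun τ : ZMod n => h * Gd b y1 y2 τ = 0).card : ℝ) := by
    have : (M : ℝ) * ‖∑ τ : ZMod n, Hloc b y1 y2 τ‖ = ‖(M : ℂ) * ∑ τ : ZMod n, Hloc b y1 y2 τ‖ := by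
      rw [norm_mul, Complex.norm_natCast]
    rw [this, e1]
    refine (norm_sum_le _ _).trans ((sum_le_sum fun τ _ => e2 τ).trans ?_)
    rw [← sum_filter, sum_const, nsmul_eq_mul, mul_comm]
  exact le_of_mul_le_mul_left e4 (by exact_mod_cast hM)

lemma card_cong_le {n : ℕ} [NeZero n] (D : ℕ) (hD : D ∣ n) (T : Finset (ZMod n))
    (hT : ∀ a ∈ T, ∀ b ∈ T, (D : ℤ) ∣ (a.val : ℤ) - b.val) : T.card ≤ n / D := by
  have hD0 : 0 < D := Nat.pos_of_dvd_of_pos hD (Nat.pos_of_ne_zero (NeZero.ne n))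
  rw [← card_range (n / D)]
  refine card_le_card_of_injOn (fun a => a.val / D) ?_ ?_
  · intro a _
    simp only [coe_range, Set.mem_Iio]
    exact Nat.div_lt_div_of_lt_of_dvd hD (ZMod.val_lt a)
  · intro a ha b hb h
    simp only at h
    have h1 : b.val % D = a.val % D := (Nat.modEq_iff_dvd.2 (hT a ha b hb))
    apply ZMod.val_injective
    rw [← Nat.div_add_mod a.val D, ← Nat.div_add_mod b.val D, h, h1]

lemma pow_dvd_or {p X Y : ℤ} (hp : Prime p) (k g : ℕ) (hk : 2 * k ≤ g + 1) (h : p ^ g ∣ X * Y) :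
    p ^ k ∣ X ∨ p ^ k ∣ Y := by
  by_contra hc
  rw [not_or] at hc
  have hX : X ≠ 0 := by rintro rfl; exact hc.1 (dvd_zero _)
  have hY : Y ≠ 0 := by rintro rfl; exact hc.2 (dvd_zero _)
  obtain ⟨a, X', hX', rfl⟩ := WfDvdMonoid.max_power_factor hX hp.irreducible
  obtain ⟨b, Y', hY', rfl⟩ := WfDvdMonoid.max_power_factor hY hp.irreducible
  have ha : a < k := by
    by_contra ha
    exact hc.1 (Dvd.dvd.mul_right (pow_dvd_pow p (not_lt.1 ha)) _)
  have hb : b < k := by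
    by_contra hb
    exact hc.2 (Dvd.dvd.mul_right (pow_dvd_pow p (not_lt.1 hb)) _)
  have h1 : p ^ (a + b) * p ∣ p ^ (a + b) * (X' * Y') := by
    rw [← pow_succ]
    refine (pow_dvd_pow p (by omega : a + b + 1 ≤ g)).trans ?_
    have e : p ^ (a + b) * (X' * Y') = p ^ a * X' * (p ^ b * Y') := by ring
    rw [e]; exact h
  have h2 := (mul_dvd_mul_iff_left (pow_ne_zero (a + b) hp.ne_zero)).1 h1
  exact (hp.dvd_or_dvd h2).elim hX' hY'

open Classical in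
lemma card_bad_le {l e f g k : ℕ} (hl : l.Prime) (hefg : f + g = e) (hke : k ≤ e) (n : ℕ)
    [NeZero n] (hn : n = l ^ e) (hk : ∀ X Y : ℤ, (l : ℤ) ^ g ∣ 4 * (X * Y) →
      (l : ℤ) ^ k ∣ X ∨ (l : ℤ) ^ k ∣ Y)
    (b y1 y2 : ZMod n) (hb : IsUnit b) (hy : IsUnit y1 ∨ IsUnit y2) :
    (univ.filter fun τ : ZMod n => (l : ZMod n) ^ f * Gd b y1 y2 τ = 0).card ≤ 2 * (n / l ^ k) := by
  set T := univ.filter fun τ : ZMod n => (l : ZMod n) ^ f * Gd b y1 y2 τ = 0 with hT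
  rcases Nat.eq_zero_or_pos k with rfl | hk0
  · have : T.card ≤ n := by
      have := card_le_univ T
      rwa [ZMod.card] at this
    simp only [pow_zero, Nat.div_one]
    omega
  rcases T.eq_empty_or_nonempty with h | ⟨τ0, hτ0⟩
  · rw [h]; simp
  have hD : l ^ k ∣ n := by rw [hn]; exact pow_dvd_pow l hke
  have hl' : Prime (l : ℤ) := Nat.prime_iff_prime_int.1 hl
  have key : ∀ τ ∈ T, ((l ^ k : ℕ) : ℤ) ∣ (τ.val : ℤ) - τ0.val ∨
      ((l ^ k : ℕ) : ℤ) ∣ (b.val : ℤ) ^ 2 + τ.val * τ0.val := by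
    intro τ hτ
    simp only [hT, mem_filter, mem_univ, true_and, Gd] at hτ hτ0
    have h1 : (l : ZMod n) ^ f * (4 * ((τ - τ0) * (b ^ 2 + τ * τ0))) = 0 := by
      rcases hy with hy | hy
      · apply ((hb.pow 2).mul hy).mul_right_eq_zero.1
        linear_combination (b ^ 2 - τ0 ^ 2) * hτ - (b ^ 2 - τ ^ 2) * hτ0
      · apply (hb.mul hy).mul_right_eq_zero.1
        linear_combination 2 * τ * hτ0 - 2 * τ0 * hτ
    have h2 : ((((l : ℤ) ^ f * (4 * (((τ.val : ℤ) - τ0.val) *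
        ((b.val : ℤ) ^ 2 + τ.val * τ0.val)))) : ℤ) : ZMod n) = 0 := by
      push_cast
      simp only [ZMod.natCast_val, ZMod.cast_id', id_eq]
      exact h1
    rw [ZMod.intCast_zmod_eq_zero_iff_dvd] at h2
    have hn' : (n : ℤ) = (l : ℤ) ^ f * (l : ℤ) ^ g := by
      rw [← pow_add, hefg]; exact_mod_cast hn
    rw [hn'] at h2
    push_cast
    exact hk _ _ ((mul_dvd_mul_iff_left (pow_ne_zero f hl'.ne_zero)).1 h2)
  have hsub : T ⊆ (T.filter fun τ => ((l ^ k : ℕ) : ℤ) ∣ (τ.val : ℤ) - τ0.val) ∪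
      (T.filter fun τ => ((l ^ k : ℕ) : ℤ) ∣ (b.val : ℤ) ^ 2 + τ.val * τ0.val) := by
    intro τ hτ
    rw [mem_union]
    exact (key τ hτ).imp (fun h => mem_filter.2 ⟨hτ, h⟩) (fun h => mem_filter.2 ⟨hτ, h⟩)
  refine (card_le_card hsub).trans ((card_union_le _ _).trans ?_)
  rw [two_mul]
  refine add_le_add (card_cong_le _ hD _ ?_) (card_cong_le _ hD _ ?_)
  · intro a ha a' ha'
    rw [mem_filter] at ha ha'
    have := dvd_sub ha.2 ha'.2
    simpa using this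
  · intro a ha a' ha'
    rw [mem_filter] at ha ha'
    have h1 := dvd_sub ha.2 ha'.2
    have h2 : (b.val : ℤ) ^ 2 + a.val * τ0.val - ((b.val : ℤ) ^ 2 + a'.val * τ0.val) =
        τ0.val * ((a.val : ℤ) - a'.val) := by ring
    rw [h2] at h1
    have h3 : ¬ (l : ℤ) ∣ τ0.val := by
      intro h3
      have h4 : (l : ℤ) ∣ (b.val : ℤ) ^ 2 + a.val * τ0.val :=
        (dvd_pow_self (l : ℤ) hk0.ne').trans (by exact_mod_cast ha.2)
      have h5 : (l : ℤ) ∣ (b.val : ℤ) ^ 2 := (dvd_add_left (Dvd.dvd.mul_left h3 _)).1 h4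
      have h6 : l ∣ b.val := by exact_mod_cast hl'.dvd_of_dvd_pow h5
      have h7 : IsUnit ((b.val : ℕ) : ZMod n) := by rwa [ZMod.natCast_zmod_val]
      rw [ZMod.isUnit_iff_coprime] at h7
      have h8 : l ∣ n := (dvd_pow_self l hk0.ne').trans hD
      exact hl.one_lt.ne' (Nat.eq_one_of_dvd_coprimes h7 h6 h8)
    push_cast at h1 ⊢
    exact (hl'.pow_dvd_of_dvd_mul_left k h3 h1)

lemma exists_k (l g : ℕ) (hl : l.Prime) : ∃ k, k ≤ g ∧ l ^ g ≤ 4 * (l ^ k) ^ 2 ∧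
    ∀ X Y : ℤ, (l : ℤ) ^ g ∣ 4 * (X * Y) → (l : ℤ) ^ k ∣ X ∨ (l : ℤ) ^ k ∣ Y := by
  have hl' : Prime (l : ℤ) := Nat.prime_iff_prime_int.1 hl
  by_cases h2 : l = 2
  · subst h2
    refine ⟨(g - 1) / 2, by omega, ?_, ?_⟩
    · rw [← pow_mul, show 4 = 2 ^ 2 by norm_num, ← pow_add]
      exact Nat.pow_le_pow_right (by norm_num) (by omega)
    · intro X Y h
      refine pow_dvd_or hl' _ (g - 2) (by omega) ?_
      rcases Nat.lt_or_ge g 2 with hg | hg
      · rw [show g - 2 = 0 by omega, pow_zero]; exact one_dvd _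
      · obtain ⟨g', rfl⟩ := Nat.exists_eq_add_of_le hg
        rw [pow_add] at h
        rw [Nat.add_sub_cancel_left]
        have e : (4 : ℤ) = ((2 : ℕ) : ℤ) ^ 2 := by norm_num
        rw [e] at h
        exact (mul_dvd_mul_iff_left (by norm_num)).1 h
  · refine ⟨(g + 1) / 2, by omega, ?_, ?_⟩
    · rw [← pow_mul]
      have := Nat.pow_le_pow_right hl.pos (by omega : g ≤ (g + 1) / 2 * 2)
      omega
    · intro X Y h
      refine pow_dvd_or hl' _ g (by omega) ?_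
      refine hl'.pow_dvd_of_dvd_mul_left g ?_ h
      intro h4
      have e : (4 : ℤ) = 2 ^ 2 := by norm_num
      rw [e] at h4
      have h5 : l ∣ 2 := by exact_mod_cast hl'.dvd_of_dvd_pow h4
      exact h2 ((Nat.prime_dvd_prime_iff_eq hl Nat.prime_two).1 h5)

/-- The complete local bound. -/
theorem loc (η : ℝ) (hη : 0 < η) : ∃ L : ℕ, ∀ (l e n : ℕ) [NeZero n], l.Prime → 1 ≤ e →
    n = l ^ e → L < n → ∀ b y1 y2 : ZMod n, IsUnit b → (IsUnit y1 ∨ IsUnit y2) →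
    ‖∑ τ : ZMod n, Hloc b y1 y2 τ‖ ≤ η * n := by
  obtain ⟨L, hL⟩ := exists_nat_ge (2 + 2 / η + 96 / η ^ 4 + (4 * (2 / η) ^ 2) ^ 3)
  refine ⟨L, ?_⟩
  intro l e n _ hl he hn hLn b y1 y2 hb hy
  have hLn' : (L : ℝ) < n := by exact_mod_cast hLn
  have p1 : 0 < 2 / η := by positivity
  have p2 : 0 < 96 / η ^ 4 := by positivity
  have p3 : 0 < (4 * (2 / η) ^ 2) ^ 3 := by positivity
  rcases Nat.lt_or_ge e 2 with he2 | he2
  · have : n = l := by rw [hn, show e = 1 by omega, pow_one]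
    subst this
    have : Fact n.Prime := ⟨hl⟩
    exact loc_prime η hη (by linarith) b y1 y2 hb hy
  · obtain ⟨k, hkg, hk1, hk2⟩ := exists_k l (e / 2) hl
    have hzero : ∀ j, e ≤ j → (l : ZMod n) ^ j = 0 := by
      intro j hj
      have : ((l ^ j : ℕ) : ZMod n) = 0 := by
        rw [ZMod.natCast_eq_zero_iff, hn]; exact pow_dvd_pow l hj
      exact_mod_cast this
    have h1 := norm_sum_Hloc_le_card b y1 y2 ((l : ZMod n) ^ (e - e / 2)) (l ^ (e / 2))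
      (pow_pos hl.pos _) (by rw [← pow_mul]; exact hzero _ (by omega))
      (by push_cast; rw [← pow_add]; exact hzero _ (by omega))
    have h2 := card_bad_le (f := e - e / 2) (g := e / 2) hl (by omega : e - e / 2 + e / 2 = e)
      (by omega : k ≤ e) n hn hk2 b y1 y2 hb hy
    refine h1.trans ?_
    have h3 : ((2 * (n / l ^ k) : ℕ) : ℝ) ≤ η * n := by
      have hD0 : (0 : ℝ) < (l ^ k : ℕ) := by exact_mod_cast pow_pos hl.pos k
      have a1 : n ≤ (4 * (l ^ k) ^ 2) ^ 3 := by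
        calc n = l ^ e := hn
          _ ≤ (l ^ (e / 2)) ^ 3 := by
            rw [← pow_mul]; exact Nat.pow_le_pow_right hl.pos (by omega)
          _ ≤ _ := Nat.pow_le_pow_left hk1 3
      have a2 : (n : ℝ) ≤ (4 * ((l ^ k : ℕ) : ℝ) ^ 2) ^ 3 := by exact_mod_cast a1
      have a3 : (4 * (2 / η) ^ 2) ^ 3 ≤ (4 * ((l ^ k : ℕ) : ℝ) ^ 2) ^ 3 := by linarith
      have a4 := le_of_pow_le_pow_left₀ (by norm_num : (3 : ℕ) ≠ 0) (by positivity) a3
      have a5 : 2 / η ≤ ((l ^ k : ℕ) : ℝ) :=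
        le_of_pow_le_pow_left₀ (by norm_num : (2 : ℕ) ≠ 0) hD0.le (by linarith)
      have a6 : ((n / l ^ k : ℕ) : ℝ) ≤ n / ((l ^ k : ℕ) : ℝ) := Nat.cast_div_le
      rw [div_le_iff₀ hη] at a5
      rw [le_div_iff₀ hD0] at a6
      have a7 : (0 : ℝ) ≤ ((n / l ^ k : ℕ) : ℝ) := Nat.cast_nonneg _
      rw [Nat.cast_mul]
      generalize ((n / l ^ k : ℕ) : ℝ) = x at *
      generalize ((l ^ k : ℕ) : ℝ) = D at *
      push_cast
      nlinarith
    refine le_trans ?_ h3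
    exact_mod_cast h2

end Pool.Agent.P.MP_8b2bd9_co
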