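import Pool.Agent.P.MP_8b2bd9_co.Cx2

/-! The spectral inequality for rotation invariant measures on the dual of `ℚ(i)`. -/

set_option autoImplicit false

open Complex Finset MeasureTheory Filter Topology

noncomputable section

namespace Pool.Agent.P.MP_8b2bd9_co

lemma continuous_pair_right (x : ℂ) : Continuous fun y => pair x y := by
  simp only [pair_eq]; fun_prop

lemma measurableSet_good (k Q N : ℕ) : MeasurableSet {χ | GoodT k Q N χ} := by
  have : {χ | GoodT k Q N χ} = ⋃ q, ⋃ a,
      Prod.fst '' {p : Om × ℂ | GoodData k Q p.1 q a p.2 ∧ N.Coprime q} := by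
    ext; simp [GoodT]
  rw [this]
  refine MeasurableSet.iUnion fun q => MeasurableSet.iUnion fun a =>
    (IsCompact.image ?_ continuous_fst).isClosed.measurableSet
  refine (isCompact_univ.prod (isCompact_closedBall (0 : ℂ) Q)).of_isClosed_subset ?_ ?_
  · simp only [GoodData, Set.ofPred_and, Set.ofPred_forall]
    refine (isClosed_const.inter (isClosed_const.inter (isClosed_const.inter
      ((isClosed_le continuous_snd.norm continuous_const).inter
        (isClosed_iInter fun g => isClosed_eq ((continuous_ev _).comp continuous_fst)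
          ?_))))).inter isClosed_const
    exact continuous_ee.comp (continuous_const.mul ((continuous_pair_right _).comp continuous_snd))
  · rintro p ⟨⟨-, -, -, h, -⟩, -⟩
    simpa using h

lemma continuous_Psi (r : ℕ) (d : ℕ → ℕ) : Continuous (Psi r d) := by
  unfold Psi
  exact continuous_const.add (continuous_finsetSum _ fun i _ =>
    continuous_const.mul (Complex.continuous_re.comp (continuous_ev _)))

lemma sum_two_pow (r : ℕ) : ∑ i ∈ range r, (2 : ℝ) ^ i = 2 ^ r - 1 := by
  induction r with
  | zero => simp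
  | succ r ih => rw [sum_range_succ, ih]; ring

lemma abs_Psi_le (r : ℕ) (d : ℕ → ℕ) (χ : Om) : |Psi r d χ| ≤ 2 ^ r := by
  have h : |∑ i ∈ range r, 2 ^ i * (χ.1 (d i)).re| ≤ 2 ^ r - 1 := by
    rw [← sum_two_pow]
    refine (abs_sum_le_sum_abs _ _).trans (sum_le_sum fun i _ => ?_)
    rw [abs_mul, abs_of_pos (by positivity)]
    have := Complex.abs_re_le_norm (χ.1 (d i))
    rw [Om.norm] at this
    exact mul_le_of_le_one_right (by positivity) this
  have := abs_add_le 1 (∑ i ∈ range r, 2 ^ i * (χ.1 (d i)).re)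
  rw [abs_one] at this
  unfold Psi
  linarith

lemma integrable_Psi (r : ℕ) (d : ℕ → ℕ) (μ : Measure Om) [IsFiniteMeasure μ] (w : K) :
    Integrable (fun χ => Psi r d (act w χ)) μ :=
  Integrable.of_bound ((continuous_Psi r d).comp (continuous_act w)).aestronglyMeasurable (2 ^ r)
    (Eventually.of_forall fun _ => abs_Psi_le r d _)

lemma integral_act {μ : Measure Om} (hμ : UInv μ) {w : K} (hw : ‖(w : ℂ)‖ = 1) {f : Om → ℝ}
    (hf : Measurable f) : ∫ χ, f (act w χ) ∂μ = ∫ χ, f χ ∂μ := by
  have := integral_map (μ := μ) (φ := act w) (measurable_act w).aemeasurable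
    (f := f) hf.aestronglyMeasurable
  rw [(hμ w hw).map_eq] at this
  exact this.symm

theorem spectral (r : ℕ) : ∃ d : ℕ → ℕ, (∀ i, 0 < d i) ∧
    ∀ μ : Measure Om, IsProbabilityMeasure μ → UInv μ → -1 / 2 ≤ ∫ χ, Psi r d χ ∂μ := by
  classical
  set η : ℝ := 1 / (54 * 2 ^ r) with hη
  have h2r : (1 : ℝ) ≤ 2 ^ r := one_le_pow₀ (by norm_num)
  have hη0 : 0 < η := by positivity
  have hη1 : η ≤ 1 := by rw [hη, div_le_one (by positivity)]; linarith
  obtain ⟨d, hd, E, C, hmod⟩ := model r η hη0 hη1
  refine ⟨d, hd, fun μ _ hμ => ?_⟩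
  obtain ⟨S, mS, hS, hz, G, hG, hdet⟩ := host μ hμ
  have iP : ∀ (ν : Measure Om) [IsFiniteMeasure ν], Integrable (Psi r d) ν := fun ν _ => by
    simpa only [act_one] using integrable_Psi r d ν 1
  rw [← integral_add_compl mS (iP μ)]
  have h1 : 0 ≤ ∫ χ in Sᶜ, Psi r d χ ∂μ := by
    have ie : ∀ i, Integrable (fun χ : Om => 2 ^ i * (χ.1 (d i)).re) (μ.restrict Sᶜ) := fun i =>
      (integrable_ev _ _).re.const_mul _
    unfold Psi
    rw [integral_add (integrable_const _) (integrable_finsetSum _ fun i _ => ie i),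
      integral_finsetSum _ fun i _ => ie i]
    have : ∀ i ∈ range r, ∫ χ in Sᶜ, 2 ^ i * (χ.1 (d i)).re ∂μ = 0 := by
      intro i _
      have e1 := integral_re (integrable_ev (μ.restrict Sᶜ) (d i))
      simp only [RCLike.re_to_complex] at e1
      rw [integral_const_mul, e1, hz _ (Nat.cast_ne_zero.2 (hd i).ne')]
      simp
    rw [sum_eq_zero this]
    simp
  set ν := μ.restrict S with hν
  have hν1 : ν.real Set.univ ≤ 1 := by
    rw [hν, measureReal_restrict_apply_univ]; exact measureReal_le_one
  obtain ⟨k, Q, hQ, hC, hbad⟩ := complexity ν hS hG hdet η hη0 E C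
  obtain ⟨W, b, hW, hb, hcop, hpt⟩ := hmod k Q hQ hC
  have hW0 : (0 : ℝ) < W.card := by exact_mod_cast hW.card_pos
  set I : ℕ → Om → ℝ := fun N χ => if ¬GoodT k Q N χ then 1 else 0 with hI
  have mI : ∀ N, Measurable (I N) := fun N =>
    Measurable.ite (measurableSet_good k Q N).compl measurable_const measurable_const
  have iI : ∀ N w, Integrable (fun χ => I N (act w χ)) ν := fun N w =>
    Integrable.of_bound ((mI N).comp (measurable_act w)).aestronglyMeasurable 1
      (Eventually.of_forall fun χ => by simp only [hI]; split_ifs <;> simp)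
  have iI' : ∀ N, Integrable (I N) ν := fun N => by simpa only [act_one] using iI N 1
  have I0 : ∀ N χ, 0 ≤ I N χ := fun N χ => by simp only [hI]; split_ifs <;> simp
  have I1 : ∀ N χ, I N χ ≤ 1 := fun N χ => by simp only [hI]; split_ifs <;> simp
  have e1 : ∫ χ, I 1 χ ∂ν ≤ η := by
    refine le_trans (le_of_eq ?_) hbad
    have mm : MeasurableSet {χ | ¬GoodT k Q 1 χ} := (measurableSet_good k Q 1).compl
    rw [← integral_indicator_one mm]
    congr 1
    funext χ
    by_cases h : GoodT k Q 1 χ <;> simp [hI, h]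
  have hu : ∀ t, ‖((uz (zt b t) : K) : ℂ)‖ = 1 := fun t => norm_uz (zt_ne_zero hb t)
  have e2 : ∑ t ∈ W, ∫ χ, I (Nt b t) (act (uz (zt b t)) χ) ∂ν ≤ 2 * η * W.card := by
    simp only [integral_act hS (hu _) (mI _)]
    rw [← integral_finsetSum _ fun t _ => iI' _]
    calc ∫ χ, ∑ t ∈ W, I (Nt b t) χ ∂ν ≤ ∫ χ, (η * W.card + W.card * I 1 χ) ∂ν := by
          refine integral_mono (integrable_finsetSum _ fun t _ => iI' _)
            ((integrable_const _).add ((iI' 1).const_mul _)) fun χ => ?_
          simp only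
          by_cases h : GoodT k Q 1 χ
          · obtain ⟨q, a, ξ, h, -⟩ := h
            have a1 := hcop q h.1 (le_trans (Nat.le_mul_of_pos_right _ (by positivity)) h.2.2.1)
              h.2.1
            have a2 : ∑ t ∈ W, I (Nt b t) χ ≤ (W.filter fun t => ¬(Nt b t).Coprime q).card := by
              rw [card_filter]
              push_cast
              refine sum_le_sum fun t _ => ?_
              by_cases hc : (Nt b t).Coprime q
              · have : GoodT k Q (Nt b t) χ := ⟨q, a, ξ, h, hc⟩
                rw [if_neg (not_not.2 hc)]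
                simp [hI, this]
              · rw [if_pos hc]; exact I1 _ _
            have := mul_nonneg hW0.le (I0 1 χ)
            linarith
          · have a1 : ∑ t ∈ W, I (Nt b t) χ ≤ ∑ t ∈ W, 1 := sum_le_sum fun t _ => I1 _ _
            have a2 : I 1 χ = 1 := by simp [hI, h]
            simp only [sum_const, nsmul_eq_mul, mul_one] at a1
            have := mul_pos hη0 hW0
            rw [a2]
            linarith
      _ ≤ _ := by
          rw [integral_add (integrable_const _) ((iI' 1).const_mul _), integral_const,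
            integral_const_mul, smul_eq_mul]
          have := mul_pos hη0 hW0
          nlinarith
  have i3 := integrable_finsetSum W fun t _ => iI (Nt b t) (uz (zt b t))
  have e3 : ∫ χ, -(2 ^ r * (22 * η * W.card + 2 * ∑ t ∈ W, I (Nt b t) (act (uz (zt b t)) χ) +
      W.card * I 1 χ)) ∂ν ≤ ∫ χ, ∑ t ∈ W, Psi r d (act (uz (zt b t)) χ) ∂ν := by
    refine integral_mono ((((integrable_const _).add (i3.const_mul _)).add
      ((iI' 1).const_mul _)).const_mul _).neg
      (integrable_finsetSum _ fun t _ => integrable_Psi r d ν _) fun χ => ?_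
    simp only
    have a0 : 0 ≤ ∑ t ∈ W, I (Nt b t) (act (uz (zt b t)) χ) := sum_nonneg fun t _ => I0 _ _
    by_cases h : GoodT k Q 1 χ
    · have a1 := hpt χ h
      rw [card_filter] at a1
      push_cast at a1
      have a2 : I 1 χ = 0 := by simp [hI, h]
      rw [a2, mul_zero, add_zero]
      exact a1
    · have a2 : I 1 χ = 1 := by simp [hI, h]
      have a1 : ∑ t ∈ W, (-2 ^ r : ℝ) ≤ ∑ t ∈ W, Psi r d (act (uz (zt b t)) χ) :=
        sum_le_sum fun t _ => (abs_le.1 (abs_Psi_le r d _)).1
      simp only [sum_const, nsmul_eq_mul] at a1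
      rw [a2]
      have := mul_pos hη0 hW0
      nlinarith
  have i4 : Integrable (fun χ => 22 * η * W.card +
      2 * ∑ t ∈ W, I (Nt b t) (act (uz (zt b t)) χ)) ν :=
    (integrable_const _).add (i3.const_mul _)
  rw [integral_finsetSum _ fun t _ => integrable_Psi r d ν _, integral_neg, integral_const_mul,
    integral_add i4 ((iI' 1).const_mul _),
    integral_add (integrable_const _) (i3.const_mul _), integral_const, integral_const_mul,
    integral_const_mul, integral_finsetSum _ fun t _ => iI _ _, smul_eq_mul] at e3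
  simp only [integral_act hS (hu _) (continuous_Psi r d).measurable, sum_const,
    nsmul_eq_mul] at e3
  have e4 : ν.real Set.univ * (22 * η * W.card) +
      2 * ∑ t ∈ W, ∫ χ, I (Nt b t) (act (uz (zt b t)) χ) ∂ν + W.card * ∫ χ, I 1 χ ∂ν ≤
      27 * η * W.card := by
    have := mul_pos hη0 hW0
    nlinarith
  have e5 : 2 ^ r * (27 * η * W.card) = W.card * (1 / 2 : ℝ) := by rw [hη]; field_simp; ring
  have e6 := mul_le_mul_of_nonneg_left e4 (by positivity : (0 : ℝ) ≤ 2 ^ r)
  have e7 : W.card * (-1 / 2 : ℝ) ≤ W.card * ∫ χ, Psi r d χ ∂ν := by linarith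
  have := le_of_mul_le_mul_left e7 hW0
  linarith

end Pool.Agent.P.MP_8b2bd9_co
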