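import Pool.Agent.P.MP_8b2bd9_co.Sums2

/-! Nearly torsion characters and the pointwise inequality for them. -/

set_option autoImplicit false

open Complex Finset

noncomputable section

namespace Pool.Agent.P.MP_8b2bd9_co

/-- On the lattice `5 ^ (-k) ℤ[i]` the character is a torsion character of small order times a
continuous character of small frequency. -/
def GoodData (k Q : ℕ) (χ : Om) (q a : ℕ) (ξ : ℂ) : Prop :=
  0 < q ∧ q.Coprime 5 ∧ q * 5 ^ a ≤ Q ∧ ‖ξ‖ ≤ Q ∧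
  ∀ g : GaussianInt, χ.1 (((q * 5 ^ a : ℕ) : K) * (gi g / 5 ^ k)) =
      ee (((q * 5 ^ a : ℕ) : ℝ) * pair ((g : ℂ) / 5 ^ k) ξ)

/-- Good characters whose order is prime to `N`. -/
def GoodT (k Q N : ℕ) (χ : Om) : Prop := ∃ q a ξ, GoodData k Q χ q a ξ ∧ N.Coprime q

/-- The torsion part. -/
def rho (χ : Om) (ξ : ℂ) : AddChar GaussianInt ℂ where
  toFun g := χ.1 (gi g) * ee (-pair g ξ)
  map_zero_eq_one' := by simp [Om.zero, pair, ee_zero]
  map_add_eq_mul' := by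
    intro a b
    rw [map_add, Om.add, map_add, pair_add_left, neg_add, ee_add]; ring

lemma rho_apply (χ : Om) (ξ : ℂ) (g : GaussianInt) :
    rho χ ξ g = χ.1 (gi g) * ee (-pair g ξ) := rfl

lemma norm_rho (χ : Om) (ξ : ℂ) (g : GaussianInt) : ‖rho χ ξ g‖ = 1 := by
  rw [rho_apply, norm_mul, Om.norm, norm_ee, one_mul]

/-- The weighted test function. -/
def Psi (r : ℕ) (d : ℕ → ℕ) (χ : Om) : ℝ := 1 + ∑ i ∈ range r, 2 ^ i * (χ.1 (d i)).re

lemma five_ne_zero_K : (5 : K) ≠ 0 := by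
  rw [← gi_five]; exact mul_ne_zero (gi_ne_zero PP_ne_zero) (gi_ne_zero PQ_ne_zero)

lemma GoodData.kills {k Q : ℕ} {χ : Om} {q a : ℕ} {ξ : ℂ} (h : GoodData k Q χ q a ξ)
    (hQ : Q ≤ 5 ^ k) : Kills (rho χ ξ) q := by
  obtain ⟨hq0, -, hle, -, h⟩ := h
  have hak : a ≤ k := by
    have : 5 ^ a ≤ 5 ^ k := le_trans (Nat.le_mul_of_pos_left _ hq0) (hle.trans hQ)
    exact (Nat.pow_le_pow_iff_right (by norm_num)).1 this
  obtain ⟨j, rfl⟩ := Nat.exists_eq_add_of_le hak
  intro g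
  have h1 := h (5 ^ j * g)
  have e1 : (((q * 5 ^ a : ℕ) : K) * (gi (5 ^ j * g) / 5 ^ (a + j))) = gi (q * g) := by
    have := five_ne_zero_K
    simp only [map_mul, map_pow, map_natCast, map_ofNat]
    push_cast
    field_simp
    ring
  have e2 : ((q * 5 ^ a : ℕ) : ℝ) * pair (((5 ^ j * g : GaussianInt) : ℂ) / 5 ^ (a + j)) ξ =
      pair ((q * g : GaussianInt) : ℂ) ξ := by
    rw [← pair_real_mul_left]
    congr 1
    simp only [map_mul, map_pow, map_natCast, map_ofNat]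
    push_cast
    field_simp
    ring
  rw [e1, e2] at h1
  rw [rho_apply, h1, ← ee_add, add_neg_cancel, ee_zero]

lemma eq_zero_of_ee {x : ℝ} (h : ee x = 1) (hx : |x| < 1) : x = 0 := by
  obtain ⟨n, rfl⟩ := (ee_eq_one_iff x).1 h
  have : |n| < 1 := by exact_mod_cast hx
  have : n = 0 := Int.abs_lt_one_iff.1 this
  simp [this]

lemma freq_transfer {k Q : ℕ} {χ : Om} {z : GaussianInt} (hz : z ≠ 0) {q a q' a' : ℕ} {ξ ξ' : ℂ}
    (h : GoodData k Q χ q a ξ) (h' : GoodData k Q (act (uz z) χ) q' a' ξ')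
    (hsize : 2 * (Q : ℝ) ^ 3 * ‖(z : ℂ)‖ < 5 ^ k) :
    (starRingEnd ℂ) (z : ℂ) * ξ = z * ξ' := by
  obtain ⟨hq0, -, hle, hξ, h⟩ := h
  obtain ⟨hq0', -, hle', hξ', h'⟩ := h'
  set n := q * 5 ^ a with hn
  set n' := q' * 5 ^ a' with hn'
  have hn0 : 0 < n := by positivity
  have hn0' : 0 < n' := by positivity
  have hsz : gi (star z) ≠ 0 := gi_ne_zero (star_ne_zero.2 hz)
  set D := (starRingEnd ℂ) (z : ℂ) * ξ - z * ξ' with hD
  have key : ∀ g : GaussianInt, ee (n * n' * pair ((g : ℂ) / 5 ^ k) D) = 1 := by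
    intro g
    have h1 := h (n' * (z * g))
    have h2 := h' (n * (star z * g))
    rw [act_apply] at h2
    have e : uz z * ((n' : K) * (gi (n * (star z * g)) / 5 ^ k)) =
        (n : K) * (gi (n' * (z * g)) / 5 ^ k) := by
      simp only [uz, map_mul, map_natCast]
      field_simp
    rw [e, h1] at h2
    have e1 : (n : ℝ) * pair (((n' * (z * g) : GaussianInt) : ℂ) / 5 ^ k) ξ =
        n * n' * pair ((g : ℂ) / 5 ^ k) ((starRingEnd ℂ) (z : ℂ) * ξ) := by
      rw [← pair_mul_left, mul_assoc, ← pair_real_mul_left n']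
      congr 2
      simp only [map_mul, map_natCast]
      push_cast; ring
    have e2 : (n' : ℝ) * pair (((n * (star z * g) : GaussianInt) : ℂ) / 5 ^ k) ξ' =
        n * n' * pair ((g : ℂ) / 5 ^ k) (z * ξ') := by
      have : (z : ℂ) * ξ' = (starRingEnd ℂ) ((starRingEnd ℂ) (z : ℂ)) * ξ' := by simp
      rw [this, ← pair_mul_left, mul_comm (n : ℝ), mul_assoc, ← pair_real_mul_left n]
      congr 2
      simp only [map_mul, map_natCast, coe_star]
      push_cast; ring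
    rw [e1, e2] at h2
    rw [hD, pair_sub_right, mul_sub, ee_sub, h2, div_self (ee_ne_zero _)]
  have hnn : (0 : ℝ) < n * n' := by positivity
  have h5 : (0 : ℝ) < 5 ^ k := by positivity
  have hDn : ‖D‖ ≤ 2 * Q * ‖(z : ℂ)‖ := by
    refine (norm_sub_le _ _).trans ?_
    rw [norm_mul, norm_mul, Complex.norm_conj]
    have := norm_nonneg (z : ℂ)
    nlinarith
  have hnQ : (n : ℝ) * n' ≤ Q ^ 2 := by
    have a1 : (n : ℝ) ≤ Q := by exact_mod_cast hle
    have a2 : (n' : ℝ) ≤ Q := by exact_mod_cast hle'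
    rw [sq]; gcongr
  have small : ∀ g : GaussianInt, ‖(g : ℂ)‖ = 1 → pair (g : ℂ) D = 0 := by
    intro g hg
    have e : pair ((g : ℂ) / 5 ^ k) D = (1 / 5 ^ k : ℝ) * pair g D := by
      rw [← pair_real_mul_left]; congr 1; push_cast; ring
    have h1 := eq_zero_of_ee (key g) (by
      rw [e, abs_mul, abs_mul (1 / 5 ^ k : ℝ), abs_of_pos hnn, abs_of_pos (by positivity)]
      have b1 := abs_pair_le g D
      rw [hg, one_mul] at b1
      have b2 : (n : ℝ) * n' * |pair g D| ≤ Q ^ 2 * (2 * Q * ‖(z : ℂ)‖) :=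
        mul_le_mul hnQ (b1.trans hDn) (abs_nonneg _) (by positivity)
      have b3 : (n : ℝ) * n' * (1 / 5 ^ k * |pair g D|) = n * n' * |pair g D| / 5 ^ k := by ring
      rw [b3, div_lt_one h5]
      nlinarith)
    rw [e] at h1
    have : (n : ℝ) * n' * (1 / 5 ^ k) ≠ 0 := by positivity
    exact (mul_eq_zero.1 (by rw [← h1]; ring)).resolve_left this
  have r1 := small 1 (by simp)
  have r2 := small ⟨0, 1⟩ (by simp [GaussianInt.toComplex_def'])
  rw [pair_eq] at r1 r2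
  simp [GaussianInt.toComplex_def'] at r1 r2
  exact sub_eq_zero.1 (Complex.ext r1 r2)

lemma transfer {k Q : ℕ} {χ : Om} {z : GaussianInt} (hz : z ≠ 0) {N : ℕ}
    (hN : star z * z = N) {q a q' a' : ℕ} {ξ ξ' : ℂ}
    (h : GoodData k Q χ q a ξ) (h' : GoodData k Q (act (uz z) χ) q' a' ξ')
    (hsize : 2 * (Q : ℝ) ^ 3 * ‖(z : ℂ)‖ < 5 ^ k) (hQ : Q ≤ 5 ^ k)
    (hq : N.Coprime q) (hq' : N.Coprime q') {c : ℤ} (hc : (q : ℤ) ∣ c * N - 1) (d : ℕ) :
    (act (uz z) χ).1 d = rho χ ξ (d * (c * z ^ 2)) * ee (pair (uz z : K) (d * ξ)) := by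
  have hf := freq_transfer hz h h' hsize
  have k1 := h.kills hQ
  have k2 := h'.kills hQ
  have hsz : gi (star z) ≠ 0 := gi_ne_zero (star_ne_zero.2 hz)
  have hzc : (z : ℂ) ≠ 0 := fun h0 => hz (GaussianInt.toComplex_eq_zero.1 h0)
  have key : ∀ g, rho (act (uz z) χ) ξ' (star z * g) = rho χ ξ (z * g) := by
    intro g
    rw [rho_apply, rho_apply, act_apply]
    congr 2
    · simp only [uz, map_mul]; field_simp
    · simp only [map_mul, coe_star]
      rw [pair_mul_left, pair_mul_left, hf, Complex.conj_conj]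
  obtain ⟨c', hc'⟩ := exists_inv_int (Nat.Coprime.mul_right hq hq')
  have e1 : rho (act (uz z) χ) ξ' d = rho (act (uz z) χ) ξ' (star z * (c' * z * d)) := by
    apply k2.congr
    obtain ⟨x, hx⟩ := hc'
    have := congrArg (fun y : ℤ => (y : GaussianInt)) hx
    push_cast at this
    exact ⟨-(q * x * d), by linear_combination (-(d : GaussianInt)) * this - c' * d * hN⟩
  have e2 : rho χ ξ (z * (c' * z * d)) = rho χ ξ (d * (c * z ^ 2)) := by
    apply k1.congr
    obtain ⟨x, hx⟩ := hc'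
    obtain ⟨y, hy⟩ := hc
    have hx' := congrArg (fun y : ℤ => (y : GaussianInt)) hx
    have hy' := congrArg (fun y : ℤ => (y : GaussianInt)) hy
    push_cast at hx' hy'
    exact ⟨d * z ^ 2 * (c * q' * x - c' * y), by
      linear_combination (d * z ^ 2 * c : GaussianInt) * hx' - (d * z ^ 2 * c' : GaussianInt) * hy'⟩
  have e3 : pair ((d : GaussianInt) : ℂ) ξ' = pair (uz z : K) (d * ξ) := by
    have : ξ' = (starRingEnd ℂ) ((uz z : K) : ℂ) * ξ := by
      simp only [uz, Subfield.coe_div, coe_gi, coe_star, map_div₀, Complex.conj_conj]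
      field_simp
      linear_combination -hf
    have e4 : (d : ℂ) * ξ = ((d : ℝ) : ℂ) * ξ := by simp
    rw [this, ← pair_mul_left, e4, pair_real_mul_right, ← pair_real_mul_left]
    congr 1
    simp [mul_comm]
  rw [← e2, ← key, ← e1, rho_apply, ← e3, mul_assoc, ← ee_add, neg_add_cancel, ee_zero, mul_one,
    map_natCast]

lemma comb (r : ℕ) (x : ℕ → ℝ) (w η : ℝ) (hw : 0 ≤ w) (hη : 0 ≤ η) (p : ℕ → Prop)
    (h1 : ∀ i < r, -w ≤ x i) (h2 : ∀ i < r, ¬ p i → -(η * w) ≤ x i)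
    (h3 : ∀ i < r, p i → ∀ j < i, w - η * w ≤ x j) :
    -(2 ^ r * (η * w)) ≤ w + ∑ i ∈ range r, 2 ^ i * x i := by
  induction r with
  | zero => simp; nlinarith
  | succ r ih =>
    rw [sum_range_succ, pow_succ]
    have h0 : (0 : ℝ) < 2 ^ r := by positivity
    by_cases hp : p r
    · have a1 : ∑ i ∈ range r, 2 ^ i * (w - η * w) ≤ ∑ i ∈ range r, 2 ^ i * x i :=
        sum_le_sum fun i hi => mul_le_mul_of_nonneg_left
          (h3 r (by omega) hp i (mem_range.1 hi)) (by positivity)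
      have a2 : ∑ i ∈ range r, (2 : ℝ) ^ i = 2 ^ r - 1 := by
        rw [geom_sum_eq (by norm_num)]; norm_num
      rw [← sum_mul, a2] at a1
      have a3 := mul_le_mul_of_nonneg_left (h1 r (by omega)) h0.le
      have a4 := mul_nonneg hη hw
      nlinarith
    · have a1 := ih (fun i hi => h1 i (by omega)) (fun i hi => h2 i (by omega))
        (fun i hi => h3 i (by omega))
      have a3 := mul_le_mul_of_nonneg_left (h2 r (by omega) hp) h0.le
      nlinarith

lemma star_zt_mul (b t : ℕ) : star (zt b t) * zt b t = (Nt b t : ℕ) := by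
  apply Zsqrtd.ext <;> simp [zt, Nt, sq]
  ring

lemma coe_zt (b t : ℕ) : ((zt b t : GaussianInt) : ℂ) = t + b * I := by
  simp [zt, GaussianInt.toComplex_def']

lemma zt_ne_zero {b : ℕ} (hb : 0 < b) (t : ℕ) : zt b t ≠ 0 := by
  intro h
  have := congrArg Zsqrtd.im h
  simp [zt] at this
  omega

lemma coe_uz_zt {b : ℕ} (hb : 0 < b) (t : ℕ) : ((uz (zt b t) : K) : ℂ) = ur (t / b) := by
  have hb' : (b : ℂ) ≠ 0 := by exact_mod_cast hb.ne'
  simp only [uz, Subfield.coe_div, coe_gi, coe_star, coe_zt, ur, map_add, map_mul, Complex.conj_I,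
    map_natCast]
  push_cast
  have e1 : (t : ℂ) / b + I = (t + b * I) / b := by field_simp
  have e2 : (t : ℂ) / b - I = (t + b * -I) / b := by field_simp; ring
  rw [e1, e2, div_div_div_cancel_right₀ hb']

lemma norm_ur (τ : ℝ) : ‖ur τ‖ = 1 := by
  have : (τ : ℂ) + I = (starRingEnd ℂ) (τ - I) := by simp
  rw [ur, norm_div, this, Complex.norm_conj, div_self (norm_ne_zero_iff.2 (sub_I_ne_zero τ))]

lemma norm_sum_Fm_le (b m' T : ℕ) {ρ : AddChar GaussianInt ℂ} (hρ : ∀ g, ‖ρ g‖ = 1) (c : ℕ → ℤ)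
    (ζ : ℂ) : ‖∑ t ∈ range T, Fm b m' ρ c ζ t‖ ≤ cnt b m' T := by
  rw [cnt_cast]
  refine (norm_sum_le _ _).trans (sum_le_sum fun t _ => ?_)
  unfold Fm
  split_ifs
  · rw [norm_mul, hρ, norm_ee]; norm_num
  · simp

lemma re_sum_Fm_ge (b m' T : ℕ) {ρ : AddChar GaussianInt ℂ} (hρ : ∀ g, ρ g = 1) (c : ℕ → ℤ)
    (ζ : ℂ) : (1 - 7 * ‖ζ‖) * cnt b m' T ≤ (∑ t ∈ range T, Fm b m' ρ c ζ t).re := by
  rw [cnt_cast, re_sum, mul_sum]
  refine sum_le_sum fun t _ => ?_
  unfold Fm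
  split_ifs
  · rw [hρ, one_mul, mul_one]
    have h1 := norm_ee_sub_one_le (pair (ur (t / b)) ζ)
    have h2 := abs_pair_le (ur (t / b)) ζ
    rw [norm_ur, one_mul] at h2
    have h3 := (abs_le.1 (Complex.abs_re_le_norm (ee (pair (ur (t / b)) ζ) - 1))).1
    rw [sub_re, one_re] at h3
    linarith
  · simp

lemma Kills.of_coprime {ρ : AddChar GaussianInt ℂ} {q n : ℕ} (h : Kills ρ q) (h' : Kills ρ n)
    (hc : n.Coprime q) (g : GaussianInt) : ρ g = 1 := by
  obtain ⟨c, x, hx⟩ := exists_inv_int hc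
  have hx' := congrArg (fun y : ℤ => (y : GaussianInt)) hx
  push_cast at hx'
  rw [← h' (c * g)]
  apply h.congr
  exact ⟨-(x * g), by linear_combination (-g) * hx'⟩

lemma exists_m (P : ℕ) : ∃ m : ℕ, 0 < m ∧ m ≤ 4 ^ P ∧ m.Coprime 5 ∧
    ∀ l, l.Prime → l ≤ P → l ≠ 5 → l ∣ m := by
  refine ⟨∏ p ∈ ((range (P + 1)).filter Nat.Prime).erase 5, p, ?_, ?_, ?_, ?_⟩
  · exact prod_pos fun p hp => (mem_filter.1 (mem_of_mem_erase hp)).2.pos
  · refine le_trans ?_ (primorial_le_four_pow P)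
    exact Nat.le_of_dvd (primorial_pos P) (prod_dvd_prod_of_subset _ _ _ (erase_subset _ _))
  · refine Nat.Coprime.prod_left fun p hp => ?_
    exact (Nat.coprime_primes (mem_filter.1 (mem_of_mem_erase hp)).2 (by norm_num)).2
      (ne_of_mem_erase hp)
  · intro l hl hP h5
    exact dvd_prod_of_mem _ (mem_erase.2 ⟨h5, mem_filter.2 ⟨mem_range.2 (by omega), hl⟩⟩)

end Pool.Agent.P.MP_8b2bd9_co
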