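import Pool.Agent.P.MP_8b2bd9_co.Hoff

/-! The sharp form of the spectral bound: `r` distances force `2 ^ r` colours on `ℤ²`. -/

set_option autoImplicit false

open Complex Finset MeasureTheory Filter Topology BoundedContinuousFunction

noncomputable section

namespace Pool.Agent.P.MP_8b2bd9_co

theorem spectral_eps (r : ℕ) (ε : ℝ) (hε : 0 < ε) (hε1 : ε ≤ 1) : ∃ d : ℕ → ℕ, (∀ i, 0 < d i) ∧
    ∀ μ : Measure Om, IsProbabilityMeasure μ → UInv μ → -ε ≤ ∫ χ, Psi r d χ ∂μ := by
  classical
  set η : ℝ := ε / (27 * 2 ^ r) with hη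
  have h2r : (1 : ℝ) ≤ 2 ^ r := one_le_pow₀ (by norm_num)
  have hη0 : 0 < η := by positivity
  have hη1 : η ≤ 1 := by rw [hη, div_le_one (by positivity)]; linarith
  obtain ⟨d, hd, E, C, hmod⟩ := model r η hη0 hη1
  refine ⟨d, hd, fun μ _ hμ => ?_⟩
  obtain ⟨S, mS, hS, hz, G, hG, hdet⟩ := host μ hμ
  have iP : ∀ (ν : Measure Om) [IsFiniteMeasure ν], Integrable (Psi r d) ν := fun ν _ => by
    simpa only [act_one] using integrable_Psi r d ν 1
  rw [← integral_add_compl mS (iP μ)]
  have h1 : 0 ≤ ∫ χ in Sᶜ, Psi r d χ ∂μ := by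
    have ie : ∀ i, Integrable (fun χ : Om => 2 ^ i * (χ.1 (d i)).re) (μ.restrict Sᶜ) := fun i =>
      (integrable_ev _ _).re.const_mul _
    unfold Psi
    rw [integral_add (integrable_const _) (integrable_finsetSum _ fun i _ => ie i),
      integral_finsetSum _ fun i _ => ie i]
    have : ∀ i ∈ range r, ∫ χ in Sᶜ, 2 ^ i * (χ.1 (d i)).re ∂μ = 0 := by
      intro i _
      have e1 := integral_re (integrable_ev (μ.restrict Sᶜ) (d i))
      simp only [RCLike.re_to_complex] at e1
      rw [integral_const_mul, e1, hz _ (Nat.cast_ne_zero.2 (hd i).ne')]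
      simp
    rw [sum_eq_zero this]
    simp
  set ν := μ.restrict S with hν
  have hν1 : ν.real Set.univ ≤ 1 := by
    rw [hν, measureReal_restrict_apply_univ]; exact measureReal_le_one
  obtain ⟨k, Q, hQ, hC, hbad⟩ := complexity ν hS hG hdet η hη0 E C
  obtain ⟨W, b, hW, hb, hcop, hpt⟩ := hmod k Q hQ hC
  have hW0 : (0 : ℝ) < W.card := by exact_mod_cast hW.card_pos
  set I : ℕ → Om → ℝ := fun N χ => if ¬GoodT k Q N χ then 1 else 0 with hI
  have mI : ∀ N, Measurable (I N) := fun N =>
    Measurable.ite (measurableSet_good k Q N).compl measurable_const measurable_const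
  have iI : ∀ N w, Integrable (fun χ => I N (act w χ)) ν := fun N w =>
    Integrable.of_bound ((mI N).comp (measurable_act w)).aestronglyMeasurable 1
      (Eventually.of_forall fun χ => by simp only [hI]; split_ifs <;> simp)
  have iI' : ∀ N, Integrable (I N) ν := fun N => by simpa only [act_one] using iI N 1
  have I0 : ∀ N χ, 0 ≤ I N χ := fun N χ => by simp only [hI]; split_ifs <;> simp
  have I1 : ∀ N χ, I N χ ≤ 1 := fun N χ => by simp only [hI]; split_ifs <;> simp
  have e1 : ∫ χ, I 1 χ ∂ν ≤ η := by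
    refine le_trans (le_of_eq ?_) hbad
    have mm : MeasurableSet {χ | ¬GoodT k Q 1 χ} := (measurableSet_good k Q 1).compl
    rw [← integral_indicator_one mm]
    congr 1
    funext χ
    by_cases h : GoodT k Q 1 χ <;> simp [hI, h]
  have hu : ∀ t, ‖((uz (zt b t) : K) : ℂ)‖ = 1 := fun t => norm_uz (zt_ne_zero hb t)
  have e2 : ∑ t ∈ W, ∫ χ, I (Nt b t) (act (uz (zt b t)) χ) ∂ν ≤ 2 * η * W.card := by
    simp only [integral_act hS (hu _) (mI _)]
    rw [← integral_finsetSum _ fun t _ => iI' _]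
    calc ∫ χ, ∑ t ∈ W, I (Nt b t) χ ∂ν ≤ ∫ χ, (η * W.card + W.card * I 1 χ) ∂ν := by
          refine integral_mono (integrable_finsetSum _ fun t _ => iI' _)
            ((integrable_const _).add ((iI' 1).const_mul _)) fun χ => ?_
          simp only
          by_cases h : GoodT k Q 1 χ
          · obtain ⟨q, a, ξ, h, -⟩ := h
            have a1 := hcop q h.1 (le_trans (Nat.le_mul_of_pos_right _ (by positivity)) h.2.2.1)
              h.2.1
            have a2 : ∑ t ∈ W, I (Nt b t) χ ≤ (W.filter fun t => ¬(Nt b t).Coprime q).card := by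
              rw [card_filter]
              push_cast
              refine sum_le_sum fun t _ => ?_
              by_cases hc : (Nt b t).Coprime q
              · have : GoodT k Q (Nt b t) χ := ⟨q, a, ξ, h, hc⟩
                rw [if_neg (not_not.2 hc)]
                simp [hI, this]
              · rw [if_pos hc]; exact I1 _ _
            have := mul_nonneg hW0.le (I0 1 χ)
            linarith
          · have a1 : ∑ t ∈ W, I (Nt b t) χ ≤ ∑ t ∈ W, 1 := sum_le_sum fun t _ => I1 _ _
            have a2 : I 1 χ = 1 := by simp [hI, h]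
            simp only [sum_const, nsmul_eq_mul, mul_one] at a1
            have := mul_pos hη0 hW0
            rw [a2]
            linarith
      _ ≤ _ := by
          rw [integral_add (integrable_const _) ((iI' 1).const_mul _), integral_const,
            integral_const_mul, smul_eq_mul]
          have := mul_pos hη0 hW0
          nlinarith
  have i3 := integrable_finsetSum W fun t _ => iI (Nt b t) (uz (zt b t))
  have e3 : ∫ χ, -(2 ^ r * (22 * η * W.card + 2 * ∑ t ∈ W, I (Nt b t) (act (uz (zt b t)) χ) +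
      W.card * I 1 χ)) ∂ν ≤ ∫ χ, ∑ t ∈ W, Psi r d (act (uz (zt b t)) χ) ∂ν := by
    refine integral_mono ((((integrable_const _).add (i3.const_mul _)).add
      ((iI' 1).const_mul _)).const_mul _).neg
      (integrable_finsetSum _ fun t _ => integrable_Psi r d ν _) fun χ => ?_
    simp only
    have a0 : 0 ≤ ∑ t ∈ W, I (Nt b t) (act (uz (zt b t)) χ) := sum_nonneg fun t _ => I0 _ _
    by_cases h : GoodT k Q 1 χ
    · have a1 := hpt χ h
      rw [card_filter] at a1
      push_cast at a1
      have a2 : I 1 χ = 0 := by simp [hI, h]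
      rw [a2, mul_zero, add_zero]
      exact a1
    · have a2 : I 1 χ = 1 := by simp [hI, h]
      have a1 : ∑ t ∈ W, (-2 ^ r : ℝ) ≤ ∑ t ∈ W, Psi r d (act (uz (zt b t)) χ) :=
        sum_le_sum fun t _ => (abs_le.1 (abs_Psi_le r d _)).1
      simp only [sum_const, nsmul_eq_mul] at a1
      rw [a2]
      have := mul_pos hη0 hW0
      nlinarith
  have i4 : Integrable (fun χ => 22 * η * W.card +
      2 * ∑ t ∈ W, I (Nt b t) (act (uz (zt b t)) χ)) ν :=
    (integrable_const _).add (i3.const_mul _)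
  rw [integral_finsetSum _ fun t _ => integrable_Psi r d ν _, integral_neg, integral_const_mul,
    integral_add i4 ((iI' 1).const_mul _),
    integral_add (integrable_const _) (i3.const_mul _), integral_const, integral_const_mul,
    integral_const_mul, integral_finsetSum _ fun t _ => iI _ _, smul_eq_mul] at e3
  simp only [integral_act hS (hu _) (continuous_Psi r d).measurable, sum_const,
    nsmul_eq_mul] at e3
  have e4 : ν.real Set.univ * (22 * η * W.card) +
      2 * ∑ t ∈ W, ∫ χ, I (Nt b t) (act (uz (zt b t)) χ) ∂ν + W.card * ∫ χ, I 1 χ ∂ν ≤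
      27 * η * W.card := by
    have := mul_pos hη0 hW0
    nlinarith
  have e5 : 2 ^ r * (27 * η * W.card) = W.card * ε := by rw [hη]; field_simp
  have e6 := mul_le_mul_of_nonneg_left e4 (by positivity : (0 : ℝ) ≤ 2 ^ r)
  have e7 : W.card * (-ε) ≤ W.card * ∫ χ, Psi r d χ ∂ν := by linarith
  have := le_of_mul_le_mul_left e7 hW0
  linarith

theorem finite_family_eps (r : ℕ) (ε : ℝ) (hε : 0 < ε) (hε1 : ε ≤ 1) : ∃ d : ℕ → ℕ, (∀ i, 0 < d i) ∧
    ∃ (ι : Type) (_ : Fintype ι) (_ : Nonempty ι) (v : ι → K), (∀ j, ‖(v j : ℂ)‖ = 1) ∧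
      ∀ χ : Om, -(2 * ε) * (Fintype.card ι : ℝ) ≤ ∑ j, Psi r d (act (v j) χ) := by
  classical
  obtain ⟨d, hd, h⟩ := spectral_eps r ε hε hε1
  refine ⟨d, hd, ?_⟩
  by_contra hcon
  push Not at hcon
  set P : Om →ᵇ ℝ := mkOfCompact ⟨Psi r d, continuous_Psi r d⟩ with hP
  set ac : K → C(Om, Om) := fun w => ⟨act w, continuous_act w⟩ with hac
  have key : ∀ i : Finset {w : K // ‖(w : ℂ)‖ = 1} × ℕ, ∃ μ : ProbabilityMeasure Om,
      ∫ χ, P χ ∂(μ : Measure Om) ≤ -(2 * ε) ∧ ∀ w ∈ i.1, ∀ g : Om →ᵇ ℝ, (∀ χ, |g χ| ≤ 1) →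
        |∫ χ, g.compContinuous (ac w) χ ∂(μ : Measure Om) - ∫ χ, g χ ∂(μ : Measure Om)| ≤
          1 / (i.2 + 1 : ℝ) := by
    intro i
    obtain ⟨ι, _, _, v, h1, h2⟩ := folner (i.1.image Subtype.val) (1 / (i.2 + 1 : ℝ))
      (by positivity)
    obtain ⟨χ, hχ⟩ := hcon ι inferInstance inferInstance v (h1 (by
      intro w hw
      obtain ⟨w', -, rfl⟩ := mem_image.1 hw
      exact w'.2))
    obtain ⟨μ, hμ⟩ := exists_unif fun j => act (v j) χ
    have hc : (0 : ℝ) < Fintype.card ι := by exact_mod_cast Fintype.card_pos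
    refine ⟨μ, ?_, fun w hw g hg => ?_⟩
    · rw [hμ, div_le_iff₀ hc]
      simpa [hP] using hχ.le
    · rw [hμ, hμ, ← sub_div, abs_div, abs_of_pos hc, div_le_iff₀ hc]
      simpa [hac, act_act] using h2 w (mem_image_of_mem _ hw) (fun x => g (act x χ))
        fun x => hg _
  choose M hM1 hM2 using key
  set U := Ultrafilter.of (atTop : Filter (Finset {w : K // ‖(w : ℂ)‖ = 1} × ℕ)) with hU
  have hUle : (U : Filter (Finset {w : K // ‖(w : ℂ)‖ = 1} × ℕ)) ≤ atTop := Ultrafilter.of_le _
  obtain ⟨μ, -, hμ⟩ := isCompact_univ.ultrafilter_le_nhds (U.map M) (by simp)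
  have ht : Tendsto M U (𝓝 μ) := hμ
  rw [ProbabilityMeasure.tendsto_iff_forall_integral_tendsto] at ht
  have a1 : ∫ χ, P χ ∂(μ : Measure Om) ≤ -(2 * ε) := le_of_tendsto' (ht P) hM1
  have a2 : UInv (μ : Measure Om) := by
    intro w hw
    refine ⟨measurable_act w, ?_⟩
    have key2 : ∀ g : Om →ᵇ ℝ, (∀ χ, |g χ| ≤ 1) →
        ∫ χ, g (act w χ) ∂(μ : Measure Om) = ∫ χ, g χ ∂(μ : Measure Om) := by
      intro g hg
      rw [← sub_eq_zero, ← abs_nonpos_iff]
      refine le_of_forall_pos_le_add fun δ hδ => ?_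
      obtain ⟨n, hn⟩ := exists_nat_one_div_lt hδ
      refine le_of_tendsto ((ht (g.compContinuous (ac w))).sub (ht g)).abs ?_
      filter_upwards [hUle (eventually_ge_atTop ({⟨w, hw⟩}, n))] with i hi
      refine (hM2 i ⟨w, hw⟩ (hi.1 (mem_singleton_self _)) g hg).trans ?_
      have : (n : ℝ) ≤ i.2 := by exact_mod_cast hi.2
      have := one_div_le_one_div_of_le (by positivity) (show (n : ℝ) + 1 ≤ i.2 + 1 by linarith)
      linarith
    refine ext_of_forall_integral_eq_of_IsFiniteMeasure fun g => ?_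
    rw [integral_map (measurable_act w).aemeasurable g.continuous.aestronglyMeasurable]
    have p : 0 < ‖g‖ + 1 := by positivity
    have := key2 ((‖g‖ + 1)⁻¹ • g) fun χ => by
      simp only [BoundedContinuousFunction.coe_smul, smul_eq_mul]
      rw [abs_mul, abs_of_pos (inv_pos.2 p), inv_mul_le_iff₀ p]
      have := g.norm_coe_le_norm χ
      rw [Real.norm_eq_abs] at this
      linarith
    simp only [BoundedContinuousFunction.coe_smul, smul_eq_mul, integral_const_mul] at this
    exact mul_left_cancel₀ (inv_pos.2 p).ne' this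
  have := h μ inferInstance a2
  simp only [hP, mkOfCompact_apply, ContinuousMap.coe_mk] at a1
  linarith

theorem colour_bound_lattice (r : ℕ) : ∃ s : ℕ → ℝ, (∀ i, 0 < s i) ∧
    ∀ (m : ℕ) (c : ℤ × ℤ → Fin m),
    (∀ p q : ℤ × ℤ, ∀ i < r, ‖((p.1 : ℂ) + p.2 * I) - (q.1 + q.2 * I)‖ = s i → c p ≠ c q) →
      2 ^ r ≤ m := by
  classical
  have h2r : (1 : ℝ) ≤ 2 ^ r := one_le_pow₀ (by norm_num)
  set ε : ℝ := 1 / (4 * 2 ^ r) with hεd
  have hε : 0 < ε := by positivity
  have hε1 : ε ≤ 1 := by rw [hεd, div_le_one (by positivity)]; linarith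
  obtain ⟨d, hd, ι, _, _, v, hv, h⟩ := finite_family_eps r ε hε hε1
  choose g D hD e using fun j => K_frac (v j)
  set P : GaussianInt := ∏ j, D j with hP
  have hP0 : P ≠ 0 := prod_ne_zero_iff.2 fun j _ => hD j
  have hP1 : (P : ℂ) ≠ 0 := by
    rw [← coe_gi]; exact_mod_cast gi_ne_zero hP0
  refine ⟨fun i => ‖(P : ℂ)‖ * d i, fun i => mul_pos (norm_pos_iff.2 hP1)
    (by exact_mod_cast hd i), fun m c hc => ?_⟩
  have hG : ∀ j, ∃ G : GaussianInt, (P : ℂ) * v j = G := by
    intro j
    obtain ⟨t, ht⟩ : D j ∣ P := dvd_prod_of_mem _ (mem_univ j)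
    refine ⟨t * g j, ?_⟩
    have := congrArg (fun x : K => (x : ℂ)) (e j)
    simp only [Subfield.coe_mul, coe_gi] at this
    rw [ht, map_mul, map_mul, ← this]
    ring
  choose G hG using hG
  have hι : (0 : ℝ) < Fintype.card ι := by exact_mod_cast Fintype.card_pos
  have key := hoffman (κ := ι × Fin r) (fun k => ((G k.1).re * d k.2, (G k.1).im * d k.2))
    (fun k => 2 ^ (k.2 : ℕ)) (fun _ => by positivity) ((1 + 2 * ε) * Fintype.card ι) (fun α β => by
      have h1 := h (cch ((starRingEnd ℂ) (P : ℂ) * (α + β * I)))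
      simp only [Psi, sum_add_distrib, sum_const, card_univ, nsmul_eq_mul, mul_one] at h1
      rw [Fintype.sum_prod_type]
      have : ∀ j, ∑ i ∈ range r, 2 ^ i * ((act (v j)
          (cch ((starRingEnd ℂ) (P : ℂ) * (α + β * I)))).1 (d i)).re =
          ∑ i : Fin r, 2 ^ (i : ℕ) *
            (ee (α * ((G j).re * d i : ℤ) + β * ((G j).im * d i : ℤ))).re := by
        intro j
        rw [Finset.sum_range]
        refine sum_congr rfl fun i _ => ?_
        rw [act_apply]
        simp only [cch]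
        rw [← pair_mul_left]
        push_cast
        rw [← mul_assoc, hG, pair_eq]
        congr 3
        simp
        ring
      simp only [this] at h1
      linarith)
    c (fun p k => hc _ _ k.2 k.2.2 (by
      have e1 : ((p.1 : ℂ) + p.2 * I) - (((p + ((G k.1).re * d k.2, (G k.1).im * d k.2)).1 : ℂ) +
          ((p + ((G k.1).re * d k.2, (G k.1).im * d k.2)).2 : ℂ) * I) =
            -((P : ℂ) * v k.1 * d k.2) := by
        have := hG k.1
        rw [GaussianInt.toComplex_def (G k.1)] at this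
        simp only [Prod.fst_add, Prod.snd_add]
        push_cast
        linear_combination (d k.2 : ℂ) * this
      rw [e1, norm_neg, norm_mul, norm_mul, hv]
      simp))
  rw [Fintype.sum_prod_type] at key
  simp only [sum_const, card_univ, nsmul_eq_mul] at key
  rw [← Finset.sum_range (fun i => (2 : ℝ) ^ i), sum_two_pow] at key
  have k1 : (2 : ℝ) ^ r - 1 ≤ (1 + 2 * ε) * (m - 1) := by
    have : (Fintype.card ι : ℝ) * (2 ^ r - 1) ≤ Fintype.card ι * ((1 + 2 * ε) * (m - 1)) := by
      linarith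
    exact le_of_mul_le_mul_left this hι
  by_contra hlt
  have hm : (m : ℝ) + 1 ≤ 2 ^ r := by
    have : m + 1 ≤ 2 ^ r := by omega
    exact_mod_cast this
  have k2 : ε * 2 ^ r = 1 / 4 := by rw [hεd]; field_simp
  nlinarith

end Pool.Agent.P.MP_8b2bd9_co
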