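import Pool.Agent.P.MP_8b2bd9_co.Arch
import Pool.Agent.P.MP_8b2bd9_co.Loc

/-! The model sums over the sifted family `z = t + b i`. -/

set_option autoImplicit false

open Complex Finset

noncomputable section

namespace Pool.Agent.P.MP_8b2bd9_co

/-- The norm `t ^ 2 + b ^ 2`. -/
def Nt (b t : ℕ) : ℕ := t ^ 2 + b ^ 2

/-- The Gaussian integer `t + b i`. -/
def zt (b t : ℕ) : GaussianInt := ⟨t, b⟩

/-- `ρ` is trivial on multiples of `q`. -/
def Kills (ρ : AddChar GaussianInt ℂ) (q : ℕ) : Prop := ∀ g, ρ ((q : GaussianInt) * g) = 1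

/-- The number of `t < T` with `t ^ 2 + b ^ 2` prime to `m`. -/
def cnt (b m T : ℕ) : ℕ := ((range T).filter fun t => (Nt b t).Coprime m).card

/-- The model summand. -/
def Fm (b m' : ℕ) (ρ : AddChar GaussianInt ℂ) (c : ℕ → ℤ) (ζ : ℂ) (t : ℕ) : ℂ :=
  if (Nt b t).Coprime m' then
    ρ ((c t : GaussianInt) * zt b t ^ 2) * ee (pair (ur (t / b)) ζ) else 0

lemma Kills.congr {ρ : AddChar GaussianInt ℂ} {q : ℕ} (h : Kills ρ q) {g g' : GaussianInt}
    (hd : (q : GaussianInt) ∣ g - g') : ρ g = ρ g' := by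
  obtain ⟨x, hx⟩ := hd
  have : g = g' + q * x := by rw [← hx]; ring
  rw [this, AddChar.map_add_eq_mul, h, mul_one]

lemma Kills.of_dvd {ρ : AddChar GaussianInt ℂ} {q n : ℕ} (h : Kills ρ q) (hd : q ∣ n) :
    Kills ρ n := by
  obtain ⟨x, rfl⟩ := hd
  intro g
  rw [Nat.cast_mul, mul_assoc]; exact h _

lemma norm_Fm_le (b m' : ℕ) {ρ : AddChar GaussianInt ℂ} (hρ : ∀ g, ‖ρ g‖ = 1) (c : ℕ → ℤ)
    (ζ : ℂ) (t : ℕ) : ‖Fm b m' ρ c ζ t‖ ≤ 1 := by
  unfold Fm
  split_ifs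
  · rw [norm_mul, hρ, norm_ee]; norm_num
  · simp

lemma Nt_modEq {b t t' m : ℕ} (h : t ≡ t' [MOD m]) : Nt b t ≡ Nt b t' [MOD m] :=
  (h.pow 2).add_right _

lemma coprime_congr {a a' m : ℕ} (h : a ≡ a' [MOD m]) : a.Coprime m ↔ a'.Coprime m := by
  unfold Nat.Coprime; rw [h.gcd_eq]

lemma coprime_Nt_add (b t m s : ℕ) : (Nt b (t + m * s)).Coprime m ↔ (Nt b t).Coprime m :=
  coprime_congr (Nt_modEq (by simp [Nat.ModEq]))

lemma rho_periodic {ρ : AddChar GaussianInt ℂ} {q : ℕ} (h : Kills ρ q) {b t t' : ℕ} {c c' : ℤ}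
    (htt : t ≡ t' [MOD q]) (hc : (q : ℤ) ∣ c * Nt b t - 1) (hc' : (q : ℤ) ∣ c' * Nt b t' - 1) :
    ρ ((c : GaussianInt) * zt b t ^ 2) = ρ ((c' : GaussianInt) * zt b t' ^ 2) := by
  apply h.congr
  have h1 : (q : ℤ) ∣ (t' : ℤ) - t := Nat.modEq_iff_dvd.1 htt
  have h2 : (q : ℤ) ∣ (Nt b t' : ℤ) - Nt b t := Nat.modEq_iff_dvd.1 (Nt_modEq htt)
  have h3 : (q : ℤ) ∣ c - c' := by
    have e : c - c' = c' * (c * Nt b t - 1) - c * (c' * Nt b t' - 1) +
        c * c' * ((Nt b t' : ℤ) - Nt b t) := by ring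
    rw [e]
    exact dvd_add (dvd_sub (hc.mul_left _) (hc'.mul_left _)) (h2.mul_left _)
  obtain ⟨x, hx⟩ := h1
  obtain ⟨y, hy⟩ := h3
  have e1 : zt b t' = zt b t + q * x := by
    apply Zsqrtd.ext <;> simp [zt]
    linarith
  have e2 : (c : GaussianInt) = c' + q * y := by
    have : c = c' + q * y := by linarith
    rw [this]; push_cast; ring
  rw [e1, e2]
  exact ⟨y * zt b t ^ 2 - c' * (2 * zt b t * x + q * x ^ 2), by ring⟩

lemma sum_range_mul' {M : Type*} [AddCommMonoid M] (f : ℕ → M) (m S : ℕ) :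
    ∑ t ∈ range (m * S), f t = ∑ r ∈ range m, ∑ s ∈ range S, f (r + m * s) := by
  induction S with
  | zero => simp
  | succ S ih =>
    rw [Nat.mul_succ, sum_range_add, ih, ← sum_add_distrib]
    refine sum_congr rfl fun r _ => ?_
    rw [sum_range_succ, add_comm (m * S) r]

lemma cnt_mul (b m S : ℕ) : cnt b m (m * S) = cnt b m m * S := by
  unfold cnt
  rw [card_filter, card_filter, sum_range_mul', sum_mul]
  refine sum_congr rfl fun r _ => ?_
  simp only [coprime_Nt_add]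
  simp

lemma cnt_mono (b m : ℕ) {T T' : ℕ} (h : T ≤ T') : cnt b m T ≤ cnt b m T' :=
  card_le_card (filter_subset_filter _ (range_subset_range.2 h))

lemma cnt_dvd (b T : ℕ) {m m' : ℕ} (h : m ∣ m') : cnt b m' T ≤ cnt b m T := by
  apply card_le_card
  intro t ht
  rw [mem_filter] at ht ⊢
  exact ⟨ht.1, ht.2.coprime_dvd_right h⟩

lemma cnt_cast (b m T : ℕ) :
    (cnt b m T : ℝ) = ∑ t ∈ range T, if (Nt b t).Coprime m then (1 : ℝ) else 0 := by
  rw [sum_boole, cnt]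

/-- The property of the constant `A` given by `arch`. -/
def ArchProp (η A : ℝ) : Prop := ∀ (τ0 step : ℝ) (S : ℕ) (ζ : ℂ),
    0 ≤ τ0 → 0 < step → A ≤ ‖ζ‖ → step * ‖ζ‖ ≤ 1 / 8 → 1 / 4 ≤ S * step → τ0 + S * step ≤ 2 →
    ‖∑ s ∈ range S, ee (pair (ur (τ0 + step * s)) ζ)‖ ≤ η * S

/-- The property of the constant `L` given by `loc`. -/
def LocProp (η : ℝ) (L : ℕ) : Prop := ∀ (l e n : ℕ) [NeZero n], l.Prime → 1 ≤ e →
    n = l ^ e → L < n → ∀ b y1 y2 : ZMod n, IsUnit b → (IsUnit y1 ∨ IsUnit y2) →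
    ‖∑ τ : ZMod n, Hloc b y1 y2 τ‖ ≤ η * n

theorem arch_sum {η A : ℝ} (hη : 0 ≤ η) (hA : ArchProp η A) (b m' q T : ℕ)
    {ρ : AddChar GaussianInt ℂ} (hρ : ∀ g, ‖ρ g‖ = 1) (hq : Kills ρ q) (hqm : q ∣ m')
    (hm' : 0 < m') (c : ℕ → ℤ) (hc : ∀ t, (Nt b t).Coprime q → (q : ℤ) ∣ c t * Nt b t - 1)
    (ζ : ℂ) (hζ : A ≤ ‖ζ‖) (h8 : 8 * m' * ‖ζ‖ ≤ b) (h4 : 4 * m' ≤ b) (hT : T ≤ b)
    (hT2 : b ≤ 2 * T) :
    ‖∑ t ∈ range T, Fm b m' ρ c ζ t‖ ≤ η * cnt b m' T + m' := by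
  have hb : (0 : ℝ) < b := by exact_mod_cast (by omega : 0 < b)
  have hm0 : (0 : ℝ) < m' := by exact_mod_cast hm'
  set S := T / m' with hS
  have hT' : T = m' * S + T % m' := (Nat.div_add_mod T m').symm
  have hr : T % m' < m' := Nat.mod_lt _ hm'
  have e1 : ∑ t ∈ range T, Fm b m' ρ c ζ t = ∑ t ∈ range (m' * S), Fm b m' ρ c ζ t +
      ∑ t ∈ range (T % m'), Fm b m' ρ c ζ (m' * S + t) := by
    conv_lhs => rw [hT']
    exact sum_range_add _ _ _
  have e2 := norm_sum_range_le (fun t => Fm b m' ρ c ζ (m' * S + t))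
    (fun t => norm_Fm_le _ _ hρ _ _ _) (T % m')
  have e3 : ((T % m' : ℕ) : ℝ) ≤ m' := by exact_mod_cast hr.le
  have a1 : (m' : ℝ) * S ≤ b := by exact_mod_cast (by omega : m' * S ≤ b)
  have a2 : (b : ℝ) ≤ 4 * (m' * S) := by exact_mod_cast (by omega : b ≤ 4 * (m' * S))
  have a3 : (4 : ℝ) * m' ≤ b := by exact_mod_cast h4
  have e4 : ∀ r ∈ range m', ‖∑ s ∈ range S, Fm b m' ρ c ζ (r + m' * s)‖ ≤
      η * S * (if (Nt b r).Coprime m' then (1 : ℝ) else 0) := by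
    intro r hr
    split_ifs with h
    · have : ∀ s ∈ range S, Fm b m' ρ c ζ (r + m' * s) = ρ ((c r : GaussianInt) * zt b r ^ 2) *
          ee (pair (ur (r / b + m' / b * s)) ζ) := by
        intro s _
        have h' := (coprime_Nt_add b r m' s).2 h
        rw [Fm, if_pos h']
        congr 1
        · refine rho_periodic hq ?_ (hc _ (h'.coprime_dvd_right hqm))
            (hc _ (h.coprime_dvd_right hqm))
          exact Nat.ModEq.of_dvd hqm (by simp [Nat.ModEq])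
        · congr 3; push_cast; field_simp
      rw [sum_congr rfl this, ← mul_sum, norm_mul, hρ, one_mul, mul_one]
      have hr' : (r : ℝ) ≤ m' := by exact_mod_cast (mem_range.1 hr).le
      refine hA _ _ S ζ (by positivity) (by positivity) hζ ?_ ?_ ?_
      · rw [div_mul_eq_mul_div, div_le_iff₀ hb]; linarith
      · rw [← mul_div_assoc, le_div_iff₀ hb]; linarith
      · rw [← mul_div_assoc, ← add_div, div_le_iff₀ hb]; linarith
    · have : ∀ s ∈ range S, Fm b m' ρ c ζ (r + m' * s) = 0 := by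
        intro s _
        rw [Fm, if_neg (fun h' => h ((coprime_Nt_add b r m' s).1 h'))]
      rw [sum_congr rfl this]; simp
  have e5 : ‖∑ t ∈ range (m' * S), Fm b m' ρ c ζ t‖ ≤ η * cnt b m' T := by
    rw [sum_range_mul']
    refine (norm_sum_le _ _).trans ((sum_le_sum e4).trans ?_)
    rw [← mul_sum, ← cnt_cast, mul_assoc]
    refine mul_le_mul_of_nonneg_left ?_ hη
    have := cnt_mono b m' (by omega : m' * S ≤ T)
    rw [cnt_mul, mul_comm] at this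
    exact_mod_cast this
  rw [e1]
  refine (norm_add_le _ _).trans ?_
  linarith

lemma sum_range_zmod {M : Type*} [AddCommMonoid M] {n : ℕ} [NeZero n] (f : ZMod n → M) :
    ∑ σ ∈ range n, f (σ : ZMod n) = ∑ x, f x := by
  refine sum_nbij' (fun σ => (σ : ZMod n)) (fun x => x.val) ?_ ?_ ?_ ?_ ?_
  · intro _ _; exact mem_univ _
  · intro x _; exact mem_range.2 (ZMod.val_lt x)
  · intro σ hσ; exact ZMod.val_cast_of_lt (mem_range.1 hσ)
  · intro x _; exact ZMod.natCast_zmod_val x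
  · intro _ _; rfl

lemma sum_range_affine {M : Type*} [AddCommMonoid M] {n : ℕ} [NeZero n] (f : ZMod n → M)
    (t h : ℕ) (hh : h.Coprime n) :
    ∑ σ ∈ range n, f ((t + h * σ : ℕ) : ZMod n) = ∑ x, f x := by
  obtain ⟨u, hu⟩ := (ZMod.isUnit_iff_coprime h n).2 hh
  have := sum_range_zmod (n := n) (fun x => f (t + u * x))
  push_cast
  rw [← hu, this]
  exact Equiv.sum_comp ((Units.mulLeft u).trans (Equiv.addLeft (t : ZMod n))) f

open Classical in
lemma card_nonunit {l e n : ℕ} [NeZero n] (hl : l.Prime) (he : 1 ≤ e) (hn : n = l ^ e)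
    (b : ZMod n) :
    3 * (univ.filter fun τ : ZMod n => ¬ IsUnit (τ ^ 2 + b ^ 2)).card ≤ 2 * n := by
  set T := univ.filter fun τ : ZMod n => ¬ IsUnit (τ ^ 2 + b ^ 2) with hT
  rcases T.eq_empty_or_nonempty with h | ⟨τ0, hτ0⟩
  · rw [h]; simp
  have hD : l ∣ n := by rw [hn]; exact dvd_pow_self l (by omega)
  have hl' : Prime (l : ℤ) := Nat.prime_iff_prime_int.1 hl
  have key0 : ∀ τ ∈ T, (l : ℤ) ∣ (τ.val : ℤ) ^ 2 + (b.val : ℤ) ^ 2 := by
    intro τ hτ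
    simp only [hT, mem_filter, mem_univ, true_and] at hτ
    have e1 : τ ^ 2 + b ^ 2 = ((τ.val ^ 2 + b.val ^ 2 : ℕ) : ZMod n) := by
      push_cast; simp only [ZMod.natCast_val, ZMod.cast_id', id_eq]
    rw [e1, ZMod.isUnit_iff_coprime] at hτ
    have : l ∣ τ.val ^ 2 + b.val ^ 2 := by
      by_contra hnd
      apply hτ
      have h1 : (τ.val ^ 2 + b.val ^ 2).Coprime (l ^ e) :=
        Nat.Coprime.pow_right e ((Nat.Prime.coprime_iff_not_dvd hl).2 hnd).symm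
      rwa [← hn] at h1
    exact_mod_cast this
  have key : ∀ τ ∈ T, (l : ℤ) ∣ (τ.val : ℤ) - τ0.val ∨ (l : ℤ) ∣ (τ.val : ℤ) + τ0.val := by
    intro τ hτ
    apply hl'.dvd_or_dvd
    have := dvd_sub (key0 τ hτ) (key0 τ0 hτ0)
    convert this using 1; ring
  have hdiv := Nat.div_mul_le_self n l
  by_cases h2 : l = 2
  · have : T.card ≤ n / l := by
      apply card_cong_le l hD
      intro a ha a' ha'
      have h1 := key a ha
      have h3 := key a' ha'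
      subst h2
      push_cast at h1 h3 ⊢
      omega
    subst h2
    omega
  · have h3 : 3 ≤ l := by have := hl.two_le; omega
    have hsub : T ⊆ (T.filter fun τ => (l : ℤ) ∣ (τ.val : ℤ) - τ0.val) ∪
        (T.filter fun τ => (l : ℤ) ∣ (τ.val : ℤ) + τ0.val) := by
      intro τ hτ
      rw [mem_union]
      exact (key τ hτ).imp (fun h => mem_filter.2 ⟨hτ, h⟩) (fun h => mem_filter.2 ⟨hτ, h⟩)
    have h4 := (card_le_card hsub).trans (card_union_le _ _)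
    have h5 : (T.filter fun τ => (l : ℤ) ∣ (τ.val : ℤ) - τ0.val).card ≤ n / l := by
      apply card_cong_le l hD
      intro a ha a' ha'
      rw [mem_filter] at ha ha'
      simpa using dvd_sub ha.2 ha'.2
    have h6 : (T.filter fun τ => (l : ℤ) ∣ (τ.val : ℤ) + τ0.val).card ≤ n / l := by
      apply card_cong_le l hD
      intro a ha a' ha'
      rw [mem_filter] at ha ha'
      simpa using dvd_sub ha.2 ha'.2
    have h7 : n / l * 3 ≤ n / l * l := Nat.mul_le_mul_left _ h3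
    omega

lemma exists_order {ρ : AddChar GaussianInt ℂ} {q : ℕ} (hq : Kills ρ q) (hq0 : 0 < q) :
    ∃ q1, 0 < q1 ∧ ∀ n, Kills ρ n ↔ q1 ∣ n := by
  classical
  have hex : ∃ n, 0 < n ∧ Kills ρ n := ⟨q, hq0, hq⟩
  obtain ⟨h1, h2⟩ := Nat.find_spec hex
  refine ⟨Nat.find hex, h1, fun n => ⟨fun hn => ?_, fun hn => h2.of_dvd hn⟩⟩
  by_contra hnd
  have h3 : 0 < n % Nat.find hex := Nat.pos_of_ne_zero fun h => hnd (Nat.dvd_of_mod_eq_zero h)
  refine Nat.find_min hex (Nat.mod_lt n h1) ⟨h3, fun g => ?_⟩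
  rw [← hn g]
  apply h2.congr
  refine ⟨-((n / Nat.find hex : ℕ) : GaussianInt) * g, ?_⟩
  have := congrArg (fun x : ℕ => (x : GaussianInt)) (Nat.div_add_mod n (Nat.find hex))
  simp only [Nat.cast_add, Nat.cast_mul] at this
  linear_combination g * this

lemma exists_std_of_pow {n : ℕ} [NeZero n] {x : ℂ} (hx : x ^ n = 1) :
    ∃ y : ZMod n, ZMod.stdAddChar y = x := by
  obtain ⟨i, -, hi⟩ := (Complex.isPrimitiveRoot_exp n (NeZero.ne n)).eq_pow_of_pow_eq_one hx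
  refine ⟨((i : ℤ) : ZMod n), ?_⟩
  rw [ZMod.stdAddChar_coe, ← hi, ← Complex.exp_nat_mul]
  congr 1; push_cast; ring

lemma exists_rep {ρ : AddChar GaussianInt ℂ} {n : ℕ} [NeZero n] (h : Kills ρ n) :
    ∃ y1 y2 : ZMod n, ∀ g : GaussianInt,
      ρ g = ZMod.stdAddChar (y1 * (g.re : ZMod n) + y2 * (g.im : ZMod n)) := by
  have hp : ∀ g, ρ g ^ n = 1 := by
    intro g; rw [← AddChar.map_nsmul_eq_pow, nsmul_eq_mul]; exact h g
  obtain ⟨y1, h1⟩ := exists_std_of_pow (hp 1)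
  obtain ⟨y2, h2⟩ := exists_std_of_pow (hp ⟨0, 1⟩)
  refine ⟨y1, y2, fun g => ?_⟩
  have e : g = g.re • (1 : GaussianInt) + g.im • (⟨0, 1⟩ : GaussianInt) := by
    apply Zsqrtd.ext <;> simp
  conv_lhs => rw [e]
  rw [AddChar.map_add_eq_mul, AddChar.map_zsmul_eq_zpow, AddChar.map_zsmul_eq_zpow, ← h1, ← h2,
    ← AddChar.map_zsmul_eq_zpow, ← AddChar.map_zsmul_eq_zpow, ← AddChar.map_add_eq_mul]
  congr 1
  simp only [zsmul_eq_mul]; ring

lemma exists_inv_int {a q : ℕ} (h : a.Coprime q) : ∃ c : ℤ, (q : ℤ) ∣ c * a - 1 := by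
  obtain ⟨x, y, hxy⟩ := Nat.isCoprime_iff_coprime.2 h
  exact ⟨x, -y, by linear_combination hxy⟩

lemma zt_sq_re (b t : ℕ) : (zt b t ^ 2).re = (t : ℤ) ^ 2 - (b : ℤ) ^ 2 := by
  simp [zt, sq]; ring

lemma zt_sq_im (b t : ℕ) : (zt b t ^ 2).im = 2 * t * b := by
  simp [zt, sq]; ring

end Pool.Agent.P.MP_8b2bd9_co
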