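import Pool.Agent.P.MP_8b2bd9_co.Sums

/-! Decay of the model sums coming from the finite places, and the sieve count. -/

set_option autoImplicit false

open Complex Finset

noncomputable section

namespace Pool.Agent.P.MP_8b2bd9_co

lemma isUnit_Nt_iff {l e n : ℕ} (hl : l.Prime) (he : 1 ≤ e) (hn : n = l ^ e) (b t : ℕ) :
    IsUnit ((t : ZMod n) ^ 2 + (b : ZMod n) ^ 2) ↔ ¬ l ∣ Nt b t := by
  have e1 : (t : ZMod n) ^ 2 + (b : ZMod n) ^ 2 = ((Nt b t : ℕ) : ZMod n) := by
    simp [Nt]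
  rw [e1, ZMod.isUnit_iff_coprime, hn, Nat.coprime_pow_right_iff (by omega), Nat.coprime_comm,
    hl.coprime_iff_not_dvd]

lemma cnt_compare {l e v n m'' : ℕ} [NeZero n] (hl : l.Prime) (he : 1 ≤ e) (hv : 1 ≤ v)
    (hn : n = l ^ e) (hm : ¬ l ∣ m'') (b T : ℕ) :
    (cnt b m'' T : ℝ) ≤ 3 * (cnt b (l ^ v * m'') T + 2 * m'' * n) := by
  classical
  have hn0 : (0 : ℝ) < n := by exact_mod_cast Nat.pos_of_ne_zero (NeZero.ne n)
  have hcop : ∀ t, (Nt b t).Coprime (l ^ v * m'') ↔ ¬ l ∣ Nt b t ∧ (Nt b t).Coprime m'' := by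
    intro t
    rw [Nat.coprime_mul_iff_right, Nat.coprime_pow_right_iff (by omega), Nat.coprime_comm,
      hl.coprime_iff_not_dvd]
  set w : ℕ → ℝ := fun t => if (Nt b t).Coprime (l ^ v * m'') then 1 else 0 with hw
  have h1 := avg_shift (fun t => (w t : ℂ)) (by
    intro t; simp only [hw]; split_ifs <;> simp) T m'' n
  have h2 : ∑ t ∈ range T, ∑ σ ∈ range n, w (t + m'' * σ) ≤
      n * cnt b (l ^ v * m'') T + 2 * m'' * n ^ 2 := by
    have e : (n : ℂ) * ∑ s ∈ range T, (w s : ℂ) - ∑ s ∈ range T, ∑ σ ∈ range n, (w (s + m'' * σ) : ℂ)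
        = ((n * ∑ s ∈ range T, w s - ∑ s ∈ range T, ∑ σ ∈ range n, w (s + m'' * σ) : ℝ) : ℂ) := by
      push_cast; rfl
    rw [e, Complex.norm_real, Real.norm_eq_abs] at h1
    have := (abs_le.1 h1).1
    rw [cnt_cast]
    linarith
  have hmn : m''.Coprime n := by
    rw [hn]; exact Nat.Coprime.pow_right e ((hl.coprime_iff_not_dvd.2 hm).symm)
  have h3 : ∀ t ∈ range T, (n / 3 : ℝ) * (if (Nt b t).Coprime m'' then (1 : ℝ) else 0) ≤
      ∑ σ ∈ range n, w (t + m'' * σ) := by
    intro t _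
    split_ifs with h
    · have e : ∀ σ ∈ range n, w (t + m'' * σ) =
          (fun x : ZMod n => if IsUnit (x ^ 2 + (b : ZMod n) ^ 2) then (1 : ℝ) else 0)
            ((t + m'' * σ : ℕ) : ZMod n) := by
        intro σ _
        simp only [hw, hcop, isUnit_Nt_iff hl he hn, coprime_Nt_add, eq_true h, and_true]
      rw [sum_congr rfl e, sum_range_affine
        (fun x : ZMod n => if IsUnit (x ^ 2 + (b : ZMod n) ^ 2) then (1 : ℝ) else 0) t m'' hmn,
        sum_boole]
      have a1 := card_nonunit hl he hn (b : ZMod n)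
      have a2 := card_filter_add_card_filter_not (s := (univ : Finset (ZMod n)))
        (fun x : ZMod n => IsUnit (x ^ 2 + (b : ZMod n) ^ 2))
      rw [card_univ, ZMod.card] at a2
      have a3 : n ≤ 3 * (univ.filter fun x : ZMod n => IsUnit (x ^ 2 + (b : ZMod n) ^ 2)).card := by
        omega
      have a4 : (n : ℝ) ≤
          3 * (univ.filter fun x : ZMod n => IsUnit (x ^ 2 + (b : ZMod n) ^ 2)).card := by
        exact_mod_cast a3
      linarith
    · rw [mul_zero]
      exact sum_nonneg fun σ _ => by simp only [hw]; split_ifs <;> norm_num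
  have h4 := (sum_le_sum h3).trans h2
  rw [← mul_sum, ← cnt_cast] at h4
  have : n * (cnt b m'' T : ℝ) ≤ n * (3 * (cnt b (l ^ v * m'') T + 2 * m'' * n)) := by nlinarith
  exact le_of_mul_le_mul_left this hn0

theorem fin_sum {η : ℝ} {L : ℕ} (hη : 0 ≤ η) (hL : LocProp η L) (b m q T : ℕ)
    {ρ : AddChar GaussianInt ℂ} (hρ : ∀ g, ‖ρ g‖ = 1) (hq : Kills ρ q) (hq0 : 0 < q) (hm0 : 0 < m)
    (hM : ¬ Kills ρ L.factorial) (hb : b.Coprime q) (hb0 : 0 < b)
    (c : ℕ → ℤ) (hc : ∀ t, (Nt b t).Coprime q → (q : ℤ) ∣ c t * Nt b t - 1)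
    (ζ : ℂ) (ε : ℝ) (hε : 14 * (m * q) * ‖ζ‖ ≤ ε * b) :
    ‖∑ t ∈ range T, Fm b (m * q) ρ c ζ t‖ ≤
      3 * (η + ε) * (cnt b (m * q) T + 2 * (m * q)) + 2 * (m * q) := by
  classical
  have hbR : (0 : ℝ) < b := by exact_mod_cast hb0
  have hε0 : 0 ≤ ε := by
    have : 0 ≤ ε * b := le_trans (by positivity) hε
    exact nonneg_of_mul_nonneg_left this hbR
  obtain ⟨q1, hq1, hord⟩ := exists_order hq hq0
  have hq1q : q1 ∣ q := (hord q).1 hq
  have hnd : ¬ q1 ∣ L.factorial := fun h => hM ((hord _).2 h)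
  rw [Nat.dvd_iff_prime_pow_dvd_dvd] at hnd
  push Not at hnd
  obtain ⟨l, k, hl, hk1, hk2⟩ := hnd
  obtain ⟨e, q'', hq'', rfl⟩ := Nat.exists_eq_pow_mul_and_not_dvd hq1.ne' l hl.one_lt.ne'
  have hlq : l.Coprime q'' := hl.coprime_iff_not_dvd.2 hq''
  have hke : l ^ k ∣ l ^ e := (Nat.Coprime.pow_left k hlq).dvd_of_dvd_mul_right hk1
  have hLn : L < l ^ e := by
    by_contra h
    exact hk2 (hke.trans (Nat.dvd_factorial (pow_pos hl.pos e) (not_lt.1 h)))
  have he : 1 ≤ e := by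
    by_contra h
    have : e = 0 := by omega
    rw [this, pow_zero] at hke
    exact hk2 (hke.trans (one_dvd _))
  obtain ⟨v, m'', hm'', hmq⟩ :=
    Nat.exists_eq_pow_mul_and_not_dvd (Nat.mul_pos hm0 hq0).ne' l hl.one_lt.ne'
  have hlm : l.Coprime m'' := hl.coprime_iff_not_dvd.2 hm''
  set n := l ^ e with hn
  have hn0 : 0 < n := pow_pos hl.pos e
  have : NeZero n := ⟨hn0.ne'⟩
  have hnq : n ∣ q := (Dvd.intro _ rfl).trans hq1q
  have hq''q : q'' ∣ q := (Dvd.intro_left _ rfl).trans hq1q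
  have hq''m : q'' ∣ m'' := by
    have h1 : q'' ∣ l ^ v * m'' := by rw [← hmq]; exact hq''q.mul_left m
    exact (Nat.Coprime.pow_right v hlq.symm).dvd_of_dvd_mul_left h1
  have hnv : n ∣ l ^ v := by
    have h1 : n ∣ l ^ v * m'' := by rw [← hmq]; exact hnq.mul_left m
    exact (Nat.Coprime.pow_left e hlm).dvd_of_dvd_mul_right h1
  have hv : 1 ≤ v := he.trans ((Nat.pow_dvd_pow_iff_le_right hl.one_lt).1 hnv)
  have hmn_le : m'' * n ≤ m * q := by
    rw [hmq, mul_comm]
    exact Nat.mul_le_mul_right _ (Nat.le_of_dvd (pow_pos hl.pos v) hnv)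
  have hmn_le' : (m'' : ℝ) * n ≤ m * q := by exact_mod_cast hmn_le
  have hmn : m''.Coprime n := Nat.Coprime.pow_right e hlm.symm
  have hcop : ∀ t, (Nt b t).Coprime (m * q) ↔ ¬ l ∣ Nt b t ∧ (Nt b t).Coprime m'' := by
    intro t
    rw [hmq, Nat.coprime_mul_iff_right, Nat.coprime_pow_right_iff (by omega), Nat.coprime_comm,
      hl.coprime_iff_not_dvd]
  obtain ⟨α, β, hαβ⟩ := Nat.isCoprime_iff_coprime.2 (Nat.Coprime.pow_left e hlq)
  have hαβ' : (α : GaussianInt) * n + β * q'' = 1 := by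
    have := congrArg (fun x : ℤ => (x : GaussianInt)) hαβ
    simpa [hn] using this
  have hq1k : Kills ρ (n * q'') := (hord _).2 dvd_rfl
  set ρ1 := ρ.mulShift ((β : GaussianInt) * q'') with hρ1
  set ρ2 := ρ.mulShift ((α : GaussianInt) * n) with hρ2
  have hsplit : ∀ g, ρ g = ρ1 g * ρ2 g := by
    intro g
    rw [hρ1, hρ2, AddChar.mulShift_apply, AddChar.mulShift_apply, ← AddChar.map_add_eq_mul]
    congr 1
    linear_combination (-g) * hαβ'
  have hk1' : Kills ρ1 n := by
    intro g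
    rw [hρ1, AddChar.mulShift_apply, ← hq1k (β * g)]
    congr 1; push_cast; ring
  have hk2' : Kills ρ2 q'' := by
    intro g
    rw [hρ2, AddChar.mulShift_apply, ← hq1k (α * g)]
    congr 1; push_cast; ring
  obtain ⟨y1, y2, hy⟩ := exists_rep hk1'
  have hunit : IsUnit y1 ∨ IsUnit y2 := by
    by_contra hcon
    rw [not_or] at hcon
    have key : ∀ y : ZMod n, ¬ IsUnit y → ((l ^ (e - 1) : ℕ) : ZMod n) * y = 0 := by
      intro y hyu
      have h1 : l ∣ y.val := by
        by_contra h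
        apply hyu
        rw [← ZMod.natCast_zmod_val y, ZMod.isUnit_iff_coprime]
        exact Nat.Coprime.pow_right e (hl.coprime_iff_not_dvd.2 h).symm
      obtain ⟨x, hx⟩ := h1
      rw [← ZMod.natCast_zmod_val y, ← Nat.cast_mul, ZMod.natCast_eq_zero_iff, hx, ← mul_assoc,
        ← pow_succ, Nat.sub_add_cancel he]
      exact Dvd.intro _ rfl
    have h1 : Kills ρ1 (l ^ (e - 1)) := by
      intro g
      rw [hy, std_eq_one_iff]
      have a1 := key y1 hcon.1
      have a2 := key y2 hcon.2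
      simp only [Zsqrtd.re_mul, Zsqrtd.im_mul, Zsqrtd.re_natCast, Zsqrtd.im_natCast]
      push_cast at a1 a2 ⊢
      linear_combination (g.re : ZMod n) * a1 + (g.im : ZMod n) * a2
    have h2 : Kills ρ (l ^ (e - 1) * q'') := by
      intro g
      rw [hsplit, (h1.of_dvd (Dvd.intro _ rfl)) g, (hk2'.of_dvd (Dvd.intro_left _ rfl)) g, mul_one]
    have h3 := (hord _).1 h2
    have hq''0 : 0 < q'' := Nat.pos_of_ne_zero (by rintro rfl; exact hq'' (dvd_zero _))
    have h4 := Nat.dvd_of_mul_dvd_mul_right hq''0 h3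
    have := (Nat.pow_dvd_pow_iff_le_right hl.one_lt).1 h4
    omega
  have hbu : IsUnit (b : ZMod n) := (ZMod.isUnit_iff_coprime b n).2 (hb.coprime_dvd_right hnq)
  have hloc := hL l e n hl he hn hLn b y1 y2 hbu hunit
  have hH : ∀ t, (Nt b t).Coprime (m * q) →
      ρ1 ((c t : GaussianInt) * zt b t ^ 2) = Hloc (b : ZMod n) y1 y2 (t : ZMod n) := by
    intro t ht
    have hu := (isUnit_Nt_iff hl he hn b t).2 ((hcop t).1 ht).1
    rw [hy, Hloc, if_pos hu]
    congr 1
    have h1 := hc t (ht.coprime_dvd_right (Dvd.intro_left _ rfl))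
    have h2 : ((c t * Nt b t - 1 : ℤ) : ZMod n) = 0 := by
      rw [ZMod.intCast_zmod_eq_zero_iff_dvd]
      exact (Int.natCast_dvd_natCast.2 hnq).trans h1
    have h3 := ZMod.mul_inv_of_unit _ hu
    simp only [Nt] at h2
    push_cast at h2
    have h4 : ((t : ZMod n) ^ 2 + (b : ZMod n) ^ 2)⁻¹ = c t := by
      linear_combination (c t : ZMod n) * h3 - ((t : ZMod n) ^ 2 + (b : ZMod n) ^ 2)⁻¹ * h2
    rw [h4]
    simp only [Zsqrtd.re_mul, Zsqrtd.im_mul, Zsqrtd.re_intCast, Zsqrtd.im_intCast, zt_sq_re,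
      zt_sq_im]
    push_cast
    ring
  have inner : ∀ t ∈ range T, ‖∑ σ ∈ range n, Fm b (m * q) ρ c ζ (t + m'' * σ)‖ ≤
      (η + ε) * n * (if (Nt b t).Coprime m'' then (1 : ℝ) else 0) := by
    intro t _
    split_ifs with h
    · obtain ⟨c0, hc0⟩ := exists_inv_int (h.coprime_dvd_right hq''m)
      set κ := ρ2 ((c0 : GaussianInt) * zt b t ^ 2) * ee (pair (ur (t / b)) ζ) with hκ
      have hκ1 : ‖κ‖ = 1 := by
        rw [hκ, norm_mul, norm_ee, hρ2, AddChar.mulShift_apply, hρ, one_mul]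
      have key : ∀ σ ∈ range n, ‖Fm b (m * q) ρ c ζ (t + m'' * σ) -
          Hloc (b : ZMod n) y1 y2 ((t + m'' * σ : ℕ) : ZMod n) * κ‖ ≤ ε := by
        intro σ hσ
        by_cases hl1 : l ∣ Nt b (t + m'' * σ)
        · rw [Fm, if_neg (fun h' => ((hcop _).1 h').1 hl1), Hloc,
            if_neg (fun h' => (isUnit_Nt_iff hl he hn b _).1 h' hl1)]
          simpa using hε0
        · have h' : (Nt b (t + m'' * σ)).Coprime (m * q) :=
            (hcop _).2 ⟨hl1, (coprime_Nt_add b t m'' σ).2 h⟩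
          have e2 : ρ2 ((c (t + m'' * σ) : GaussianInt) * zt b (t + m'' * σ) ^ 2) =
              ρ2 ((c0 : GaussianInt) * zt b t ^ 2) := by
            refine rho_periodic hk2' (Nat.ModEq.of_dvd hq''m (by simp [Nat.ModEq])) ?_ hc0
            exact (Int.natCast_dvd_natCast.2 hq''q).trans
              (hc _ (h'.coprime_dvd_right (Dvd.intro_left _ rfl)))
          rw [Fm, if_pos h', hsplit, hH _ h', e2, hκ, mul_assoc, ← mul_sub, ← mul_sub, norm_mul,
            norm_mul, hρ2, AddChar.mulShift_apply, hρ, one_mul]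
          have a1 := norm_Hloc_le (b : ZMod n) y1 y2 ((t + m'' * σ : ℕ) : ZMod n)
          have a2 : ‖ee (pair (ur (((t + m'' * σ : ℕ) : ℝ) / b)) ζ) - ee (pair (ur (t / b)) ζ)‖
              ≤ ε := by
            refine (norm_ee_sub_ee_le _ _).trans ?_
            rw [← pair_sub_left]
            have b1 := abs_pair_le (ur (((t + m'' * σ : ℕ) : ℝ) / b) - ur (t / b)) ζ
            have b2 : (((t + m'' * σ : ℕ) : ℝ) / b) = t / b + m'' * σ / b := by
              push_cast; ring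
            have b3 := norm_ur_sub_le (t / b) (m'' * σ / b)
            rw [← b2, abs_of_nonneg (by positivity)] at b3
            have b4 : (σ : ℝ) ≤ n := by exact_mod_cast (mem_range.1 hσ).le
            have b5 : (m'' : ℝ) * σ / b ≤ m * q / b := by
              refine div_le_div_of_nonneg_right ?_ hbR.le
              exact le_trans (by gcongr) hmn_le'
            have b6 : 14 * (m * q / b) * ‖ζ‖ ≤ ε := by
              rw [← mul_div_assoc, div_mul_eq_mul_div, div_le_iff₀ hbR]; exact hε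
            have b7 := mul_le_mul_of_nonneg_right (b3.trans (by linarith :
              2 * ((m'' : ℝ) * σ / b) ≤ 2 * (m * q / b))) (norm_nonneg ζ)
            linarith
          calc _ ≤ 1 * ε := mul_le_mul a1 a2 (norm_nonneg _) zero_le_one
            _ = ε := one_mul ε
      have h1 : ‖∑ σ ∈ range n, Fm b (m * q) ρ c ζ (t + m'' * σ) -
          (∑ τ : ZMod n, Hloc (b : ZMod n) y1 y2 τ) * κ‖ ≤ n * ε := by
        rw [← sum_range_affine _ t m'' hmn, sum_mul, ← sum_sub_distrib]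
        refine (norm_sum_le _ _).trans ((sum_le_sum key).trans ?_)
        simp
      have h2 := norm_le_norm_add_norm_sub' (∑ σ ∈ range n, Fm b (m * q) ρ c ζ (t + m'' * σ))
        ((∑ τ : ZMod n, Hloc (b : ZMod n) y1 y2 τ) * κ)
      rw [norm_mul, hκ1, mul_one] at h2
      linarith
    · have : ∀ σ ∈ range n, Fm b (m * q) ρ c ζ (t + m'' * σ) = 0 := by
        intro σ _
        rw [Fm, if_neg (fun h' => h ((coprime_Nt_add b t m'' σ).1 ((hcop _).1 h').2))]
      rw [sum_congr rfl this]; simp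
  have main := avg_shift_le (Fm b (m * q) ρ c ζ) (norm_Fm_le _ _ hρ _ _) T m'' n
  have h5 := sum_le_sum inner
  rw [← mul_sum, ← cnt_cast] at h5
  have h6 := cnt_compare hl he hv hn hm'' b T
  rw [← hmq] at h6
  have hnR : (0 : ℝ) < n := by exact_mod_cast hn0
  have h7 : (cnt b m'' T : ℝ) ≤ 3 * (cnt b (m * q) T + 2 * (m * q)) := by linarith
  have h8 := mul_le_mul_of_nonneg_left h7 (by positivity : 0 ≤ (η + ε) * n)
  have h9 := mul_le_mul_of_nonneg_left hmn_le' hnR.le
  have : n * ‖∑ t ∈ range T, Fm b (m * q) ρ c ζ t‖ ≤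
      n * (3 * (η + ε) * (cnt b (m * q) T + 2 * (m * q)) + 2 * (m * q)) := by nlinarith
  exact le_of_mul_le_mul_left this hnR

lemma card_range_cong_le (l S : ℕ) (B : Finset ℕ) (hB : B ⊆ range S)
    (h : ∀ a ∈ B, ∀ a' ∈ B, (l : ℤ) ∣ (a : ℤ) - a') : B.card ≤ S / l + 1 := by
  rw [← card_range (S / l + 1)]
  refine card_le_card_of_injOn (fun a => a / l) ?_ ?_
  · intro a ha
    simp only [coe_range, Set.mem_Iio]
    exact Nat.lt_succ_of_le (Nat.div_le_div_right (mem_range.1 (hB ha)).le)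
  · intro a ha a' ha' h'
    simp only at h'
    have h1 : a' % l = a % l := Nat.modEq_iff_dvd.2 (h a ha a' ha')
    rw [← Nat.div_add_mod a l, ← Nat.div_add_mod a' l, h', h1]

lemma card_roots_le {l m : ℕ} (hl : l.Prime) (hm : ¬ l ∣ m) (b r S : ℕ) :
    ((range S).filter fun s => l ∣ Nt b (r + m * s)).card ≤ 2 * (S / l + 1) := by
  set B := (range S).filter fun s => l ∣ Nt b (r + m * s) with hB
  rcases B.eq_empty_or_nonempty with h | ⟨s0, hs0⟩
  · rw [h]; simp
  have hl' : Prime (l : ℤ) := Nat.prime_iff_prime_int.1 hl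
  have hm' : ¬ (l : ℤ) ∣ m := fun h => hm (Int.natCast_dvd_natCast.1 h)
  have key0 : ∀ s ∈ B, (l : ℤ) ∣ ((r : ℤ) + m * s) ^ 2 + (b : ℤ) ^ 2 := by
    intro s hs
    have := Int.natCast_dvd_natCast.2 (mem_filter.1 hs).2
    simpa [Nt] using this
  have key : ∀ s ∈ B, (l : ℤ) ∣ (s : ℤ) - s0 ∨ (l : ℤ) ∣ 2 * r + m * (s + s0) := by
    intro s hs
    have h1 := dvd_sub (key0 s hs) (key0 s0 hs0)
    have e : ((r : ℤ) + m * s) ^ 2 + (b : ℤ) ^ 2 - (((r : ℤ) + m * s0) ^ 2 + (b : ℤ) ^ 2) =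
        m * ((s - s0) * (2 * r + m * (s + s0))) := by ring
    rw [e] at h1
    exact hl'.dvd_or_dvd ((hl'.dvd_or_dvd h1).resolve_left hm')
  have hsub : B ⊆ (B.filter fun s => (l : ℤ) ∣ (s : ℤ) - s0) ∪
      (B.filter fun s => (l : ℤ) ∣ 2 * r + m * (s + s0)) := by
    intro s hs
    rw [mem_union]
    exact (key s hs).imp (fun h => mem_filter.2 ⟨hs, h⟩) (fun h => mem_filter.2 ⟨hs, h⟩)
  refine (card_le_card hsub).trans ((card_union_le _ _).trans ?_)
  rw [two_mul (S / l + 1)]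
  refine add_le_add (card_range_cong_le l S _ ?_ ?_) (card_range_cong_le l S _ ?_ ?_)
  · exact (filter_subset _ _).trans (filter_subset _ _)
  · intro a ha a' ha'
    simpa using dvd_sub (mem_filter.1 ha).2 (mem_filter.1 ha').2
  · exact (filter_subset _ _).trans (filter_subset _ _)
  · intro a ha a' ha'
    have h1 := dvd_sub (mem_filter.1 ha).2 (mem_filter.1 ha').2
    have e : 2 * (r : ℤ) + m * (a + s0) - (2 * r + m * (a' + s0)) = m * (a - a') := by ring
    rw [e] at h1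
    exact (hl'.dvd_or_dvd h1).resolve_left hm'

lemma card_primeFactors_le (q Q : ℕ) (hq0 : 0 < q) (hq : q ≤ Q) :
    q.primeFactors.card ≤ Nat.log 2 Q := by
  apply Nat.le_log_of_pow_le (by norm_num)
  calc 2 ^ q.primeFactors.card ≤ ∏ p ∈ q.primeFactors, p :=
        pow_card_le_prod _ _ _ fun p hp => (Nat.prime_of_mem_primeFactors hp).two_le
    _ ≤ q := Nat.le_of_dvd hq0 (Nat.prod_primeFactors_dvd q)
    _ ≤ Q := hq

/-- The sieve bound: few admissible `t` have norm sharing a factor with `q`. -/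
theorem sieve (b m S q Q P : ℕ) (hq0 : 0 < q) (hq : q ≤ Q) (hq5 : q.Coprime 5)
    (hm : ∀ l, l.Prime → l ≤ P → l ≠ 5 → l ∣ m) :
    cnt b m (m * S) ≤ cnt b (m * q) (m * S) +
      Nat.log 2 Q * (cnt b m m * (2 * (S / (P + 1) + 1))) := by
  have h1 : ∀ l ∈ q.primeFactors,
      ((range (m * S)).filter fun t => (Nt b t).Coprime m ∧ l ∣ Nt b t).card ≤
        cnt b m m * (2 * (S / (P + 1) + 1)) := by
    intro l hl
    have hl' := Nat.prime_of_mem_primeFactors hl
    by_cases hlm : l ∣ m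
    · have : ((range (m * S)).filter fun t => (Nt b t).Coprime m ∧ l ∣ Nt b t) = ∅ := by
        rw [filter_eq_empty_iff]
        rintro t - ⟨h1, h2⟩
        exact hl'.one_lt.ne' (Nat.eq_one_of_dvd_coprimes h1 h2 hlm)
      rw [this]; simp
    · have hl5 : l ≠ 5 := by
        rintro rfl
        exact absurd (Nat.eq_one_of_dvd_coprimes hq5 (Nat.dvd_of_mem_primeFactors hl) dvd_rfl)
          (by norm_num)
      have hP : P + 1 ≤ l := by
        by_contra h
        exact hlm (hm l hl' (by omega) hl5)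
      rw [card_filter, sum_range_mul', cnt, card_filter, sum_mul]
      refine sum_le_sum fun r _ => ?_
      simp only [coprime_Nt_add]
      split_ifs with h
      · simp only [eq_true h, true_and, one_mul]
        rw [← card_filter]
        refine (card_roots_le hl' hlm b r S).trans ?_
        have := Nat.div_le_div_left (a := S) hP (by omega)
        omega
      · simp [h]
  have h2 : ((range (m * S)).filter fun t => (Nt b t).Coprime m) ⊆
      ((range (m * S)).filter fun t => (Nt b t).Coprime (m * q)) ∪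
      q.primeFactors.biUnion
        fun l => (range (m * S)).filter fun t => (Nt b t).Coprime m ∧ l ∣ Nt b t := by
    intro t ht
    rw [mem_filter] at ht
    rw [mem_union, mem_filter, mem_biUnion]
    by_cases h : (Nt b t).Coprime q
    · exact Or.inl ⟨ht.1, Nat.Coprime.mul_right ht.2 h⟩
    · right
      obtain ⟨l, hl, hl1, hl2⟩ := Nat.Prime.not_coprime_iff_dvd.1 h
      exact ⟨l, Nat.mem_primeFactors.2 ⟨hl, hl2, hq0.ne'⟩, mem_filter.2 ⟨ht.1, ht.2, hl1⟩⟩
  refine (card_le_card h2).trans ((card_union_le _ _).trans ?_)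
  refine add_le_add le_rfl ?_
  refine card_biUnion_le.trans ((sum_le_sum h1).trans ?_)
  rw [sum_const, smul_eq_mul]
  exact Nat.mul_le_mul_right _ (card_primeFactors_le q Q hq0 hq)

end Pool.Agent.P.MP_8b2bd9_co
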