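import Mathlib

/-! One forbidden distance on the rational plane needs only two colours. -/

set_option autoImplicit false

noncomputable section

namespace Pool.Agent.P.MP_8b2bd9_co

instance factTwoW : Fact (Nat.Prime 2) := ⟨Nat.prime_two⟩

/-- Rationals with odd denominator. -/
def oddDen : AddSubgroup ℚ where
  carrier := {q | (q.den : ZMod 2) ≠ 0}
  zero_mem' := by simp
  add_mem' := by
    intro a b ha hb h
    simp only [Set.mem_ofPred_eq, Ne, ZMod.natCast_eq_zero_iff] at ha hb h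
    rcases (Nat.Prime.dvd_mul Nat.prime_two).1 (h.trans (Rat.add_den_dvd a b)) with h | h
    · exact ha h
    · exact hb h
  neg_mem' := by
    intro a ha
    simpa using ha

/-- The binary digit of a rational number in position zero (up to a shift on each coset). -/
def digit (t : ℚ) : ZMod 2 := ((t - (QuotientAddGroup.mk (s := oddDen) t).out : ℚ) : ZMod 2)

lemma digit_add (t s : ℚ) (hs : s ∈ oddDen) : digit (t + s) = digit t + (s : ZMod 2) := by
  have e : (QuotientAddGroup.mk (s := oddDen) (t + s)) = QuotientAddGroup.mk t := by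
    rw [QuotientAddGroup.eq]
    have : -(t + s) + t = -s := by ring
    rw [this]
    exact oddDen.neg_mem hs
  unfold digit
  rw [e]
  set o := (QuotientAddGroup.mk (s := oddDen) t).out with ho
  have h1 : t - o ∈ oddDen := by
    have : (QuotientAddGroup.mk (s := oddDen) o) = QuotientAddGroup.mk t := by
      rw [ho]; exact Quotient.out_eq _
    rw [QuotientAddGroup.eq] at this
    have e2 : t - o = -o + t := by ring
    rw [e2]; exact this
  have e3 : t + s - o = (t - o) + s := by ring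
  rw [e3, Rat.cast_add_of_ne_zero h1 hs]

lemma unit_odd (a b : ℚ) (h : a ^ 2 + b ^ 2 = 1) : a ∈ oddDen := by
  intro h0
  rw [ZMod.natCast_eq_zero_iff] at h0
  have hd : a.den ^ 2 = b.den ^ 2 := by
    have e : a ^ 2 = -(b ^ 2) + (1 : ℤ) := by push_cast; linarith
    rw [← Rat.den_pow, ← Rat.den_pow, e, Rat.add_intCast_den, Rat.neg_den]
  have hd' : a.den = b.den := (Nat.pow_left_injective (by norm_num : 2 ≠ 0)) hd
  have ha := Rat.mul_den_eq_num a
  have hb := Rat.mul_den_eq_num b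
  have e : a.num ^ 2 + b.num ^ 2 = (a.den : ℤ) ^ 2 := by
    have : (a.num : ℚ) ^ 2 + (b.num : ℚ) ^ 2 = (a.den : ℚ) ^ 2 := by
      rw [← ha, ← hb, ← hd']
      linear_combination (a.den : ℚ) ^ 2 * h
    exact_mod_cast this
  have oa : ¬ (2 : ℤ) ∣ a.num := fun h2 => by
    have := Nat.dvd_gcd (Int.natAbs_dvd_natAbs.2 h2) h0
    rw [a.reduced] at this
    simp at this
  have ob : ¬ (2 : ℤ) ∣ b.num := fun h2 => by
    have := Nat.dvd_gcd (Int.natAbs_dvd_natAbs.2 h2) (hd' ▸ h0)
    rw [b.reduced] at this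
    simp at this
  obtain ⟨n, hn⟩ := h0
  obtain ⟨x, hx⟩ : ∃ x, a.num = 2 * x + 1 := ⟨a.num / 2, by omega⟩
  obtain ⟨y, hy⟩ : ∃ y, b.num = 2 * y + 1 := ⟨b.num / 2, by omega⟩
  rw [hx, hy, hn] at e
  push_cast at e
  have : 4 * (x ^ 2 + x + y ^ 2 + y) + 2 = 4 * (n : ℤ) ^ 2 := by linear_combination e
  omega

lemma unit_cast (a b : ℚ) (h : a ^ 2 + b ^ 2 = 1) :
    a + b ∈ oddDen ∧ ((a + b : ℚ) : ZMod 2) = 1 := by
  have ha := unit_odd a b h
  have hb := unit_odd b a (by linarith)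
  refine ⟨oddDen.add_mem ha hb, ?_⟩
  have sq : ∀ q : ℚ, q ∈ oddDen → q * q ∈ oddDen ∧ ((q * q : ℚ) : ZMod 2) = (q : ZMod 2) := by
    intro q hq
    refine ⟨?_, ?_⟩
    · show (((q * q).den : ℕ) : ZMod 2) ≠ 0
      rw [Rat.mul_self_den]
      push_cast
      exact mul_ne_zero hq hq
    · rw [Rat.cast_mul_of_ne_zero hq hq]
      generalize (q : ZMod 2) = z
      revert z
      decide
  have e : a * a + b * b = 1 := by linarith
  have := congrArg (fun q : ℚ => (q : ZMod 2)) e
  rw [Rat.cast_add_of_ne_zero (sq a ha).1 (sq b hb).1, (sq a ha).2, (sq b hb).2] at this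
  rw [Rat.cast_add_of_ne_zero ha hb, this]
  simp

/-- For each squared distance there is a 2-colouring of the rational plane avoiding it. -/
theorem woodall (D : ℝ) (hD : 0 < D) : ∃ c : ℚ × ℚ → ZMod 2, ∀ x y : ℚ × ℚ,
    (((x.1 - y.1) ^ 2 + (x.2 - y.2) ^ 2 : ℚ) : ℝ) = D → c x ≠ c y := by
  by_cases hex : ∃ a b : ℚ, ((a ^ 2 + b ^ 2 : ℚ) : ℝ) = D
  · obtain ⟨a, b, hab⟩ := hex
    have hN : a ^ 2 + b ^ 2 ≠ 0 := by
      intro h0
      rw [h0] at hab
      simp at hab
      linarith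
    refine ⟨fun x => digit (((a - b) * x.1 + (a + b) * x.2) / (a ^ 2 + b ^ 2)), fun x y h => ?_⟩
    have hxy : (x.1 - y.1) ^ 2 + (x.2 - y.2) ^ 2 = a ^ 2 + b ^ 2 := by
      rw [← hab] at h
      exact_mod_cast h
    set u := ((x.1 - y.1) * a + (x.2 - y.2) * b) / (a ^ 2 + b ^ 2) with hu
    set w := ((x.2 - y.2) * a - (x.1 - y.1) * b) / (a ^ 2 + b ^ 2) with hw
    have huw : u ^ 2 + w ^ 2 = 1 := by
      rw [hu, hw]
      field_simp
      linear_combination (a ^ 2 + b ^ 2) * hxy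
    obtain ⟨h1, h2⟩ := unit_cast u w huw
    have e : ((a - b) * x.1 + (a + b) * x.2) / (a ^ 2 + b ^ 2) =
        ((a - b) * y.1 + (a + b) * y.2) / (a ^ 2 + b ^ 2) + (u + w) := by
      rw [hu, hw]
      field_simp
      ring
    simp only
    rw [e, digit_add _ _ h1, h2]
    simp
  · exact ⟨fun _ => 0, fun x y h => absurd ⟨_, _, h⟩ hex⟩

end Pool.Agent.P.MP_8b2bd9_co
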